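import Pool.Agent.H223.TM.Defs
import Pool.Agent.H306R2.Box

set_option autoImplicit false

/-!
Twelfth moment lower bound, task N3b: `VP` by inclusion-exclusion over the columns (helper704).
The definitions `Reg`, `VP`, `Q1`, `Q2` are verbatim those of the stubs file.
-/



namespace Pool.Agent.H704R2.TMN3

open Finset Filter Topology MeasureTheory
open Pool.Agent.H306R2

noncomputable section

/-- Euler's beta integral, integer exponents -/
theorem beta_nat (b : ℕ) : ∀ (a : ℕ) (c : ℝ), ∫ x in (0 : ℝ)..c, x ^ a * (c - x) ^ b =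
    (a.factorial : ℝ) * b.factorial / (a + b + 1).factorial * c ^ (a + b + 1) := by
  induction b with
  | zero =>
    intro a c
    simp only [pow_zero, mul_one, Nat.factorial_zero, Nat.cast_one, add_zero]
    rw [integral_pow, Nat.factorial_succ]
    have h1 : (a.factorial : ℝ) ≠ 0 := by positivity
    push_cast
    field_simp
    simp
  | succ b ih =>
    intro a c
    have h1 : ∀ x ∈ Set.uIcc 0 c, HasDerivAt (fun x : ℝ => (c - x) ^ (b + 1))
        (-((b + 1 : ℕ) : ℝ) * (c - x) ^ b) x := by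
      intro x _
      have := ((hasDerivAt_id x).const_sub c).pow (b + 1)
      convert! this using 1
      simp only [id, Nat.add_sub_cancel]
      ring
    have h2 : ∀ x ∈ Set.uIcc 0 c, HasDerivAt (fun x : ℝ => x ^ (a + 1) / ((a : ℝ) + 1))
        (x ^ a) x := by
      intro x _
      have := (hasDerivAt_pow (a + 1) x).div_const ((a : ℝ) + 1)
      convert! this using 1
      have : (a : ℝ) + 1 ≠ 0 := by positivity
      push_cast
      try simp only [Nat.add_sub_cancel]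
      field_simp
    have h3 := intervalIntegral.integral_mul_deriv_eq_deriv_mul h1 h2
      (by apply Continuous.intervalIntegrable; fun_prop)
      (by apply Continuous.intervalIntegrable; fun_prop)
    have h4 : ∫ x in (0 : ℝ)..c, x ^ a * (c - x) ^ (b + 1) =
        ∫ x in (0 : ℝ)..c, (c - x) ^ (b + 1) * x ^ a := by
      congr 1; funext x; ring
    rw [h4, h3]
    have h5 : ∫ x in (0 : ℝ)..c, -((b + 1 : ℕ) : ℝ) * (c - x) ^ b * (x ^ (a + 1) / ((a : ℝ) + 1)) =
        -(((b + 1 : ℕ) : ℝ) / ((a : ℝ) + 1)) * ∫ x in (0 : ℝ)..c, x ^ (a + 1) * (c - x) ^ b := by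
      rw [← intervalIntegral.integral_const_mul]
      congr 1; funext x; ring
    rw [h5, ih (a + 1) c]
    have e1 : a + 1 + b + 1 = a + (b + 1) + 1 := by ring
    rw [e1, Nat.factorial_succ a, Nat.factorial_succ b]
    have h6 : ((a : ℝ) + 1) ≠ 0 := by positivity
    push_cast
    rw [sub_self, zero_pow (by omega), zero_pow (by omega)]
    field_simp
    ring

theorem gd_nat (n : ℕ) (x : ℝ) :
    gd ((n : ℝ) + 1) x = if 0 < x then x ^ n / (n.factorial : ℝ) else 0 := by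
  unfold gd
  rw [Real.Gamma_nat_eq_factorial, add_sub_cancel_right, Real.rpow_natCast]

theorem hlp (f p : ℝ → ℝ) (A B : ℝ) (hAB : A ≤ B) (h1 : ∀ x ∈ Set.Ioo A B, f x = p x)
    (h0 : ∀ x ∉ Set.Ioo A B, f x = 0) : ∫ x, f x = ∫ x in A..B, p x := by
  rw [← setIntegral_eq_integral_of_forall_compl_eq_zero h0, intervalIntegral.integral_of_le hAB,
    integral_Ioc_eq_integral_Ioo]
  exact setIntegral_congr_fun measurableSet_Ioo h1

theorem hlp' (f p : ℝ → ℝ) (A B : ℝ) (hAB : A ≤ B) (h1 : ∀ x ∈ Set.Ioc A B, f x = p x)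
    (h0 : ∀ x ∉ Set.Ioc A B, f x = 0) : ∫ x, f x = ∫ x in A..B, p x := by
  rw [← setIntegral_eq_integral_of_forall_compl_eq_zero h0, intervalIntegral.integral_of_le hAB]
  exact setIntegral_congr_fun measurableSet_Ioc h1

/-- convolution of the densities -/
theorem gd_conv (a b : ℕ) (c : ℝ) : ∫ x, gd ((a : ℝ) + 1) x * gd ((b : ℝ) + 1) (c - x) =
    gd (((a + b + 1 : ℕ) : ℝ) + 1) c := by
  simp only [gd_nat]
  by_cases hc : 0 < c
  · rw [if_pos hc, hlp _ (fun x => (1 / ((a.factorial : ℝ) * b.factorial)) * (x ^ a * (c - x) ^ b))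
      0 c hc.le]
    · rw [intervalIntegral.integral_const_mul, beta_nat]
      have h1 : (a.factorial : ℝ) ≠ 0 := by positivity
      have h2 : (b.factorial : ℝ) ≠ 0 := by positivity
      field_simp
    · intro x hx
      rw [if_pos hx.1, if_pos (by linarith [hx.2])]
      ring
    · intro x hx
      rw [Set.mem_Ioo, not_and_or] at hx
      rcases hx with hx | hx
      · rw [if_neg hx, zero_mul]
      · rw [if_neg (show ¬ 0 < c - x by linarith [not_lt.1 hx]), mul_zero]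
  · rw [if_neg hc]
    have : ∀ x : ℝ, (if 0 < x then x ^ a / (a.factorial : ℝ) else 0) *
        (if 0 < c - x then (c - x) ^ b / (b.factorial : ℝ) else 0) = 0 := by
      intro x
      by_cases hx : 0 < x
      · rw [if_neg (show ¬ 0 < c - x by linarith), mul_zero]
      · rw [if_neg hx, zero_mul]
    simp only [this, integral_zero]

/-- primitive of the density -/
theorem gd_prim (a : ℕ) (c : ℝ) : ∫ x, gd ((a : ℝ) + 1) x * (if x ≤ c then 1 else 0) =
    gd (((a + 1 : ℕ) : ℝ) + 1) c := by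
  simp only [gd_nat]
  by_cases hc : 0 < c
  · rw [if_pos hc, hlp' _ (fun x => (1 / (a.factorial : ℝ)) * x ^ a) 0 c hc.le]
    · rw [intervalIntegral.integral_const_mul, integral_pow, Nat.factorial_succ]
      have h1 : (a.factorial : ℝ) ≠ 0 := by positivity
      push_cast
      field_simp
      simp
    · intro x hx
      rw [if_pos hx.1, if_pos hx.2]
      ring
    · intro x hx
      rw [Set.mem_Ioc, not_and_or] at hx
      rcases hx with hx | hx
      · rw [if_neg hx, zero_mul]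
      · rw [if_neg hx, mul_zero]
  · rw [if_neg hc]
    have : ∀ x : ℝ, (if 0 < x then x ^ a / (a.factorial : ℝ) else 0) *
        (if x ≤ c then (1 : ℝ) else 0) = 0 := by
      intro x
      by_cases hx : 0 < x
      · rw [if_neg (show ¬ x ≤ c by linarith), mul_zero]
      · rw [if_neg hx, zero_mul]
    simp only [this, integral_zero]


theorem conv_integrable (a b : ℕ) (c : ℝ) :
    Integrable (fun x => gd ((a : ℝ) + 1) x * gd ((b : ℝ) + 1) (c - x)) := by
  have h := (gd_ct_integrable (m := (a : ℝ) + 1) (by positivity) c).mul_const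
    (|c| ^ b / (b.factorial : ℝ))
  refine h.mono' ?_ (Eventually.of_forall fun x => ?_)
  · exact ((gd_meas _).mul ((gd_meas _).comp (by fun_prop))).aestronglyMeasurable
  · have n1 := gd_nonneg (m := (a : ℝ) + 1) (by positivity) x
    have n2 := gd_nonneg (m := (b : ℝ) + 1) (by positivity) (c - x)
    rw [Real.norm_eq_abs, abs_of_nonneg (mul_nonneg n1 n2), mul_assoc]
    by_cases hx : 0 < x
    · refine mul_le_mul_of_nonneg_left ?_ n1
      rw [gd_nat]
      unfold ct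
      by_cases hc : 0 < c - x
      · rw [if_pos hc, if_pos (by linarith), one_mul]
        have : (c - x) ^ b ≤ |c| ^ b := by
          refine pow_le_pow_left₀ hc.le ?_ b
          have := le_abs_self c
          linarith
        gcongr
      · rw [if_neg hc]
        split_ifs <;> positivity
    · have : gd ((a : ℝ) + 1) x = 0 := by rw [gd_nat, if_neg hx]
      rw [this]; simp

theorem gd_conv_lin (a b : ℕ) (c : ℝ) :
    ∫⁻ x, ENNReal.ofReal (gd ((a : ℝ) + 1) x * gd ((b : ℝ) + 1) (c - x)) =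
    ENNReal.ofReal (gd (((a + b + 1 : ℕ) : ℝ) + 1) c) := by
  rw [← gd_conv, ofReal_integral_eq_lintegral_ofReal (conv_integrable a b c)]
  exact Eventually.of_forall fun x => mul_nonneg (gd_nonneg (by positivity) _)
      (gd_nonneg (by positivity) _)

theorem gd_prim_lin (a : ℕ) (c : ℝ) :
    ∫⁻ x, ENNReal.ofReal (gd ((a : ℝ) + 1) x * (if x ≤ c then 1 else 0)) =
    ENNReal.ofReal (gd (((a + 1 : ℕ) : ℝ) + 1) c) := by
  have hI : Integrable (fun x => gd ((a : ℝ) + 1) x * (if x ≤ c then (1 : ℝ) else 0)) := by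
    have := gd_ct_integrable (m := (a : ℝ) + 1) (by positivity) c
    unfold ct at this
    exact this
  rw [← gd_prim, ofReal_integral_eq_lintegral_ofReal hI]
  exact Eventually.of_forall fun x => mul_nonneg (gd_nonneg (by positivity) _)
      (by split_ifs <;> norm_num)

theorem prim4 (c : ℝ) : ∫⁻ x, ENNReal.ofReal (gd 4 x * (if x ≤ c then 1 else 0)) =
    ENNReal.ofReal (gd 5 c) := by
  have h := gd_prim_lin 3 c
  have e1 : (((3 : ℕ) : ℝ) + 1) = 4 := by norm_num
  have e2 : (((3 + 1 : ℕ) : ℝ) + 1) = 5 := by norm_num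
  rw [e1, e2] at h
  exact h

theorem conv45 (c : ℝ) : ∫⁻ x, ENNReal.ofReal (gd 4 x * gd 5 (c - x)) =
    ENNReal.ofReal (gd 9 c) := by
  have h := gd_conv_lin 3 4 c
  have e1 : (((3 : ℕ) : ℝ) + 1) = 4 := by norm_num
  have e2 : (((4 : ℕ) : ℝ) + 1) = 5 := by norm_num
  have e3 : (((3 + 4 + 1 : ℕ) : ℝ) + 1) = 9 := by norm_num
  rw [e1, e2, e3] at h
  exact h

theorem conv49 (c : ℝ) : ∫⁻ x, ENNReal.ofReal (gd 4 x * gd 9 (c - x)) =
    ENNReal.ofReal (gd 13 c) := by
  have h := gd_conv_lin 3 8 c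
  have e1 : (((3 : ℕ) : ℝ) + 1) = 4 := by norm_num
  have e2 : (((8 : ℕ) : ℝ) + 1) = 9 := by norm_num
  have e3 : (((3 + 8 + 1 : ℕ) : ℝ) + 1) = 13 := by norm_num
  rw [e1, e2, e3] at h
  exact h

/-- the density of a row -/
def R (a : Fin 3 → ℝ) : ℝ := Gd ![4, 4, 4] a * (if a 0 + a 1 + a 2 ≤ 1 then 1 else 0)

def g1 (t : ℝ) : ℝ := gd 4 t * gd 9 (1 - t)

def g2 (p : ℝ × ℝ) : ℝ := gd 4 p.1 * gd 4 p.2 * gd 5 (1 - p.1 - p.2)

theorem Gd3 (a : Fin 3 → ℝ) : Gd ![4, 4, 4] a = gd 4 (a 0) * gd 4 (a 1) * gd 4 (a 2) := by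
  unfold Gd
  rw [Fin.prod_univ_three]
  rfl

theorem gd4_nonneg (x : ℝ) : 0 ≤ gd 4 x := gd_nonneg (by norm_num) x

theorem R_meas : Measurable R := by
  have : R = fun a => gd 4 (a 0) * gd 4 (a 1) * gd 4 (a 2) *
      (if a 0 + a 1 + a 2 ≤ 1 then 1 else 0) := by
    funext a; unfold R; rw [Gd3]
  rw [this]
  have m := gd_meas 4
  refine (((m.comp (measurable_pi_apply 0)).mul (m.comp (measurable_pi_apply 1))).mul
    (m.comp (measurable_pi_apply 2))).mul ?_
  refine Measurable.ite ?_ measurable_const measurable_const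
  exact measurableSet_le (by fun_prop) measurable_const

theorem R_nonneg (a : Fin 3 → ℝ) : 0 ≤ R a := by
  unfold R
  rw [Gd3]
  have := gd4_nonneg (a 0)
  have := gd4_nonneg (a 1)
  have := gd4_nonneg (a 2)
  split_ifs <;> positivity

theorem R_split (i : Fin 3) (a : Fin 3 → ℝ) : R a =
    gd 4 (a (i.succAbove 0)) * gd 4 (a (i.succAbove 1)) *
      (gd 4 (a i) * (if a i ≤ 1 - a (i.succAbove 0) - a (i.succAbove 1) then 1 else 0)) := by
  unfold R
  rw [Gd3]
  fin_cases i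
  · have s0 : ((0 : Fin 3).succAbove (0 : Fin 2)) = 1 := rfl
    have s1 : ((0 : Fin 3).succAbove (1 : Fin 2)) = 2 := rfl
    simp only [Fin.zero_eta, s0, s1]
    have : (a 0 + a 1 + a 2 ≤ 1) ↔ (a 0 ≤ 1 - a 1 - a 2) := by constructor <;> intro h <;> linarith
    simp only [this]
    ring
  · have s0 : ((1 : Fin 3).succAbove (0 : Fin 2)) = 0 := rfl
    have s1 : ((1 : Fin 3).succAbove (1 : Fin 2)) = 2 := rfl
    simp only [Fin.mk_one, s0, s1]
    have : (a 0 + a 1 + a 2 ≤ 1) ↔ (a 1 ≤ 1 - a 0 - a 2) := by constructor <;> intro h <;> linarith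
    simp only [this]
    ring
  · have s0 : ((2 : Fin 3).succAbove (0 : Fin 2)) = 0 := rfl
    have s1 : ((2 : Fin 3).succAbove (1 : Fin 2)) = 1 := rfl
    simp only [Fin.reduceFinMk, s0, s1]
    have : (a 0 + a 1 + a 2 ≤ 1) ↔ (a 2 ≤ 1 - a 0 - a 1) := by constructor <;> intro h <;> linarith
    simp only [this]
    ring

theorem g2_meas : Measurable g2 := by
  unfold g2
  exact (((gd_meas 4).comp measurable_fst).mul ((gd_meas 4).comp measurable_snd)).mul
    ((gd_meas 5).comp (by fun_prop))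

theorem g2_nonneg (p : ℝ × ℝ) : 0 ≤ g2 p := by
  unfold g2
  have := gd4_nonneg p.1
  have := gd4_nonneg p.2
  have := gd_nonneg (m := 5) (by norm_num) (1 - p.1 - p.2)
  positivity

theorem g1_meas : Measurable g1 := by
  unfold g1
  exact (gd_meas 4).mul ((gd_meas 9).comp (by fun_prop))

theorem g1_nonneg (t : ℝ) : 0 ≤ g1 t := by
  unfold g1
  have := gd4_nonneg t
  have := gd_nonneg (m := 9) (by norm_num) (1 - t)
  positivity

/-- pair marginals -/
theorem lint2 (i : Fin 3) (φ : ℝ × ℝ → ENNReal) (hφ : Measurable φ) :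
    ∫⁻ a : Fin 3 → ℝ, φ (a (i.succAbove 0), a (i.succAbove 1)) * ENNReal.ofReal (R a) =
      ∫⁻ p : ℝ × ℝ, φ p * ENNReal.ofReal (g2 p) := by
  have hp := volume_preserving_piFinSuccAbove (fun _ : Fin 3 => ℝ) i
  let F : ℝ × (Fin 2 → ℝ) → ENNReal := fun q => φ (q.2 0, q.2 1) *
    (ENNReal.ofReal (gd 4 (q.2 0) * gd 4 (q.2 1)) *
      ENNReal.ofReal (gd 4 q.1 * (if q.1 ≤ 1 - q.2 0 - q.2 1 then 1 else 0)))
  have hF : Measurable F := by
    have m0 : Measurable (fun q : ℝ × (Fin 2 → ℝ) => φ (q.2 0, q.2 1)) :=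
      hφ.comp (by fun_prop)
    have m1 : Measurable (fun q : ℝ × (Fin 2 → ℝ) =>
        ENNReal.ofReal (gd 4 (q.2 0) * gd 4 (q.2 1))) :=
      (((gd_meas 4).comp (by fun_prop)).mul ((gd_meas 4).comp (by fun_prop))).ennreal_ofReal
    have m2 : Measurable (fun q : ℝ × (Fin 2 → ℝ) =>
        ENNReal.ofReal (gd 4 q.1 * (if q.1 ≤ 1 - q.2 0 - q.2 1 then (1 : ℝ) else 0))) := by
      refine (((gd_meas 4).comp measurable_fst).mul ?_).ennreal_ofReal
      refine Measurable.ite ?_ measurable_const measurable_const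
      exact measurableSet_le (by fun_prop) (by fun_prop)
    exact m0.mul (m1.mul m2)
  have e1 : ∫⁻ a : Fin 3 → ℝ, φ (a (i.succAbove 0), a (i.succAbove 1)) * ENNReal.ofReal (R a) =
      ∫⁻ a : Fin 3 → ℝ, F (MeasurableEquiv.piFinSuccAbove (fun _ : Fin 3 => ℝ) i a) := by
    refine lintegral_congr fun a => ?_
    show _ = φ (a (i.succAbove 0), a (i.succAbove 1)) *
      (ENNReal.ofReal (gd 4 (a (i.succAbove 0)) * gd 4 (a (i.succAbove 1))) *
      ENNReal.ofReal (gd 4 (a i) * (if a i ≤ 1 - a (i.succAbove 0) - a (i.succAbove 1) then 1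
        else 0)))
    rw [R_split i a, ENNReal.ofReal_mul (mul_nonneg (gd4_nonneg _) (gd4_nonneg _))]
  rw [e1, hp.lintegral_comp hF, Measure.volume_eq_prod, lintegral_prod_symm' _ hF]
  have e2 : ∀ v : Fin 2 → ℝ, ∫⁻ x : ℝ, F (x, v) =
      φ (v 0, v 1) * ENNReal.ofReal (g2 (v 0, v 1)) := by
    intro v
    show ∫⁻ x : ℝ, φ (v 0, v 1) * (ENNReal.ofReal (gd 4 (v 0) * gd 4 (v 1)) *
      ENNReal.ofReal (gd 4 x * (if x ≤ 1 - v 0 - v 1 then 1 else 0))) = _
    rw [lintegral_const_mul, lintegral_const_mul]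
    · rw [prim4]
      unfold g2
      rw [ENNReal.ofReal_mul (mul_nonneg (gd4_nonneg _) (gd4_nonneg _))]
    · refine ((gd_meas 4).mul ?_).ennreal_ofReal
      exact Measurable.ite (measurableSet_le (by fun_prop) (by fun_prop)) measurable_const
        measurable_const
    · refine Measurable.const_mul ?_ _
      refine ((gd_meas 4).mul ?_).ennreal_ofReal
      exact Measurable.ite (measurableSet_le (by fun_prop) (by fun_prop)) measurable_const
        measurable_const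
  simp only [e2]
  have hq := volume_preserving_finTwoArrow ℝ
  have e3 := hq.lintegral_comp (f := fun p : ℝ × ℝ => φ p * ENNReal.ofReal (g2 p))
    (hφ.mul g2_meas.ennreal_ofReal)
  rw [Measure.volume_eq_prod] at e3
  exact e3

/-- single marginals -/
theorem lint2a (ψ : ℝ → ENNReal) (hψ : Measurable ψ) :
    ∫⁻ p : ℝ × ℝ, ψ p.1 * ENNReal.ofReal (g2 p) =
      ∫⁻ t, ψ t * ENNReal.ofReal (g1 t) := by
  have hm : Measurable (fun p : ℝ × ℝ => ψ p.1 * ENNReal.ofReal (g2 p)) :=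
    (hψ.comp measurable_fst).mul g2_meas.ennreal_ofReal
  rw [Measure.volume_eq_prod, lintegral_prod _ hm.aemeasurable]
  refine lintegral_congr fun t => ?_
  have e : ∀ y : ℝ, ψ t * ENNReal.ofReal (g2 (t, y)) = (ψ t * ENNReal.ofReal (gd 4 t)) *
      ENNReal.ofReal (gd 4 y * gd 5 (1 - t - y)) := by
    intro y
    unfold g2
    rw [mul_assoc (gd 4 t), ENNReal.ofReal_mul (gd4_nonneg _), mul_assoc]
  simp only [e]
  rw [lintegral_const_mul, conv45]
  · unfold g1
    rw [ENNReal.ofReal_mul (gd4_nonneg _), mul_assoc]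
  · exact ((gd_meas 4).mul ((gd_meas 5).comp (by fun_prop))).ennreal_ofReal

theorem lint2b (ψ : ℝ → ENNReal) (hψ : Measurable ψ) :
    ∫⁻ p : ℝ × ℝ, ψ p.2 * ENNReal.ofReal (g2 p) =
      ∫⁻ t, ψ t * ENNReal.ofReal (g1 t) := by
  have hm : Measurable (fun p : ℝ × ℝ => ψ p.2 * ENNReal.ofReal (g2 p)) :=
    (hψ.comp measurable_snd).mul g2_meas.ennreal_ofReal
  rw [Measure.volume_eq_prod, lintegral_prod_symm' _ hm]
  refine lintegral_congr fun t => ?_
  have e : ∀ y : ℝ, ψ t * ENNReal.ofReal (g2 (y, t)) = (ψ t * ENNReal.ofReal (gd 4 t)) *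
      ENNReal.ofReal (gd 4 y * gd 5 (1 - t - y)) := by
    intro y
    unfold g2
    have e' : gd 4 y * gd 4 t * gd 5 (1 - y - t) = gd 4 t * (gd 4 y * gd 5 (1 - t - y)) := by
      rw [show 1 - y - t = 1 - t - y by ring]; ring
    rw [e', ENNReal.ofReal_mul (gd4_nonneg _), mul_assoc]
  simp only [e]
  rw [lintegral_const_mul, conv45]
  · unfold g1
    rw [ENNReal.ofReal_mul (gd4_nonneg _), mul_assoc]
  · exact ((gd_meas 4).mul ((gd_meas 5).comp (by fun_prop))).ennreal_ofReal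

theorem lint1 (j : Fin 3) (ψ : ℝ → ENNReal) (hψ : Measurable ψ) :
    ∫⁻ a : Fin 3 → ℝ, ψ (a j) * ENNReal.ofReal (R a) =
      ∫⁻ t, ψ t * ENNReal.ofReal (g1 t) := by
  fin_cases j
  · have h := lint2 2 (fun p => ψ p.1) (hψ.comp measurable_fst)
    rw [lint2a ψ hψ] at h
    exact h
  · have h := lint2 2 (fun p => ψ p.2) (hψ.comp measurable_snd)
    rw [lint2b ψ hψ] at h
    exact h
  · have h := lint2 0 (fun p => ψ p.2) (hψ.comp measurable_snd)
    rw [lint2b ψ hψ] at h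
    exact h

theorem g1_mass : ∫⁻ t, ENNReal.ofReal (g1 t) = ENNReal.ofReal (1 / (Nat.factorial 12 : ℝ)) := by
  unfold g1
  rw [conv49]
  have e : (13 : ℝ) = ((12 : ℕ) : ℝ) + 1 := by norm_num
  rw [e, gd_nat, if_pos one_pos, one_pow]

theorem R_mass : ∫⁻ a : Fin 3 → ℝ, ENNReal.ofReal (R a) =
    ENNReal.ofReal (1 / (Nat.factorial 12 : ℝ)) := by
  have h := lint1 0 (fun _ => 1) measurable_const
  simp only [one_mul] at h
  rw [h, g1_mass]

theorem g2_mass : ∫⁻ p : ℝ × ℝ, ENNReal.ofReal (g2 p) =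
    ENNReal.ofReal (1 / (Nat.factorial 12 : ℝ)) := by
  have h := lint2a (fun _ => 1) measurable_const
  simp only [one_mul] at h
  rw [h, g1_mass]

theorem integrable_of {E : Type*} [MeasureSpace E] {f : E → ℝ} (hf : Measurable f)
    (h0 : ∀ x, 0 ≤ f x) {C : ℝ} (h : ∫⁻ x, ENNReal.ofReal (f x) = ENNReal.ofReal C) :
    Integrable f := by
  refine ⟨hf.aestronglyMeasurable, ?_⟩
  rw [hasFiniteIntegral_iff_ofReal (Eventually.of_forall h0), h]
  exact ENNReal.ofReal_lt_top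

theorem R_int : Integrable R := integrable_of R_meas R_nonneg R_mass

theorem g1_int : Integrable g1 := integrable_of g1_meas g1_nonneg g1_mass

theorem g2_int : Integrable g2 := integrable_of g2_meas g2_nonneg g2_mass

theorem R_integral : ∫ a : Fin 3 → ℝ, R a = 1 / (Nat.factorial 12 : ℝ) := by
  rw [integral_eq_lintegral_of_nonneg_ae (Eventually.of_forall R_nonneg)
    R_meas.aestronglyMeasurable, R_mass, ENNReal.toReal_ofReal (by positivity)]

/-- products of densities -/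
theorem pi_withDensity {E : Type*} [MeasureSpace E] [SigmaFinite (volume : Measure E)] {f : E → ℝ}
    (h0 : ∀ x, 0 ≤ f x) (hI : Integrable f) :
    Measure.pi (fun _ : Fin 3 => (volume : Measure E).withDensity (fun x => ENNReal.ofReal (f x))) =
      (volume : Measure (Fin 3 → E)).withDensity (fun x => ENNReal.ofReal (∏ i, f (x i))) := by
  have hfin : IsFiniteMeasure ((volume : Measure E).withDensity (fun x => ENNReal.ofReal (f x))) :=
    isFiniteMeasure_withDensity_ofReal hI.2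
  refine Measure.pi_eq fun s hs => ?_
  have hI3 : Integrable (fun x : Fin 3 → E => ∏ i, f (x i)) :=
    Integrable.fintype_prod (ι := Fin 3) (f := fun _ => f) (fun _ => hI)
  have hms : MeasurableSet (Set.univ.pi s) := MeasurableSet.univ_pi hs
  rw [withDensity_apply _ hms, ← ofReal_integral_eq_lintegral_ofReal hI3.integrableOn
    (Eventually.of_forall fun x => prod_nonneg fun i _ => h0 _)]
  have h1 : ∫ x in Set.univ.pi s, ∏ i, f (x i) = ∏ i, ∫ x in s i, f x := by
    rw [volume_pi, Measure.restrict_pi_pi]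
    exact integral_fintype_prod_eq_prod (fun _ : Fin 3 => f)
  rw [h1, ENNReal.ofReal_prod_of_nonneg (fun i _ => integral_nonneg h0)]
  refine prod_congr rfl fun i _ => ?_
  rw [withDensity_apply _ (hs i), ofReal_integral_eq_lintegral_ofReal hI.integrableOn
    (Eventually.of_forall h0)]

theorem integral_wD {Z : Type*} [MeasureSpace Z] (F w : Z → ℝ)
    (hw : Measurable F) (hF0 : ∀ x, 0 ≤ F x) : ∫ x, w x ∂((volume : Measure Z).withDensity
      (fun x => ENNReal.ofReal (F x))) = ∫ x, F x * w x := by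
  rw [integral_withDensity_eq_integral_toReal_smul hw.ennreal_ofReal
    (Eventually.of_forall fun x => ENNReal.ofReal_lt_top)]
  refine integral_congr_ae (Eventually.of_forall fun x => ?_)
  simp only [smul_eq_mul]
  rw [ENNReal.toReal_ofReal (hF0 x)]

/-- transfer along a map -/
theorem transfer {E Y : Type*} [MeasureSpace E] [SigmaFinite (volume : Measure E)]
    [MeasureSpace Y] [SigmaFinite (volume : Measure Y)] {f : E → ℝ} {g : Y → ℝ}
    (hf : Measurable f) (hf0 : ∀ x, 0 ≤ f x) (hfI : Integrable f)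
    (hg : Measurable g) (hg0 : ∀ x, 0 ≤ g x) (hgI : Integrable g)
    {p : E → Y} (hp : Measurable p)
    (H : ∀ φ : Y → ENNReal, Measurable φ → ∫⁻ a, φ (p a) * ENNReal.ofReal (f a) =
      ∫⁻ y, φ y * ENNReal.ofReal (g y)) (h : (Fin 3 → Y) → ℝ) (hh : Measurable h) :
    ∫ x : Fin 3 → E, (∏ i, f (x i)) * h (fun i => p (x i)) =
      ∫ y : Fin 3 → Y, (∏ i, g (y i)) * h y := by
  have hmap : ((volume : Measure E).withDensity (fun x => ENNReal.ofReal (f x))).map p =
      (volume : Measure Y).withDensity (fun x => ENNReal.ofReal (g x)) := by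
    ext s hs
    rw [Measure.map_apply hp hs, withDensity_apply _ (hp hs), withDensity_apply _ hs]
    have h1 := H (s.indicator 1) (measurable_one.indicator hs)
    rw [← lintegral_indicator (hp hs), ← lintegral_indicator hs]
    have e1 : ∀ a, (p ⁻¹' s).indicator (fun x => ENNReal.ofReal (f x)) a =
        (s.indicator 1) (p a) * ENNReal.ofReal (f a) := by
      intro a
      by_cases ha : p a ∈ s
      · rw [Set.indicator_of_mem (show a ∈ p ⁻¹' s from ha), Set.indicator_of_mem ha]; simp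
      · rw [Set.indicator_of_notMem (show a ∉ p ⁻¹' s from ha), Set.indicator_of_notMem ha]; simp
    have e2 : ∀ y, s.indicator (fun x => ENNReal.ofReal (g x)) y =
        (s.indicator 1) y * ENNReal.ofReal (g y) := by
      intro y
      by_cases hy : y ∈ s
      · rw [Set.indicator_of_mem hy, Set.indicator_of_mem hy]; simp
      · rw [Set.indicator_of_notMem hy, Set.indicator_of_notMem hy]; simp
    simp only [e1, e2]
    exact h1
  have hfinE : IsFiniteMeasure ((volume : Measure E).withDensity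
      (fun x => ENNReal.ofReal (f x))) := isFiniteMeasure_withDensity_ofReal hfI.2
  have hfinY : IsFiniteMeasure ((volume : Measure Y).withDensity
      (fun x => ENNReal.ofReal (g x))) := isFiniteMeasure_withDensity_ofReal hgI.2
  have hpi := Measure.pi_map_pi (ι := Fin 3)
    (μ := fun _ => (volume : Measure E).withDensity (fun x => ENNReal.ofReal (f x)))
    (f := fun _ => p) (fun _ => hp.aemeasurable)
  have mF : Measurable (fun x : Fin 3 → E => ∏ i, f (x i)) :=
    Finset.measurable_prod _ fun i _ => hf.comp (measurable_pi_apply i)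
  have mG : Measurable (fun x : Fin 3 → Y => ∏ i, g (x i)) :=
    Finset.measurable_prod _ fun i _ => hg.comp (measurable_pi_apply i)
  rw [← integral_wD (fun x : Fin 3 → E => ∏ i, f (x i)) (fun x => h (fun i => p (x i))) mF
      (fun x => prod_nonneg fun i _ => hf0 _),
    ← integral_wD (fun y : Fin 3 → Y => ∏ i, g (y i)) h mG
      (fun x => prod_nonneg fun i _ => hg0 _),
    ← pi_withDensity hf0 hfI, ← pi_withDensity hg0 hgI]
  simp only [hmap] at hpi
  rw [← hpi, integral_map]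
  · exact (measurable_pi_lambda _ fun i => hp.comp (measurable_pi_apply i)).aemeasurable
  · exact hh.aestronglyMeasurable

/-- the region: all row sums and all column sums `≤ 1` -/
def Reg : Set (Fin 9 → ℝ) := {u | u 0 + u 1 + u 2 ≤ 1 ∧ u 3 + u 4 + u 5 ≤ 1 ∧ u 6 + u 7 + u 8 ≤ 1 ∧
  u 0 + u 3 + u 6 ≤ 1 ∧ u 1 + u 4 + u 7 ≤ 1 ∧ u 2 + u 5 + u 8 ≤ 1}

/-- the volume -/
def VP : ℝ := ∫ u : Fin 9 → ℝ, Gd ![4, 4, 4, 4, 4, 4, 4, 4, 4] u * Reg.indicator (fun _ => 1) u

/-- `∏_i u_i^3/3! (1-u_i)^8/8!` over `u ≥ 0`, `Σ u_i ≤ 1` -/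
def Q1 : ℝ := ∫ u : Fin 3 → ℝ, Gd ![4, 4, 4] u * ∏ i, gd 9 (1 - u i) *
  (if u 0 + u 1 + u 2 ≤ 1 then 1 else 0)

/-- `∏_i u_i^3/3! v_i^3/3! (1-u_i-v_i)_+^4/4!` over `u, v ≥ 0`, `Σ u_i ≤ 1`, `Σ v_i ≤ 1` -/
def Q2 : ℝ := ∫ u : (Fin 3 → ℝ) × (Fin 3 → ℝ), Gd ![4, 4, 4] u.1 * Gd ![4, 4, 4] u.2 *
  ∏ i, gd 5 (1 - u.1 i - u.2 i) *
  (if u.1 0 + u.1 1 + u.1 2 ≤ 1 ∧ u.2 0 + u.2 1 + u.2 2 ≤ 1 then 1 else 0)

/-- `u (3 i + j) = x i j` -/
def ee (x : Fin 3 → Fin 3 → ℝ) : Fin 9 → ℝ :=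
  ![x 0 0, x 0 1, x 0 2, x 1 0, x 1 1, x 1 2, x 2 0, x 2 1, x 2 2]

theorem ee_meas : Measurable ee := by
  refine measurable_pi_lambda _ fun k => ?_
  fin_cases k <;> simp only [ee] <;> simp <;> fun_prop

theorem ee_map : Measure.map ee (volume : Measure (Fin 3 → Fin 3 → ℝ)) = volume := by
  rw [volume_pi (ι := Fin 9)]
  symm
  refine Measure.pi_eq fun s hs => ?_
  rw [Measure.map_apply ee_meas (MeasurableSet.univ_pi hs)]
  have e1 : ee ⁻¹' (Set.univ.pi s) = Set.univ.pi (fun i : Fin 3 => Set.univ.pi (fun j : Fin 3 =>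
      (![![s 0, s 1, s 2], ![s 3, s 4, s 5], ![s 6, s 7, s 8]] : Fin 3 → Fin 3 → Set ℝ) i j)) := by
    ext x
    simp only [Set.mem_preimage, Set.mem_univ_pi]
    constructor
    · intro h i j
      fin_cases i <;> fin_cases j
      · exact h 0
      · exact h 1
      · exact h 2
      · exact h 3
      · exact h 4
      · exact h 5
      · exact h 6
      · exact h 7
      · exact h 8
    · intro h k
      fin_cases k
      · exact h 0 0
      · exact h 0 1
      · exact h 0 2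
      · exact h 1 0
      · exact h 1 1
      · exact h 1 2
      · exact h 2 0
      · exact h 2 1
      · exact h 2 2
  rw [e1, volume_pi, Measure.pi_pi]
  simp only [volume_pi, Measure.pi_pi, Fin.prod_univ_three]
  have e9 : ∏ i : Fin 9, (volume : Measure ℝ) (s i) = volume (s 0) * volume (s 1) * volume (s 2) *
      volume (s 3) * volume (s 4) * volume (s 5) * volume (s 6) * volume (s 7) * volume (s 8) := by
    simp only [Fin.prod_univ_succ, Finset.univ_eq_empty, Finset.prod_empty, mul_one, mul_assoc]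
    rfl
  rw [e9]
  simp only [Matrix.cons_val_zero, Matrix.cons_val_one, Matrix.cons_val]
  ring

/-- indicator of a sum condition -/
def I3 (a b c : ℝ) : ℝ := if a + b + c ≤ 1 then 1 else 0

theorem I3_meas {Z : Type*} [MeasurableSpace Z] {f g h : Z → ℝ} (hf : Measurable f)
    (hg : Measurable g) (hh : Measurable h) : Measurable (fun z => I3 (f z) (g z) (h z)) := by
  unfold I3
  exact Measurable.ite (measurableSet_le ((hf.add hg).add hh) measurable_const) measurable_const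
    measurable_const

theorem I3_le (a b c : ℝ) : ‖I3 a b c‖ ≤ 1 := by
  unfold I3
  split_ifs <;> simp

theorem VP_rows : VP = ∫ x : Fin 3 → Fin 3 → ℝ, (∏ i, R (x i)) *
    (I3 (x 0 0) (x 1 0) (x 2 0) * I3 (x 0 1) (x 1 1) (x 2 1) * I3 (x 0 2) (x 1 2) (x 2 2)) := by
  unfold VP
  have hm : Measurable (fun u : Fin 9 → ℝ => Gd ![4, 4, 4, 4, 4, 4, 4, 4, 4] u *
      Reg.indicator (fun _ => 1) u) := by
    refine Measurable.mul ?_ ?_
    · unfold Gd
      exact Finset.measurable_prod _ fun i _ => (gd_meas _).comp (measurable_pi_apply i)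
    · refine measurable_const.indicator ?_
      have hs : ∀ i j k : Fin 9, MeasurableSet {u : Fin 9 → ℝ | u i + u j + u k ≤ 1} := by
        intro i j k
        exact measurableSet_le (by fun_prop) measurable_const
      exact (hs 0 1 2).inter ((hs 3 4 5).inter ((hs 6 7 8).inter ((hs 0 3 6).inter
        ((hs 1 4 7).inter (hs 2 5 8)))))
  conv_lhs => rw [← ee_map]
  rw [integral_map ee_meas.aemeasurable hm.aestronglyMeasurable]
  refine integral_congr_ae (Eventually.of_forall fun x => ?_)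
  dsimp only
  have hG : Gd ![4, 4, 4, 4, 4, 4, 4, 4, 4] (ee x) = Gd ![4, 4, 4] (x 0) * Gd ![4, 4, 4] (x 1) *
      Gd ![4, 4, 4] (x 2) := by
    rw [Gd3, Gd3, Gd3]
    unfold Gd
    simp only [Fin.prod_univ_succ, Finset.univ_eq_empty, Finset.prod_empty, mul_one, mul_assoc]
    rfl
  rw [hG, Fin.prod_univ_three]
  unfold R I3
  by_cases h : ee x ∈ Reg
  · rw [Set.indicator_of_mem h]
    obtain ⟨h1, h2, h3, h4, h5, h6⟩ := h
    have h1' : x 0 0 + x 0 1 + x 0 2 ≤ 1 := h1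
    have h2' : x 1 0 + x 1 1 + x 1 2 ≤ 1 := h2
    have h3' : x 2 0 + x 2 1 + x 2 2 ≤ 1 := h3
    have h4' : x 0 0 + x 1 0 + x 2 0 ≤ 1 := h4
    have h5' : x 0 1 + x 1 1 + x 2 1 ≤ 1 := h5
    have h6' : x 0 2 + x 1 2 + x 2 2 ≤ 1 := h6
    rw [if_pos h1', if_pos h2', if_pos h3', if_pos h4', if_pos h5', if_pos h6']
    ring
  · rw [Set.indicator_of_notMem h, mul_zero]
    have h' : ¬ (x 0 0 + x 0 1 + x 0 2 ≤ 1 ∧ x 1 0 + x 1 1 + x 1 2 ≤ 1 ∧
      x 2 0 + x 2 1 + x 2 2 ≤ 1 ∧ x 0 0 + x 1 0 + x 2 0 ≤ 1 ∧ x 0 1 + x 1 1 + x 2 1 ≤ 1 ∧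
      x 0 2 + x 1 2 + x 2 2 ≤ 1) := h
    by_cases c1 : x 0 0 + x 0 1 + x 0 2 ≤ 1
    swap
    · rw [if_neg c1]; ring
    by_cases c2 : x 1 0 + x 1 1 + x 1 2 ≤ 1
    swap
    · rw [if_neg c2]; ring
    by_cases c3 : x 2 0 + x 2 1 + x 2 2 ≤ 1
    swap
    · rw [if_neg c3]; ring
    by_cases c4 : x 0 0 + x 1 0 + x 2 0 ≤ 1
    swap
    · rw [if_neg c4]; ring
    by_cases c5 : x 0 1 + x 1 1 + x 2 1 ≤ 1
    swap
    · rw [if_neg c5]; ring
    by_cases c6 : x 0 2 + x 1 2 + x 2 2 ≤ 1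
    swap
    · rw [if_neg c6]; ring
    exact absurd ⟨c1, c2, c3, c4, c5, c6⟩ h'

/-- inclusion-exclusion -/
theorem incl_excl (x : Fin 3 → Fin 3 → ℝ) : (∏ i, R (x i)) *
    (I3 (x 0 0) (x 1 0) (x 2 0) * I3 (x 0 1) (x 1 1) (x 2 1) * I3 (x 0 2) (x 1 2) (x 2 2)) =
    (∏ i, R (x i)) - (∏ i, R (x i)) * I3 (x 0 0) (x 1 0) (x 2 0) -
      (∏ i, R (x i)) * I3 (x 0 1) (x 1 1) (x 2 1) - (∏ i, R (x i)) * I3 (x 0 2) (x 1 2) (x 2 2) +
      (∏ i, R (x i)) * (I3 (x 0 0) (x 1 0) (x 2 0) * I3 (x 0 1) (x 1 1) (x 2 1)) +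
      (∏ i, R (x i)) * (I3 (x 0 0) (x 1 0) (x 2 0) * I3 (x 0 2) (x 1 2) (x 2 2)) +
      (∏ i, R (x i)) * (I3 (x 0 1) (x 1 1) (x 2 1) * I3 (x 0 2) (x 1 2) (x 2 2)) := by
  rw [Fin.prod_univ_three]
  by_cases c1 : x 0 0 + x 0 1 + x 0 2 ≤ 1
  swap
  · have : R (x 0) = 0 := by unfold R; rw [if_neg c1, mul_zero]
    rw [this]; ring
  by_cases c2 : x 1 0 + x 1 1 + x 1 2 ≤ 1
  swap
  · have : R (x 1) = 0 := by unfold R; rw [if_neg c2, mul_zero]
    rw [this]; ring
  by_cases c3 : x 2 0 + x 2 1 + x 2 2 ≤ 1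
  swap
  · have : R (x 2) = 0 := by unfold R; rw [if_neg c3, mul_zero]
    rw [this]; ring
  unfold I3
  by_cases c4 : x 0 0 + x 1 0 + x 2 0 ≤ 1
  · rw [if_pos c4]; ring
  by_cases c5 : x 0 1 + x 1 1 + x 2 1 ≤ 1
  · rw [if_pos c5]; ring
  by_cases c6 : x 0 2 + x 1 2 + x 2 2 ≤ 1
  · rw [if_pos c6]; ring
  exfalso
  linarith

theorem PR_int : Integrable (fun x : Fin 3 → Fin 3 → ℝ => ∏ i, R (x i)) :=
  Integrable.fintype_prod (ι := Fin 3) (f := fun _ => R) (fun _ => R_int)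

theorem PR_I_int {w : (Fin 3 → Fin 3 → ℝ) → ℝ} (hw : Measurable w) (h1 : ∀ x, ‖w x‖ ≤ 1) :
    Integrable (fun x : Fin 3 → Fin 3 → ℝ => (∏ i, R (x i)) * w x) :=
  PR_int.mul_bdd hw.aestronglyMeasurable (Eventually.of_forall h1)

theorem PR_integral : ∫ x : Fin 3 → Fin 3 → ℝ, ∏ i, R (x i) =
    (1 / (Nat.factorial 12 : ℝ)) ^ 3 := by
  have h := integral_fintype_prod_volume_eq_pow (ι := Fin 3) R
  rw [R_integral] at h
  simpa using h

theorem one_col (j : Fin 3) : ∫ x : Fin 3 → Fin 3 → ℝ, (∏ i, R (x i)) *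
    I3 (x 0 j) (x 1 j) (x 2 j) = Q1 := by
  have h := transfer R_meas R_nonneg R_int g1_meas g1_nonneg g1_int (measurable_pi_apply j)
    (fun φ hφ => lint1 j φ hφ) (fun u => I3 (u 0) (u 1) (u 2))
    (I3_meas (measurable_pi_apply 0) (measurable_pi_apply 1) (measurable_pi_apply 2))
  rw [h]
  unfold Q1
  refine integral_congr_ae (Eventually.of_forall fun u => ?_)
  dsimp only
  rw [Gd3, Fin.prod_univ_three, Fin.prod_univ_three]
  unfold g1 I3
  split_ifs <;> ring

theorem two_col (k : Fin 3) : ∫ x : Fin 3 → Fin 3 → ℝ, (∏ i, R (x i)) *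
    (I3 (x 0 (k.succAbove 0)) (x 1 (k.succAbove 0)) (x 2 (k.succAbove 0)) *
      I3 (x 0 (k.succAbove 1)) (x 1 (k.succAbove 1)) (x 2 (k.succAbove 1))) = Q2 := by
  have hmp : Measurable (fun a : Fin 3 → ℝ => (a (k.succAbove 0), a (k.succAbove 1))) := by
    fun_prop
  have h := transfer R_meas R_nonneg R_int g2_meas g2_nonneg g2_int hmp
    (fun φ hφ => lint2 k φ hφ)
    (fun y => I3 (y 0).1 (y 1).1 (y 2).1 * I3 (y 0).2 (y 1).2 (y 2).2)
    ((I3_meas (by fun_prop) (by fun_prop) (by fun_prop)).mul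
      (I3_meas (by fun_prop) (by fun_prop) (by fun_prop)))
  rw [h]
  unfold Q2
  have hq := volume_measurePreserving_arrowProdEquivProdArrow ℝ ℝ (Fin 3)
  rw [← hq.integral_comp' (fun u : (Fin 3 → ℝ) × (Fin 3 → ℝ) => Gd ![4, 4, 4] u.1 *
    Gd ![4, 4, 4] u.2 * ∏ i, gd 5 (1 - u.1 i - u.2 i) *
    (if u.1 0 + u.1 1 + u.1 2 ≤ 1 ∧ u.2 0 + u.2 1 + u.2 2 ≤ 1 then 1 else 0))]
  refine integral_congr_ae (Eventually.of_forall fun y => ?_)
  dsimp only
  have e1 : ∀ i, ((MeasurableEquiv.arrowProdEquivProdArrow ℝ ℝ (Fin 3)) y).1 i = (y i).1 :=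
    fun _ => rfl
  have e2 : ∀ i, ((MeasurableEquiv.arrowProdEquivProdArrow ℝ ℝ (Fin 3)) y).2 i = (y i).2 :=
    fun _ => rfl
  simp only [Gd3, Fin.prod_univ_three, e1, e2]
  unfold g2 I3
  by_cases c1 : (y 0).1 + (y 1).1 + (y 2).1 ≤ 1
  · by_cases c2 : (y 0).2 + (y 1).2 + (y 2).2 ≤ 1
    · rw [if_pos c1, if_pos c2, if_pos ⟨c1, c2⟩]; ring
    · rw [if_pos c1, if_neg c2, if_neg (fun h => c2 h.2)]; ring
  · rw [if_neg c1, if_neg (fun h : (_ ∧ _) => c1 h.1)]; ring

/-- N3b -/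
theorem VP_eq : VP = (1 / (Nat.factorial 12 : ℝ)) ^ 3 - 3 * Q1 + 3 * Q2 := by
  rw [VP_rows]
  simp only [incl_excl]
  have m : ∀ j : Fin 3, Measurable (fun x : Fin 3 → Fin 3 → ℝ => I3 (x 0 j) (x 1 j) (x 2 j)) :=
    fun j => I3_meas (by fun_prop) (by fun_prop) (by fun_prop)
  have b : ∀ (j : Fin 3) (x : Fin 3 → Fin 3 → ℝ), ‖I3 (x 0 j) (x 1 j) (x 2 j)‖ ≤ 1 :=
    fun j x => I3_le _ _ _
  have i1 : ∀ j : Fin 3, Integrable (fun x : Fin 3 → Fin 3 → ℝ => (∏ i, R (x i)) *
      I3 (x 0 j) (x 1 j) (x 2 j)) := fun j => PR_I_int (m j) (b j)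
  have i2 : ∀ j k : Fin 3, Integrable (fun x : Fin 3 → Fin 3 → ℝ => (∏ i, R (x i)) *
      (I3 (x 0 j) (x 1 j) (x 2 j) * I3 (x 0 k) (x 1 k) (x 2 k))) := by
    intro j k
    refine PR_I_int ((m j).mul (m k)) fun x => ?_
    rw [norm_mul]
    exact mul_le_one₀ (b j x) (norm_nonneg _) (b k x)
  rw [integral_add, integral_add, integral_add, integral_sub, integral_sub, integral_sub,
    PR_integral, one_col 0, one_col 1, one_col 2]
  · have h01 := two_col 2
    have h02 := two_col 1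
    have h12 := two_col 0
    have s1 : ((2 : Fin 3).succAbove (0 : Fin 2)) = 0 := rfl
    have s2 : ((2 : Fin 3).succAbove (1 : Fin 2)) = 1 := rfl
    have s3 : ((1 : Fin 3).succAbove (0 : Fin 2)) = 0 := rfl
    have s4 : ((1 : Fin 3).succAbove (1 : Fin 2)) = 2 := rfl
    have s5 : ((0 : Fin 3).succAbove (0 : Fin 2)) = 1 := rfl
    have s6 : ((0 : Fin 3).succAbove (1 : Fin 2)) = 2 := rfl
    rw [s1, s2] at h01
    rw [s3, s4] at h02
    rw [s5, s6] at h12
    rw [h01, h02, h12]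
    ring
  · exact PR_int
  · exact i1 0
  · exact PR_int.sub (i1 0)
  · exact i1 1
  · exact (PR_int.sub (i1 0)).sub (i1 1)
  · exact i1 2
  · exact ((PR_int.sub (i1 0)).sub (i1 1)).sub (i1 2)
  · exact i2 0 1
  · exact (((PR_int.sub (i1 0)).sub (i1 1)).sub (i1 2)).add (i2 0 1)
  · exact i2 0 2
  · exact ((((PR_int.sub (i1 0)).sub (i1 1)).sub (i1 2)).add (i2 0 1)).add (i2 0 2)
  · exact i2 1 2

end

end Pool.Agent.H704R2.TMN3
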