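import Pool.Agent.H223.TM.Defs
import Pool.Agent.H85R2.EM_MS1

set_option autoImplicit false

/-!
Twelfth moment lower bound: mean square of the coefficients `cB` (task S2).
-/

namespace Pool.Agent.H704R2.TM

open Finset Filter Topology MeasureTheory Complex
open Pool.Agent.H306R2 Pool.Agent.H223.EM Pool.Agent.H223.TM
open Pool.Agent.H306R2.SM hiding FB
open Pool.Agent.H85R2.EM

noncomputable section

/-- S2. mean square of `cB`, from I3 (`vA_lim`) -/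
theorem sum_cB_sq_of (hvA : 0 < kp6 ∧ KH 2 vA ∧ ∀ s : Fin 2 → ℝ, (∀ i, 0 < s i) →
    Tendsto (fun L : ℝ => (∑' b : Fin 2 → ℕ, vA b * ∏ i, (b i : ℝ) ^ (-(s i / L))) / L ^ (20 : ℝ))
      atTop (𝓝 (aF 6 / kp6 ^ 2 * ∏ i, (s i) ^ (-((![16, 4] : Fin 2 → ℝ) i)))))
    (ε : ℝ) (hε : 0 < ε) (hε1 : ε < 1 / 16) :
    Tendsto (fun T : ℝ => (∑ b ∈ SS' ε T, cB ε T b ^ 2) / Real.log T ^ 36) atTop
      (𝓝 (aF 6 * JBn ε)) := by
  have haF : 0 < aF 6 := aF_pos (by norm_num)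
  have hkp : 0 < kp6 := hvA.1
  have hlim : ∀ s : Fin 2 → ℝ, (∀ i, 0 < s i) →
      Tendsto (fun L : ℝ => (∑' b : Fin 2 → ℕ, vA b * ∏ i, (b i : ℝ) ^ (-(s i / L))) /
        L ^ ((20 : ℕ) : ℝ)) atTop
        (𝓝 (aF 6 / kp6 ^ 2 * ∏ i, (s i) ^ (-((![16, 4] : Fin 2 → ℝ) i)))) := by
    intro s hs
    have := hvA.2.2 s hs
    simpa using this
  have h := gen (ε := ε) (by linarith) vA hvA.2.1 (fun b hb => by unfold vA; rw [if_neg hb]) 20
    (aF 6 / kp6 ^ 2) (by positivity) ![16, 4] (by intro i; fin_cases i <;> simp) hlim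
    (fun u => FB ε (u 0) (u 1) ^ 2)
    (by unfold FB et sc; fun_prop)
    (by
      rintro u - ⟨i, hi⟩
      have hz := et_zero hε hi
      fin_cases i
      · simp only [FB]; simp at hz; rw [hz]; ring
      · simp only [FB]; simp at hz; rw [hz]; ring)
  have h2 := h.const_mul (kp6 ^ 2)
  have hlimit : kp6 ^ 2 * (aF 6 / kp6 ^ 2 * ∫ u : Fin 2 → ℝ,
      Gd ![16, 4] u * FB ε (u 0) (u 1) ^ 2) = aF 6 * JBn ε := by
    unfold JBn
    field_simp
  rw [hlimit] at h2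
  refine h2.congr' ?_
  filter_upwards [eventually_gt_atTop 1] with T hT
  have hL : Real.log T ≠ 0 := (Real.log_pos hT).ne'
  have e : ∑ b ∈ SS' ε T, cB ε T b ^ 2 = Real.log T ^ 16 * kp6 ^ 2 * ∑ p ∈ SS' ε T,
      vA ![p.1, p.2] * FB ε (Real.log p.1 / Real.log T) (Real.log p.2 / Real.log T) ^ 2 := by
    rw [mul_sum]
    refine sum_congr rfl fun p hp => ?_
    have hc := mem_SS hp
    have hp1 : (0 : ℝ) < p.1 := by exact_mod_cast Nat.pos_of_ne_zero hc.2.1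
    have hp2 : (0 : ℝ) < p.2 := by exact_mod_cast Nat.pos_of_ne_zero hc.2.2
    have hw : vA ![p.1, p.2] = Eh p.1 ^ 2 * Fl p.2 ^ 2 / ((p.1 : ℝ) * p.2) := by
      unfold vA
      simp only [Matrix.cons_val_zero, Matrix.cons_val_one]
      rw [if_pos hc]
    rw [hw]
    unfold cB
    rw [div_pow, Real.sq_sqrt (by positivity)]
    ring
  rw [e]
  simp only [Matrix.cons_val_zero, Matrix.cons_val_one]
  field_simp

end

end Pool.Agent.H704R2.TM
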