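import Pool.Agent.H223.TM.Defs
import Pool.Agent.H329R2.EM_MS5

set_option autoImplicit false

/-!
Twelfth moment lower bound, task S5: the sixth moment of `P` (helper704; after helper329's MS5).
-/

namespace Pool.Agent.H704R2.TMS5

open Finset Filter Topology MeasureTheory Complex
open Pool.Agent.H306R2 Pool.Agent.H223.EM Pool.Agent.H223.TM
open Pool.Agent.H306R2.SM hiding FB
open Pool.Agent.H329R2.MS5 (d2_nonneg d2_le small_pow' log_sep)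

noncomputable section

/-! ### elementary facts -/

lemma eq4_nonneg (ε x : ℝ) : 0 ≤ eq4 ε x := sc_nonneg _ _ _

lemma eq4_le_one (ε x : ℝ) : eq4 ε x ≤ 1 := sc_le_one _ _ _

lemma eq4_cont (ε : ℝ) : Continuous (eq4 ε) := sc_cont _ _

lemma eq4_zero {ε x : ℝ} (hε : 0 < ε) (hx : 1 / 4 - ε ≤ x) : eq4 ε x = 0 := by
  unfold eq4
  exact sc_eq_zero hε (by linarith)

/-- the test function -/
def ph (ε : ℝ) (u : Fin 9 → ℝ) : ℝ :=
  eq4 ε (u 0 + u 1 + u 2) * eq4 ε (u 3 + u 4 + u 5) * eq4 ε (u 6 + u 7 + u 8) *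
    (eq4 ε (u 0 + u 3 + u 6) * eq4 ε (u 1 + u 4 + u 7) * eq4 ε (u 2 + u 5 + u 8))

lemma ph_cont (ε : ℝ) : Continuous (ph ε) := by
  unfold ph
  have h : ∀ i j k : Fin 9, Continuous fun u : Fin 9 → ℝ => eq4 ε (u i + u j + u k) :=
    fun i j k => (eq4_cont ε).comp (((continuous_apply i).add (continuous_apply j)).add
      (continuous_apply k))
  exact (((h 0 1 2).mul (h 3 4 5)).mul (h 6 7 8)).mul
    (((h 0 3 6).mul (h 1 4 7)).mul (h 2 5 8))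

lemma ph_nonneg (ε : ℝ) (u : Fin 9 → ℝ) : 0 ≤ ph ε u := by
  unfold ph
  have h := eq4_nonneg ε
  exact mul_nonneg (mul_nonneg (mul_nonneg (h _) (h _)) (h _))
    (mul_nonneg (mul_nonneg (h _) (h _)) (h _))

lemma ph_zero {ε : ℝ} (hε : 0 < ε) (u : Fin 9 → ℝ) (hu : ∀ i, 0 ≤ u i) (h : ∃ i, 1 / 2 ≤ u i) :
    ph ε u = 0 := by
  obtain ⟨i, hi⟩ := h
  have h0 := hu 0
  have h1 := hu 1
  have h2 := hu 2
  have h3 := hu 3
  have h4 := hu 4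
  have h5 := hu 5
  have h6 := hu 6
  have h7 := hu 7
  have h8 := hu 8
  unfold ph
  have r0 : 1 / 2 ≤ u 0 + u 1 + u 2 → eq4 ε (u 0 + u 1 + u 2) = 0 := fun h =>
    eq4_zero hε (by linarith)
  have r1 : 1 / 2 ≤ u 3 + u 4 + u 5 → eq4 ε (u 3 + u 4 + u 5) = 0 := fun h =>
    eq4_zero hε (by linarith)
  have r2 : 1 / 2 ≤ u 6 + u 7 + u 8 → eq4 ε (u 6 + u 7 + u 8) = 0 := fun h =>
    eq4_zero hε (by linarith)
  fin_cases i
  · have : 1 / 2 ≤ u 0 := hi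
    rw [r0 (by linarith)]; ring
  · have : 1 / 2 ≤ u 1 := hi
    rw [r0 (by linarith)]; ring
  · have : 1 / 2 ≤ u 2 := hi
    rw [r0 (by linarith)]; ring
  · have : 1 / 2 ≤ u 3 := hi
    rw [r1 (by linarith)]; ring
  · have : 1 / 2 ≤ u 4 := hi
    rw [r1 (by linarith)]; ring
  · have : 1 / 2 ≤ u 5 := hi
    rw [r1 (by linarith)]; ring
  · have : 1 / 2 ≤ u 6 := hi
    rw [r2 (by linarith)]; ring
  · have : 1 / 2 ≤ u 7 := hi
    rw [r2 (by linarith)]; ring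
  · have : 1 / 2 ≤ u 8 := hi
    rw [r2 (by linarith)]; ring

/-- coefficients of `P` with the square root -/
def gg (ε T : ℝ) (n : ℕ) : ℝ := ap ε T n / Real.sqrt n

lemma ap_nonneg (ε T : ℝ) (n : ℕ) : 0 ≤ ap ε T n := mul_nonneg (d2_nonneg n) (eq4_nonneg _ _)

lemma gg_nonneg (ε T : ℝ) (n : ℕ) : 0 ≤ gg ε T n := div_nonneg (ap_nonneg ε T n) (Real.sqrt_nonneg _)

lemma gg_le (ε T : ℝ) (n : ℕ) (hn : 1 ≤ n) : gg ε T n ≤ n := by
  unfold gg ap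
  have hn' : (1 : ℝ) ≤ n := by exact_mod_cast hn
  have h1 : 1 ≤ Real.sqrt n := Real.one_le_sqrt.mpr hn'
  rw [div_le_iff₀ (by linarith)]
  have h2 := d2_le n
  have h3 := eq4_le_one ε (Real.log n / Real.log T)
  have h4 := eq4_nonneg ε (Real.log n / Real.log T)
  calc d2 n * eq4 ε (Real.log n / Real.log T) ≤ n * 1 :=
        mul_le_mul h2 h3 h4 (by linarith)
    _ ≤ n * Real.sqrt n := mul_le_mul_of_nonneg_left h1 (by linarith)

/-- triples -/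
def Tr (N : ℕ) : Finset (ℕ × ℕ × ℕ) := (Icc 1 N) ×ˢ ((Icc 1 N) ×ˢ (Icc 1 N))

/-- the product -/
def pr (p : ℕ × ℕ × ℕ) : ℕ := p.1 * p.2.1 * p.2.2

lemma mem_Tr {N : ℕ} {p : ℕ × ℕ × ℕ} : p ∈ Tr N ↔ (1 ≤ p.1 ∧ p.1 ≤ N) ∧
    (1 ≤ p.2.1 ∧ p.2.1 ≤ N) ∧ (1 ≤ p.2.2 ∧ p.2.2 ≤ N) := by
  unfold Tr
  simp only [mem_product, mem_Icc]

lemma cube_sum {α : Type*} [CommSemiring α] (N : ℕ) (f : ℕ → α) :
    (∑ n ∈ Icc 1 N, f n) ^ 3 = ∑ p ∈ Tr N, f p.1 * (f p.2.1 * f p.2.2) := by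
  unfold Tr
  rw [sum_product]
  simp_rw [← mul_sum]
  rw [← sum_mul, sum_product]
  simp_rw [← mul_sum]
  rw [← sum_mul]
  ring

/-- triples with product `m` -/
def Fm (N m : ℕ) : Finset (ℕ × ℕ × ℕ) := (Tr N).filter fun p => pr p = m

/-- coefficients of `P³` -/
def yy (ε T : ℝ) (N m : ℕ) : ℝ := ∑ p ∈ Fm N m, gg ε T p.1 * (gg ε T p.2.1 * gg ε T p.2.2)

lemma yy_nonneg (ε T : ℝ) (N m : ℕ) : 0 ≤ yy ε T N m :=
  sum_nonneg fun p _ => mul_nonneg (gg_nonneg ε T _) (mul_nonneg (gg_nonneg ε T _)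
    (gg_nonneg ε T _))

lemma maps (N : ℕ) : ∀ p ∈ Tr N, pr p ∈ Icc 1 (N * N * N) := by
  intro p hp
  rw [mem_Tr] at hp
  rw [mem_Icc]
  unfold pr
  exact ⟨Nat.mul_pos (Nat.mul_pos hp.1.1 hp.2.1.1) hp.2.2.1,
    Nat.mul_le_mul (Nat.mul_le_mul hp.1.2 hp.2.1.2) hp.2.2.2⟩

lemma cube_eq (ε T t : ℝ) : Pp ε T t ^ 3 =
    ∑ m ∈ Icc 1 (N4 ε T * N4 ε T * N4 ε T), ((yy ε T (N4 ε T) m : ℝ) : ℂ) *
      ef (-(Real.log m)) t := by
  unfold Pp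
  rw [cube_sum, ← sum_fiberwise_of_maps_to (maps (N4 ε T))]
  refine sum_congr rfl fun m _ => ?_
  unfold yy Fm
  push_cast
  rw [sum_mul]
  refine sum_congr rfl fun p hp => ?_
  rw [mem_filter, mem_Tr] at hp
  obtain ⟨⟨⟨h1, -⟩, ⟨h2, -⟩, h2', -⟩, h3⟩ := hp
  have e1 : ef (-(Real.log m)) t = ef (-(Real.log p.1)) t * (ef (-(Real.log p.2.1)) t *
      ef (-(Real.log p.2.2)) t) := by
    unfold ef
    rw [← Complex.exp_add, ← Complex.exp_add]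
    congr 1
    rw [← h3]
    unfold pr
    push_cast
    have hp1 : (p.1 : ℝ) ≠ 0 := by positivity
    have hp2 : (p.2.1 : ℝ) ≠ 0 := by positivity
    have hp3 : (p.2.2 : ℝ) ≠ 0 := by positivity
    rw [Real.log_mul (mul_ne_zero hp1 hp2) hp3, Real.log_mul hp1 hp2]
    push_cast
    ring
  rw [e1]
  unfold gg
  push_cast
  ring

lemma sum_yy (ε T : ℝ) (N : ℕ) : ∑ m ∈ Icc 1 (N * N * N), yy ε T N m =
    (∑ n ∈ Icc 1 N, gg ε T n) ^ 3 := by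
  rw [cube_sum, ← sum_fiberwise_of_maps_to (maps N)]
  rfl

lemma sum_yy_le (ε T : ℝ) (N : ℕ) : ∑ m ∈ Icc 1 (N * N * N), yy ε T N m ≤ (N : ℝ) ^ 6 := by
  rw [sum_yy]
  have h1 : ∑ n ∈ Icc 1 N, gg ε T n ≤ (N : ℝ) ^ 2 := by
    calc ∑ n ∈ Icc 1 N, gg ε T n ≤ ∑ n ∈ Icc 1 N, (N : ℝ) := by
          refine sum_le_sum fun n hn => ?_
          rw [mem_Icc] at hn
          exact (gg_le ε T n hn.1).trans (by exact_mod_cast hn.2)
      _ = (N : ℝ) ^ 2 := by rw [sum_const, Nat.card_Icc, nsmul_eq_mul]; push_cast; ring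
  have h0 : 0 ≤ ∑ n ∈ Icc 1 N, gg ε T n := sum_nonneg fun n _ => gg_nonneg ε T n
  calc (∑ n ∈ Icc 1 N, gg ε T n) ^ 3 ≤ ((N : ℝ) ^ 2) ^ 3 := pow_le_pow_left₀ h0 h1 3
    _ = _ := by ring

/-! ### parametrisation of `n0 n1 n2 = m0 m1 m2` -/

lemma step {n m : ℕ} (hn : 0 < n) (hm : 0 < m) : ∃ g a b : ℕ, n = g * a ∧ m = g * b ∧
    Nat.Coprime a b ∧ 0 < g ∧ 0 < a ∧ 0 < b := by
  obtain ⟨a, b, hc, h1, h2⟩ := Nat.exists_coprime n m
  have hg : 0 < Nat.gcd n m := Nat.gcd_pos_of_pos_left _ hn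
  refine ⟨Nat.gcd n m, a, b, by rw [mul_comm]; exact h1, by rw [mul_comm]; exact h2, hc, hg,
    ?_, ?_⟩
  · rcases Nat.eq_zero_or_pos a with h | h
    · rw [h, zero_mul] at h1; omega
    · exact h
  · rcases Nat.eq_zero_or_pos b with h | h
    · rw [h, zero_mul] at h2; omega
    · exact h

/-- specification of the parametrisation -/
def Spec (x : (ℕ × ℕ × ℕ) × (ℕ × ℕ × ℕ)) (b : Fin 9 → ℕ) : Prop :=
  x.1.1 = b 0 * b 1 * b 2 ∧ x.1.2.1 = b 3 * b 4 * b 5 ∧ x.1.2.2 = b 6 * b 7 * b 8 ∧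
  x.2.1 = b 0 * b 3 * b 6 ∧ x.2.2.1 = b 1 * b 4 * b 7 ∧ x.2.2.2 = b 2 * b 5 * b 8 ∧
  (Nat.Coprime (b 1 * b 2) (b 3 * b 6) ∧ Nat.Coprime (b 2) (b 4 * b 7) ∧
      Nat.Coprime (b 4 * b 5) (b 6) ∧ Nat.Coprime (b 5) (b 7) ∧ ∀ i, b i ≠ 0)

lemma param (n0 n1 n2 m0 m1 m2 : ℕ) (hn0 : 0 < n0) (hn1 : 0 < n1) (hn2 : 0 < n2) (hm0 : 0 < m0)
    (hm1 : 0 < m1) (hm2 : 0 < m2) (h : n0 * n1 * n2 = m0 * m1 * m2) :
    ∃ b, Spec ((n0, n1, n2), (m0, m1, m2)) b := by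
  obtain ⟨x00, a, b, e1, e2, c1, p00, pa, pb⟩ := step hn0 hm0
  obtain ⟨x01, x02, b1, e3, e4, c2, p01, p02, pb1⟩ := step pa hm1
  -- `x02 ∣ m2`
  have h1 : x02 * (n1 * n2) = b * b1 * m2 := by
    have : x00 * x01 * (x02 * (n1 * n2)) = x00 * x01 * (b * b1 * m2) := by
      calc x00 * x01 * (x02 * (n1 * n2)) = (x00 * (x01 * x02)) * n1 * n2 := by ring
        _ = m0 * m1 * m2 := by rw [← e3, ← e1]; exact h
        _ = _ := by rw [e2, e4]; ring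
    exact Nat.eq_of_mul_eq_mul_left (Nat.mul_pos p00 p01) this
  have c02b : Nat.Coprime x02 b := Nat.Coprime.coprime_dvd_left (Dvd.intro_left x01 e3.symm) c1
  have h2 : x02 ∣ m2 := by
    have : x02 ∣ b * b1 * m2 := ⟨_, h1.symm⟩
    exact (Nat.Coprime.mul_right c02b c2).dvd_of_dvd_mul_left this
  obtain ⟨c, hc⟩ := h2
  have pc : 0 < c := by
    rcases Nat.eq_zero_or_pos c with h | h
    · rw [h, mul_zero] at hc; omega
    · exact h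
  have h3 : n1 * n2 = b * b1 * c := by
    have : x02 * (n1 * n2) = x02 * (b * b1 * c) := by rw [h1, hc]; ring
    exact Nat.eq_of_mul_eq_mul_left p02 this
  obtain ⟨x10, a', x20, e5, e6, c3, p10, pa', p20⟩ := step hn1 pb
  obtain ⟨x11, x12, x21, e7, e8, c4, p11, p12, p21⟩ := step pa' pb1
  have h4 : x12 * n2 = x20 * x21 * c := by
    have : x10 * x11 * (x12 * n2) = x10 * x11 * (x20 * x21 * c) := by
      calc x10 * x11 * (x12 * n2) = (x10 * (x11 * x12)) * n2 := by ring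
        _ = b * b1 * c := by rw [← e7, ← e5]; exact h3
        _ = _ := by rw [e6, e8]; ring
    exact Nat.eq_of_mul_eq_mul_left (Nat.mul_pos p10 p11) this
  have c12 : Nat.Coprime x12 x20 := Nat.Coprime.coprime_dvd_left (Dvd.intro_left x11 e7.symm) c3
  have h5 : x12 ∣ c := by
    have : x12 ∣ x20 * x21 * c := ⟨_, h4.symm⟩
    exact (Nat.Coprime.mul_right c12 c4).dvd_of_dvd_mul_left this
  obtain ⟨x22, hx22⟩ := h5
  have p22 : 0 < x22 := by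
    rcases Nat.eq_zero_or_pos x22 with h | h
    · rw [h, mul_zero] at hx22; omega
    · exact h
  have h6 : n2 = x20 * x21 * x22 := by
    have : x12 * n2 = x12 * (x20 * x21 * x22) := by rw [h4, hx22]; ring
    exact Nat.eq_of_mul_eq_mul_left p12 this
  refine ⟨![x00, x01, x02, x10, x11, x12, x20, x21, x22], ?_, ?_, ?_, ?_, ?_, ?_, ?_, ?_, ?_, ?_,
    ?_⟩
  · show n0 = x00 * x01 * x02
    rw [e1, e3]; ring
  · show n1 = x10 * x11 * x12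
    rw [e5, e7]; ring
  · exact h6
  · show m0 = x00 * x10 * x20
    rw [e2, e6]; ring
  · show m1 = x01 * x11 * x21
    rw [e4, e8]; ring
  · show m2 = x02 * x12 * x22
    rw [hc, hx22]; ring
  · show Nat.Coprime (x01 * x02) (x10 * x20)
    rw [← e3, ← e6]; exact c1
  · show Nat.Coprime x02 (x11 * x21)
    rw [← e8]; exact c2
  · show Nat.Coprime (x11 * x12) x20
    rw [← e7]; exact c3
  · exact c4
  · intro i
    fin_cases i
    · exact p00.ne'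
    · exact p01.ne'
    · exact p02.ne'
    · exact p10.ne'
    · exact p11.ne'
    · exact p12.ne'
    · exact p20.ne'
    · exact p21.ne'
    · exact p22.ne'

open Classical in
/-- the parametrisation -/
def iq (x : (ℕ × ℕ × ℕ) × (ℕ × ℕ × ℕ)) : Fin 9 → ℕ :=
  if h : ∃ b, Spec x b then h.choose else fun _ => 0

/-- pairs of triples -/
def QQ (N : ℕ) : Finset ((ℕ × ℕ × ℕ) × (ℕ × ℕ × ℕ)) :=
  (Tr N ×ˢ Tr N).filter fun x => pr x.1 = pr x.2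

lemma iq_spec {N : ℕ} {x : (ℕ × ℕ × ℕ) × (ℕ × ℕ × ℕ)} (hx : x ∈ QQ N) : Spec x (iq x) := by
  have h : ∃ b, Spec x b := by
    obtain ⟨⟨n0, n1, n2⟩, ⟨m0, m1, m2⟩⟩ := x
    unfold QQ at hx
    rw [mem_filter, mem_product, mem_Tr, mem_Tr] at hx
    obtain ⟨⟨⟨⟨a1, -⟩, ⟨a2, -⟩, a3, -⟩, ⟨b1, -⟩, ⟨b2, -⟩, b3, -⟩, h⟩ := hx
    exact param n0 n1 n2 m0 m1 m2 a1 a2 a3 b1 b2 b3 h
  unfold iq
  rw [dif_pos h]
  exact h.choose_spec

lemma iq_inj (N : ℕ) : Set.InjOn iq (QQ N : Set ((ℕ × ℕ × ℕ) × (ℕ × ℕ × ℕ))) := by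
  intro x hx y hy h
  obtain ⟨a1, a2, a3, a4, a5, a6, -⟩ := iq_spec (Finset.mem_coe.mp hx)
  obtain ⟨b1, b2, b3, b4, b5, b6, -⟩ := iq_spec (Finset.mem_coe.mp hy)
  refine Prod.ext (Prod.ext ?_ (Prod.ext ?_ ?_)) (Prod.ext ?_ (Prod.ext ?_ ?_))
  · rw [a1, b1, h]
  · rw [a2, b2, h]
  · rw [a3, b3, h]
  · rw [a4, b4, h]
  · rw [a5, b5, h]
  · rw [a6, b6, h]

lemma sum_sq_yy (ε T : ℝ) (N : ℕ) : ∑ m ∈ Icc 1 (N * N * N), yy ε T N m ^ 2 =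
    ∑ x ∈ QQ N, (gg ε T x.1.1 * (gg ε T x.1.2.1 * gg ε T x.1.2.2)) *
      (gg ε T x.2.1 * (gg ε T x.2.2.1 * gg ε T x.2.2.2)) := by
  have h1 : ∀ m, yy ε T N m ^ 2 = ∑ x ∈ (Tr N ×ˢ Tr N).filter
      (fun x => pr x.1 = m ∧ pr x.2 = m),
      (gg ε T x.1.1 * (gg ε T x.1.2.1 * gg ε T x.1.2.2)) *
      (gg ε T x.2.1 * (gg ε T x.2.2.1 * gg ε T x.2.2.2)) := by
    intro m
    unfold yy Fm
    rw [sq, sum_mul_sum, ← sum_product']
    refine sum_congr ?_ fun x _ => rfl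
    ext x
    simp only [mem_product, mem_filter]
    tauto
  simp_rw [h1]
  have h2 : ∀ x ∈ QQ N, pr x.1 ∈ Icc 1 (N * N * N) := by
    intro x hx
    unfold QQ at hx
    rw [mem_filter, mem_product] at hx
    exact maps N _ hx.1.1
  rw [← sum_fiberwise_of_maps_to h2]
  refine sum_congr rfl fun m _ => ?_
  refine sum_congr ?_ fun x _ => rfl
  ext x
  unfold QQ
  simp only [mem_product, mem_filter]
  constructor
  · rintro ⟨h3, h4, h5⟩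
    exact ⟨⟨h3, h4.trans h5.symm⟩, h4⟩
  · rintro ⟨⟨h3, h4⟩, h5⟩
    exact ⟨h3, h5, h4.symm.trans h5⟩

lemma prod9 (b : Fin 9 → ℝ) : ∏ i, b i = b 0 * b 1 * b 2 * b 3 * b 4 * b 5 * b 6 * b 7 * b 8 := by
  simp only [Fin.prod_univ_succ, Finset.univ_eq_empty, Finset.prod_empty, mul_one, mul_assoc]
  rfl

lemma alg (a1 a2 a3 a4 a5 a6 e1 e2 e3 e4 e5 e6 s1 s2 s3 s4 s5 s6 : ℝ) :
    (a1 * e1 / s1 * (a2 * e2 / s2 * (a3 * e3 / s3))) *
      (a4 * e4 / s4 * (a5 * e5 / s5 * (a6 * e6 / s6))) =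
    a1 * a2 * a3 * (a4 * a5 * a6) / (s1 * (s2 * s3) * (s4 * (s5 * s6))) *
      (e1 * e2 * e3 * (e4 * e5 * e6)) := by
  simp only [div_eq_mul_inv, mul_inv]
  ring

lemma term_eq (ε T : ℝ) {N : ℕ} {x : (ℕ × ℕ × ℕ) × (ℕ × ℕ × ℕ)} (hx : x ∈ QQ N) :
    (gg ε T x.1.1 * (gg ε T x.1.2.1 * gg ε T x.1.2.2)) *
      (gg ε T x.2.1 * (gg ε T x.2.2.1 * gg ε T x.2.2.2)) =
      wP (iq x) * ph ε (pos (Real.log T) (iq x)) := by
  obtain ⟨a1, a2, a3, a4, a5, a6, hc⟩ := iq_spec hx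
  have h0 := hc.2.2.2.2
  rw [a1, a2, a3, a4, a5, a6]
  generalize iq x = b at *
  have p : ∀ i, (0 : ℝ) < b i := fun i => by exact_mod_cast Nat.pos_of_ne_zero (h0 i)
  have l : ∀ i j k : Fin 9, Real.log ((b i * b j * b k : ℕ) : ℝ) / Real.log T =
      pos (Real.log T) b i + pos (Real.log T) b j + pos (Real.log T) b k := by
    intro i j k
    push_cast
    rw [Real.log_mul (mul_ne_zero (p i).ne' (p j).ne') (p k).ne',
      Real.log_mul (p i).ne' (p j).ne', add_div, add_div]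
    rfl
  unfold gg ap wP ph
  rw [if_pos hc, l 0 1 2, l 3 4 5, l 6 7 8, l 0 3 6, l 1 4 7, l 2 5 8, prod9]
  have p0 := p 0
  have p1 := p 1
  have p2 := p 2
  have p3 := p 3
  have p4 := p 4
  have p5 := p 5
  have p6 := p 6
  have p7 := p 7
  have p8 := p 8
  have s : (Real.sqrt ((b 0 * b 1 * b 2 : ℕ) : ℝ) * (Real.sqrt ((b 3 * b 4 * b 5 : ℕ) : ℝ) *
      Real.sqrt ((b 6 * b 7 * b 8 : ℕ) : ℝ))) *
      (Real.sqrt ((b 0 * b 3 * b 6 : ℕ) : ℝ) * (Real.sqrt ((b 1 * b 4 * b 7 : ℕ) : ℝ) *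
      Real.sqrt ((b 2 * b 5 * b 8 : ℕ) : ℝ))) =
      (b 0 : ℝ) * b 1 * b 2 * b 3 * b 4 * b 5 * b 6 * b 7 * b 8 := by
    push_cast
    rw [← Real.sqrt_mul (by positivity), ← Real.sqrt_mul (by positivity),
      ← Real.sqrt_mul (by positivity), ← Real.sqrt_mul (by positivity),
      ← Real.sqrt_mul (by positivity)]
    rw [show (b 0 : ℝ) * b 1 * b 2 * (b 3 * b 4 * b 5 * (b 6 * b 7 * b 8)) *
        (b 0 * b 3 * b 6 * (b 1 * b 4 * b 7 * (b 2 * b 5 * b 8))) =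
      ((b 0 : ℝ) * b 1 * b 2 * b 3 * b 4 * b 5 * b 6 * b 7 * b 8) ^ 2 by ring]
    exact Real.sqrt_sq (by positivity)
  rw [← s]
  exact alg _ _ _ _ _ _ _ _ _ _ _ _ _ _ _ _ _ _

lemma sum_sq_le (H : KH 9 wP) {ε T : ℝ} (hε : 0 < ε) (hT : 1 < T) (N : ℕ) :
    ∑ m ∈ Icc 1 (N * N * N), yy ε T N m ^ 2 ≤ ∑' b, wP b * ph ε (pos (Real.log T) b) := by
  have hL : 0 < Real.log T := Real.log_pos hT
  have hs := tf_summable H (ph ε) (ph_cont ε) (1 / 2) (fun u hu h => ph_zero hε u hu h)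
    (by norm_num) hL
  rw [sum_sq_yy, sum_congr rfl fun x hx => term_eq ε T hx]
  rw [← sum_image (g := iq) (f := fun b => wP b * ph ε (pos (Real.log T) b)) (iq_inj N)]
  exact hs.sum_le_tsum _ fun b _ => mul_nonneg (H.hw b) (ph_nonneg ε _)

/-- S5. sixth moment of `P` (from I5) -/
theorem P_sixth_of (hwP : KH 9 wP ∧ ∀ s : Fin 9 → ℝ, (∀ i, 0 < s i) →
    Tendsto (fun L : ℝ => (∑' b : Fin 9 → ℕ, wP b * ∏ i, (b i : ℝ) ^ (-(s i / L))) / L ^ (36 : ℝ))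
      atTop (𝓝 (aF 6 * ∏ i, (s i) ^ (-((![4, 4, 4, 4, 4, 4, 4, 4, 4] : Fin 9 → ℝ) i)))))
    (ε : ℝ) (hε : 0 < ε) (hε1 : ε < 1 / 16) (c : ℝ) (hc : aF 6 * JP ε < c) :
    ∀ᶠ T : ℝ in atTop, ∀ k : ℕ, kr' T k →
      ∫ t in Set.Ioi (0 : ℝ), om k (k / T) t * ‖Pp ε T t‖ ^ 6 ≤ c * Real.log T ^ 36 := by
  obtain ⟨H, hlim⟩ := hwP
  have haF : 0 < aF 6 := aF_pos (by norm_num)
  have hk := karamata H 36 (aF 6) haF.le ![4, 4, 4, 4, 4, 4, 4, 4, 4]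
    (by intro i; fin_cases i <;> simp) hlim
    (ph ε) (ph_cont ε) (1 / 2) (fun u hu h => ph_zero hε u hu h) (by norm_num)
  have hIN : (∫ u : Fin 9 → ℝ, Gd ![4, 4, 4, 4, 4, 4, 4, 4, 4] u * ph ε u) = JP ε := rfl
  rw [hIN] at hk
  have hmid : aF 6 * JP ε < (aF 6 * JP ε + c) / 2 := by linarith
  have h1 := (hk.comp Real.tendsto_log_atTop).eventually (eventually_lt_nhds hmid)
  have h2 : ∀ᶠ T : ℝ in atTop, 2 / (c - aF 6 * JP ε) ≤ Real.log T ^ 36 :=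
    (tendsto_pow_atTop (by norm_num)).comp Real.tendsto_log_atTop |>.eventually_ge_atTop _
  filter_upwards [h1, h2, small_pow' ε hε, eventually_gt_atTop (Real.exp 1)] with T h1 h2 h3 hT k hkr
  have hT1 : 1 < T := lt_trans (by
    have := Real.add_one_lt_exp (show (1 : ℝ) ≠ 0 by norm_num)
    linarith) hT
  have hT0 : 0 < T := by linarith
  have hL : 1 < Real.log T := by
    rw [Real.lt_log_iff_exp_lt hT0]; exact hT
  have hk1 : (1 : ℝ) < k := by nlinarith [hkr.1]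
  have hδ : 0 < (k : ℝ) / T := by positivity
  set N := N4 ε T with hN
  have hNT : (N : ℝ) ≤ T ^ (1 / 4 - ε) := by
    rw [hN]; unfold N4; exact Nat.floor_le (by positivity)
  have hNN : ((N * N * N : ℕ) : ℝ) ≤ T ^ (1 - ε) := by
    push_cast
    calc (N : ℝ) * N * N ≤ T ^ (1 / 4 - ε) * T ^ (1 / 4 - ε) * T ^ (1 / 4 - ε) := by gcongr
      _ = T ^ ((1 / 4 - ε) + (1 / 4 - ε) + (1 / 4 - ε)) := by
          rw [Real.rpow_add hT0, Real.rpow_add hT0]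
      _ ≤ T ^ (1 - ε) := Real.rpow_le_rpow_of_exponent_le hT1.le (by linarith)
  have hG : 0 < 1 / (2 * T ^ (1 - ε)) := by positivity
  have hnd := Pool.Agent.H768R2.SM_T2.norm_diag (Icc 1 (N * N * N))
    (fun m => ((yy ε T N m : ℝ) : ℂ)) (fun m => Real.log m) (1 / (2 * T ^ (1 - ε))) hG (by
      intro i hi j hj hij
      rw [mem_Icc] at hi hj
      exact log_sep hi.1 hj.1 hij (le_trans (by exact_mod_cast hi.2) hNN)
        (le_trans (by exact_mod_cast hj.2) hNN)) k (k / T) hδ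
  have e1 : (∫ t in Set.Ioi (0 : ℝ), om k (k / T) t * ‖Pp ε T t‖ ^ 6) =
      ∫ t in Set.Ioi (0 : ℝ), om k (k / T) t *
        ‖∑ i ∈ Icc 1 (N * N * N), ((yy ε T N i : ℝ) : ℂ) * ef (-(Real.log i)) t‖ ^ 2 := by
    refine integral_congr_ae (Eventually.of_forall fun t => ?_)
    simp only
    rw [← cube_eq, norm_pow, ← pow_mul]
  rw [e1]
  have h4 := (abs_le.mp hnd).2
  have e2 : ∑ i ∈ Icc 1 (N * N * N), ‖((yy ε T N i : ℝ) : ℂ)‖ ^ 2 =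
      ∑ m ∈ Icc 1 (N * N * N), yy ε T N m ^ 2 := by
    refine sum_congr rfl fun m _ => ?_
    rw [Complex.norm_real, Real.norm_eq_abs, sq_abs]
  have e3 : ∑ i ∈ Icc 1 (N * N * N), ‖((yy ε T N i : ℝ) : ℂ)‖ =
      ∑ m ∈ Icc 1 (N * N * N), yy ε T N m := by
    refine sum_congr rfl fun m _ => ?_
    rw [Complex.norm_real, Real.norm_of_nonneg (yy_nonneg ε T N m)]
  rw [e2, e3] at h4
  have h5 : (∑ m ∈ Icc 1 (N * N * N), yy ε T N m) ^ 2 ≤ T ^ (4 : ℝ) := by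
    have h6 := sum_yy_le ε T N
    have h7 : 0 ≤ ∑ m ∈ Icc 1 (N * N * N), yy ε T N m :=
      sum_nonneg fun m _ => yy_nonneg ε T N m
    have h8 : (N : ℝ) ^ 6 ≤ T ^ (2 : ℝ) := by
      calc (N : ℝ) ^ 6 ≤ (T ^ (1 / 4 - ε)) ^ 6 := pow_le_pow_left₀ (by positivity) hNT 6
        _ = T ^ ((1 / 4 - ε) * (6 : ℕ)) := by rw [Real.rpow_mul hT0.le, Real.rpow_natCast]
        _ ≤ T ^ (2 : ℝ) := Real.rpow_le_rpow_of_exponent_le hT1.le (by push_cast; linarith)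
    calc (∑ m ∈ Icc 1 (N * N * N), yy ε T N m) ^ 2 ≤ (T ^ (2 : ℝ)) ^ 2 :=
          pow_le_pow_left₀ h7 (h6.trans h8) 2
      _ = T ^ (4 : ℝ) := by
          rw [← Real.rpow_natCast, ← Real.rpow_mul hT0.le]; norm_num
  have h9 : (∑ m ∈ Icc 1 (N * N * N), yy ε T N m) ^ 2 *
      ((k / T) / (1 / (2 * T ^ (1 - ε)))) ^ (k + 1) ≤ 1 := by
    calc _ ≤ T ^ (4 : ℝ) * T ^ (-5 : ℝ) :=
          mul_le_mul h5 (h3 k hkr) (by positivity) (by positivity)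
      _ = T ^ (-1 : ℝ) := by rw [← Real.rpow_add hT0]; norm_num
      _ ≤ 1 := Real.rpow_le_one_of_one_le_of_nonpos hT1.le (by norm_num)
  have h10 := sum_sq_le H hε hT1 N
  simp only [Function.comp] at h1
  have hL36 : (0 : ℝ) < Real.log T ^ (36 : ℝ) := by positivity
  rw [div_lt_iff₀ hL36] at h1
  have e36 : Real.log T ^ (36 : ℝ) = Real.log T ^ 36 := by
    rw [show (36 : ℝ) = ((36 : ℕ) : ℝ) by norm_num, Real.rpow_natCast]
  rw [e36] at h1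
  have hcd : 0 < c - aF 6 * JP ε := by linarith
  rw [div_le_iff₀ hcd] at h2
  linarith

end

end Pool.Agent.H704R2.TMS5
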