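import Pool.Agent.H704R2.Kam
import Pool.Agent.Helper649.Herman

/-!
The action of an invariant loop of `(x, y) ↦ (a y, x + y ^ 2)` vanishes when `0 < |a| < 1`.
-/

set_option autoImplicit false

namespace Pool.Agent.H704R2.Action

open MeasureTheory intervalIntegral Set Filter Topology

/-- the map `(x, y) ↦ (a y, x + y ^ 2)` -/
def F (a : ℂ) (p : ℂ × ℂ) : ℂ × ℂ := (a * p.2, p.1 + p.2 ^ 2)

/-- a closed curve of class `C¹` -/
structure Loop (γ : ℝ → ℂ × ℂ) : Prop where
  cd : ContDiff ℝ 1 γ
  per : Function.Periodic γ 1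

/-- the action `∮ x dy` -/
noncomputable def act (γ : ℝ → ℂ × ℂ) : ℂ := ∫ t in (0 : ℝ)..1, (γ t).1 * deriv (fun s => (γ s).2) t

lemma Loop.fst {γ : ℝ → ℂ × ℂ} (h : Loop γ) : ContDiff ℝ 1 (fun t => (γ t).1) :=
  contDiff_fst.comp h.cd

lemma Loop.snd {γ : ℝ → ℂ × ℂ} (h : Loop γ) : ContDiff ℝ 1 (fun t => (γ t).2) :=
  contDiff_snd.comp h.cd

lemma Loop.F (a : ℂ) {γ : ℝ → ℂ × ℂ} (h : Loop γ) : Loop (fun t => F a (γ t)) := by
  refine ⟨?_, ?_⟩
  · have h1 := h.fst
    have h2 := h.snd
    exact ContDiff.prodMk (contDiff_const.mul h2) (h1.add (h2.pow 2))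
  · intro t
    simp only [h.per t]

lemma Loop.shift {γ : ℝ → ℂ × ℂ} (h : Loop γ) (θ : ℝ) : Loop (fun t => γ (t + θ)) := by
  refine ⟨?_, ?_⟩
  · exact h.cd.comp (contDiff_id.add contDiff_const)
  · intro t
    have : t + 1 + θ = (t + θ) + 1 := by ring
    simp only [this, h.per (t + θ)]

lemma act_F (a : ℂ) {γ : ℝ → ℂ × ℂ} (h : Loop γ) : act (fun t => F a (γ t)) = -a * act γ := by
  have hx := h.fst
  have hy := h.snd
  obtain ⟨x, hxd⟩ : ∃ x : ℝ → ℂ, x = fun t => (γ t).1 := ⟨_, rfl⟩
  obtain ⟨y, hyd⟩ : ∃ y : ℝ → ℂ, y = fun t => (γ t).2 := ⟨_, rfl⟩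
  rw [← hxd] at hx
  rw [← hyd] at hy
  have hx' : ∀ t, HasDerivAt x (deriv x t) t := fun t =>
    (hx.differentiable (by norm_num) t).hasDerivAt
  have hy' : ∀ t, HasDerivAt y (deriv y t) t := fun t =>
    (hy.differentiable (by norm_num) t).hasDerivAt
  have hxc : Continuous (deriv x) := hx.continuous_deriv (by norm_num)
  have hyc : Continuous (deriv y) := hy.continuous_deriv (by norm_num)
  have hper0 : γ 1 = γ 0 := by
    have := h.per 0
    rwa [zero_add] at this
  have hx10 : x 1 = x 0 := by rw [hxd]; simp only [hper0]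
  have hy10 : y 1 = y 0 := by rw [hyd]; simp only [hper0]
  -- the primitive
  have hG : ∀ t, HasDerivAt (fun t => a * (x t * y t) + 2 / 3 * a * y t ^ 3)
      (a * y t * (deriv x t + 2 * y t * deriv y t) + a * (x t * deriv y t)) t := by
    intro t
    have h1 := (((hx' t).mul (hy' t)).const_mul a).add (((hy' t).pow 3).const_mul (2 / 3 * a))
    refine h1.congr_deriv ?_
    push_cast
    ring
  have hd : ∀ t, deriv (fun s => (F a (γ s)).2) t = deriv x t + 2 * y t * deriv y t := by
    intro t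
    have h1 : HasDerivAt (fun s => x s + y s ^ 2) (deriv x t + 2 * y t * deriv y t) t := by
      refine ((hx' t).add ((hy' t).pow 2)).congr_deriv ?_
      push_cast
      ring
    have e : (fun s => (F a (γ s)).2) = fun s => x s + y s ^ 2 := by
      funext s
      rw [hxd, hyd]
      rfl
    rw [e]
    exact h1.deriv
  have hcont1 : Continuous (fun t => a * y t * (deriv x t + 2 * y t * deriv y t)) := by
    have := hy.continuous
    fun_prop
  have hcont2 : Continuous (fun t => a * (x t * deriv y t)) := by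
    have := hx.continuous
    fun_prop
  have hint := integral_eq_sub_of_hasDerivAt (a := (0 : ℝ)) (b := 1) (fun t _ => hG t)
    ((hcont1.add hcont2).intervalIntegrable _ _)
  rw [hx10, hy10, sub_self] at hint
  rw [integral_add (hcont1.intervalIntegrable _ _) (hcont2.intervalIntegrable _ _)] at hint
  have e1 : act (fun t => F a (γ t)) =
      ∫ t in (0 : ℝ)..1, a * y t * (deriv x t + 2 * y t * deriv y t) := by
    unfold act
    apply integral_congr
    intro t _
    simp only [hd t]
    rw [hyd]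
    rfl
  have e2 : act γ = ∫ t in (0 : ℝ)..1, x t * deriv y t := by
    unfold act
    rw [hxd, hyd]
  rw [intervalIntegral.integral_const_mul, ← e1, ← e2] at hint
  linear_combination hint

lemma Loop.iterate (a : ℂ) {γ : ℝ → ℂ × ℂ} (h : Loop γ) (m : ℕ) :
    Loop (fun t => (Action.F a)^[m] (γ t)) := by
  induction m with
  | zero => simpa using h
  | succ m ih =>
    simp only [Function.iterate_succ_apply']
    exact ih.F a

lemma act_iterate (a : ℂ) {γ : ℝ → ℂ × ℂ} (h : Loop γ) (m : ℕ) :
    act (fun t => (F a)^[m] (γ t)) = (-a) ^ m * act γ := by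
  induction m with
  | zero => simp
  | succ m ih =>
    simp only [Function.iterate_succ_apply']
    rw [act_F a (h.iterate a m), ih, pow_succ]
    ring

lemma act_shift {γ : ℝ → ℂ × ℂ} (h : Loop γ) (θ : ℝ) : act (fun t => γ (t + θ)) = act γ := by
  have hy := h.snd
  have hper : Function.Periodic (fun t => (γ t).1 * deriv (fun s => (γ s).2) t) 1 := by
    intro t
    have h1 : deriv (fun s => (γ s).2) (t + 1) = deriv (fun s => (γ s).2) t := by
      have e : (fun s => (γ s).2) = fun s => (γ (s + 1)).2 := by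
        funext s; rw [h.per s]
      have h2 : deriv (fun s => (γ (s + 1)).2) t = deriv (fun s => (γ s).2) (t + 1) :=
        deriv_comp_add_const (fun s => (γ s).2) 1 t
      rw [← h2, ← e]
    simp only [h.per t, h1]
  have e1 : act (fun t => γ (t + θ)) =
      ∫ t in (0 : ℝ)..1, (γ (t + θ)).1 * deriv (fun s => (γ s).2) (t + θ) := by
    unfold act
    apply integral_congr
    intro t _
    simp only
    rw [deriv_comp_add_const (fun s => (γ s).2) θ t]
  rw [e1, intervalIntegral.integral_comp_add_right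
    (fun t => (γ t).1 * deriv (fun s => (γ s).2) t) θ]
  have := hper.intervalIntegral_add_eq θ 0
  rw [zero_add] at this
  rw [zero_add, add_comm 1 θ, this]
  rfl

/-- **Vanishing of the action.** -/
theorem act_eq_zero {a : ℂ} (ha : ‖a‖ < 1) {γ : ℝ → ℂ × ℂ} (h : Loop γ) {m : ℕ} (hm : m ≠ 0)
    (θ : ℝ) (hinv : ∀ t, (F a)^[m] (γ t) = γ (t + θ)) : act γ = 0 := by
  have h1 := act_iterate a h m
  have e : (fun t => (F a)^[m] (γ t)) = fun t => γ (t + θ) := by
    funext t; exact hinv t
  rw [e, act_shift h θ] at h1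
  have h2 : (1 - (-a) ^ m) * act γ = 0 := by linear_combination h1
  rcases mul_eq_zero.mp h2 with h3 | h3
  · exfalso
    have h4 : ‖(-a) ^ m‖ < 1 := by
      rw [norm_pow, norm_neg]
      exact pow_lt_one₀ (norm_nonneg _) ha hm
    have h5 : (-a) ^ m = 1 := by linear_combination -h3
    rw [h5, norm_one] at h4
    exact lt_irrefl _ h4
  · exact h3

/-- The restriction of a periodic holomorphic map to the real line. -/
lemma loop_of_strip {h : ℝ} (hh : 0 < h) {φ : ℂ → ℂ × ℂ}
    (hd : DifferentiableOn ℂ φ {z : ℂ | |z.im| < h})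
    (hp : ∀ z : ℂ, |z.im| < h → φ (z + 1) = φ z) : Loop (fun t : ℝ => φ t) := by
  have ho : IsOpen {z : ℂ | |z.im| < h} :=
    isOpen_lt (continuous_abs.comp Complex.continuous_im) continuous_const
  refine ⟨?_, ?_⟩
  · have h1 : ContDiffOn ℂ 1 φ {z : ℂ | |z.im| < h} := hd.contDiffOn ho
    have h2 : ContDiffOn ℝ 1 φ {z : ℂ | |z.im| < h} := h1.restrict_scalars ℝ
    rw [contDiff_iff_contDiffAt]
    intro t
    have h3 : ContDiffAt ℝ 1 φ (t : ℂ) := h2.contDiffAt (ho.mem_nhds (by simpa using hh))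
    exact h3.comp t Complex.ofRealCLM.contDiff.contDiffAt
  · intro t
    have := hp (t : ℂ) (by simpa using hh)
    simp only
    push_cast
    exact this

end Pool.Agent.H704R2.Action
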