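import Pool.Agent.H704R2.Action

/-!
For every Diophantine `θ` (exponent two) the quadratic map `(x, y) ↦ (y, x + y ^ 2)` has a Herman
ring with rotation number `θ` and nonzero action.
-/

set_option autoImplicit false

namespace Pool.Agent.H704R2.Action

open MeasureTheory intervalIntegral Set Filter Topology Pool.Agent.Helper649

lemma B_continuous {r M : ℝ} {f : ℝ → ℂ} (hr : 1 ≤ r) (hf : B r M f) : Continuous f := by
  obtain ⟨a, h1, -, h3⟩ := hf
  have e : f = fun t => ∑' k : ℤ, a k * ch k t := by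
    funext t; exact (h3 t).tsum_eq.symm
  rw [e]
  refine continuous_tsum (fun k => ?_) (summable_of_norm_weight hr h1) (fun k t => ?_)
  · unfold ch
    fun_prop
  · rw [norm_mul, norm_ch, mul_one]

/-- Rings of small Diophantine rotation number with nonzero action. -/
theorem small_ring_action : ∀ G : ℝ, 0 ≤ G → ∃ θ0 : ℝ, 0 < θ0 ∧ ∀ θ : ℝ, 0 < θ → θ < θ0 →
    (∀ k : ℤ, k ≠ 0 → 1 ≤ (G / θ) * k ^ 2 * ‖ch k θ - 1‖) →
    ∃ h : ℝ, 0 < h ∧ ∃ φ : ℂ → ℂ × ℂ, DifferentiableOn ℂ φ {z : ℂ | |z.im| < h} ∧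
      (∀ z, φ (z + 1) = φ z) ∧ (∃ z z' : ℂ, |z.im| < h ∧ |z'.im| < h ∧ φ z ≠ φ z') ∧
      (∀ z : ℂ, |z.im| < h → H2^[2] (φ z) = φ (z + θ)) ∧
      act (fun t : ℝ => φ t) ≠ 0 := by
  obtain ⟨w, hw, hper, hw0⟩ := exists_w0
  obtain ⟨R, M, hR, hB⟩ := periodic_B w hw hper
  have hR0 : 0 < R := by linarith
  -- the first integral
  have hcube : ∀ t, w (-t) ^ 3 + w t ^ 3 = 2 * w 0 ^ 3 := by
    have hd : ∀ t, HasDerivAt (fun t => w (-t) ^ 3 + w t ^ 3) 0 t := by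
      intro t
      have h1 : HasDerivAt (fun t => w (-t)) (-(w t ^ 2)) t := by
        have := (hw (-t)).scomp t (hasDerivAt_neg t)
        refine this.congr_deriv ?_
        simp
      refine ((h1.pow 3).add ((hw t).pow 3)).congr_deriv ?_
      push_cast
      ring
    intro t
    have hdiff : Differentiable ℝ (fun t => w (-t) ^ 3 + w t ^ 3) :=
      fun t => (hd t).differentiableAt
    have := is_const_of_deriv_eq_zero hdiff (fun t => (hd t).deriv) t 0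
    simp only [neg_zero] at this
    rw [this]
    ring
  -- the determinant is constant
  have hdet : ∀ t, det w (fun t => w (-t) ^ 2) t = -2 * w 0 ^ 3 := by
    intro t
    unfold det
    simp only [neg_neg]
    linear_combination -hcube t
  have hwc : Continuous w := continuous_iff_continuousAt.mpr fun t => (hw t).continuousAt
  have hint3 : ∫ t in (0 : ℝ)..1, w t ^ 3 = w 0 ^ 3 := by
    have e1 : ∫ t in (0 : ℝ)..1, (w (-t) ^ 3 + w t ^ 3) = 2 * w 0 ^ 3 := by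
      rw [integral_congr (g := fun _ => 2 * w 0 ^ 3) (fun t _ => hcube t)]
      simp
    have e2 : ∫ t in (0 : ℝ)..1, w (-t) ^ 3 = ∫ t in (0 : ℝ)..1, w t ^ 3 := by
      rw [intervalIntegral.integral_comp_neg (fun t => w t ^ 3)]
      have hp3 : Function.Periodic (fun t => w t ^ 3) 1 := by
        intro t; simp only [hper t]
      have := hp3.intervalIntegral_add_eq (-1) 0
      rw [neg_add_cancel, zero_add] at this
      rw [neg_zero]
      exact this
    have c1 : Continuous (fun t : ℝ => w (-t) ^ 3) := (hwc.comp continuous_neg).pow 3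
    have c2 : Continuous (fun t : ℝ => w t ^ 3) := hwc.pow 3
    rw [intervalIntegral.integral_add (c1.intervalIntegrable _ _) (c2.intervalIntegrable _ _), e2]
      at e1
    linear_combination e1 / 2
  have hd0 : (-2 * w 0 ^ 3 : ℂ) ≠ 0 := mul_ne_zero (by norm_num) (pow_ne_zero 3 hw0)
  have hn0 : 0 < ‖w 0‖ := norm_pos_iff.mpr hw0
  obtain ⟨r1, hr1, hr1R, hkam⟩ := Pool.Agent.H704R2.Kam.kam_main' hR hB hw (fun t => rfl) hd0 hdet
  -- choice of the constants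
  obtain ⟨s, hs⟩ : ∃ s : ℝ, s = (1 + 1 / r1) / 2 := ⟨_, rfl⟩
  have hr10 : 0 < r1 := by linarith
  have hx1 : 1 / r1 < 1 := by rw [div_lt_one hr10]; exact hr1
  have hx0 : 0 < 1 / r1 := by positivity
  have hs0 : 0 < s := by rw [hs]; linarith
  have hs1 : s < 1 := by rw [hs]; linarith
  have hrs : 1 ≤ r1 * s := by
    rw [hs]
    have : r1 * ((1 + 1 / r1) / 2) = (r1 + 1) / 2 := by field_simp
    rw [this]; linarith
  obtain ⟨C, hC⟩ : ∃ C : ℝ, C = 2 * Real.pi / (1 - s) := ⟨_, rfl⟩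
  have h1s : 0 < 1 - s := by linarith
  have hC0 : 0 < C := by rw [hC]; have := Real.pi_pos; positivity
  have hM0 : 0 ≤ M := hB.nonneg hR0.le
  obtain ⟨K, hK⟩ : ∃ K : ℝ, K = M ^ 2 + (M + 1) * C + 1 := ⟨_, rfl⟩
  have hK0 : 0 < K := by rw [hK]; positivity
  obtain ⟨η, hη⟩ : ∃ η : ℝ, η = min (min 1 (‖w 0‖ / 2)) (‖w 0‖ ^ 3 / (2 * K)) := ⟨_, rfl⟩
  have hη0 : 0 < η := by rw [hη]; positivity
  have hη1 : η ≤ 1 := by rw [hη]; exact (min_le_left _ _).trans (min_le_left _ _)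
  have hη2 : η ≤ ‖w 0‖ / 2 := by rw [hη]; exact (min_le_left _ _).trans (min_le_right _ _)
  have hη3 : η * (2 * K) ≤ ‖w 0‖ ^ 3 := by
    have : η ≤ ‖w 0‖ ^ 3 / (2 * K) := by rw [hη]; exact min_le_right _ _
    rwa [le_div_iff₀ (by positivity)] at this
  intro G hG
  obtain ⟨θ0, hθ0, hsol⟩ := hkam G η hG hη0
  refine ⟨θ0, hθ0, fun θ hθ hθlt hdiv => ?_⟩
  obtain ⟨w1, hw1, heq⟩ := hsol θ hθ hθlt hdiv
  have hw1B : B r1 (η + M) w1 := by
    have h1 := hw1.add hr10.le (hB.mono hr10.le hr1R le_rfl)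
    have e : (fun t => w1 t - w t + w t) = w1 := by funext t; ring
    rwa [e] at h1
  have hcl : ∀ t, ‖w1 t - w t‖ ≤ η := fun t => hw1.norm_le hr1.le t
  have hne : w1 0 ≠ 0 := by
    intro h0
    have := hcl 0
    rw [h0, zero_sub, norm_neg] at this
    linarith
  obtain ⟨h, hh, φ, p1, p2, p3, p4, p5⟩ := ring_of_solution hr1 hw1B hθ.ne' heq hne
  refine ⟨h, hh, φ, p1, p2, p3, p4, ?_⟩
  -- the derivative of the difference
  obtain ⟨δ', hδ1, hδ2⟩ := hw1.deriv hs0 hs1 hrs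
  have hδle : ∀ t, ‖δ' t‖ ≤ C * η := by
    intro t
    have := hδ2.norm_le hrs t
    rwa [← hC] at this
  have hw1d : ∀ t, HasDerivAt w1 (δ' t + w (-t) ^ 2) t := by
    intro t
    have h1 := (hδ1 t).add (hw t)
    have e : (fun t => w1 t - w t) + w = w1 := by funext t; simp
    rw [e] at h1
    exact h1
  have hwM : ∀ t, ‖w t‖ ≤ M := fun t => hB.norm_le hR.le t
  have hw1M : ∀ t, ‖w1 t‖ ≤ M + 1 := by
    intro t
    have h1 := hw1B.norm_le hr1.le t
    linarith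
  have hw1c : Continuous w1 := continuous_iff_continuousAt.mpr fun t => (hw1d t).continuousAt
  have hδc : Continuous δ' := B_continuous hrs hδ2
  have hd2 : ∀ t : ℝ, deriv (fun s : ℝ => (φ s).2) t = θ * (δ' (-t) + w t ^ 2) := by
    intro t
    have e : (fun s : ℝ => (φ s).2) = fun s : ℝ => -(θ * w1 (-s)) := by
      funext s; rw [p5 s]
    rw [e]
    have h1 : HasDerivAt (fun s : ℝ => w1 (-s)) (-(δ' (-t) + w (- -t) ^ 2)) t := by
      have := (hw1d (-t)).scomp t (hasDerivAt_neg t)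
      refine this.congr_deriv ?_
      rw [neg_one_smul]
    have h2 := (h1.const_mul (θ : ℂ)).neg
    refine h2.deriv.trans ?_
    rw [neg_neg]
    ring
  have hact : act (fun t : ℝ => φ t) =
      ∫ t in (0 : ℝ)..1, (θ : ℂ) ^ 2 * (w t ^ 3 + ((w1 t - w t) * w t ^ 2 + w1 t * δ' (-t))) := by
    unfold act
    apply integral_congr
    intro t _
    simp only [hd2 t]
    rw [p5 t]
    ring
  have c3 : Continuous (fun t : ℝ => w t ^ 3) := hwc.pow 3
  have c4 : Continuous (fun t : ℝ => (w1 t - w t) * w t ^ 2 + w1 t * δ' (-t)) := by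
    have := hδc.comp continuous_neg
    fun_prop
  rw [intervalIntegral.integral_const_mul, intervalIntegral.integral_add
    (c3.intervalIntegrable _ _) (c4.intervalIntegrable _ _), hint3] at hact
  have herr : ‖∫ t in (0 : ℝ)..1, ((w1 t - w t) * w t ^ 2 + w1 t * δ' (-t))‖ ≤
      (η * M ^ 2 + (M + 1) * (C * η)) * |1 - 0| := by
    apply intervalIntegral.norm_integral_le_of_norm_le_const
    intro t _
    calc ‖(w1 t - w t) * w t ^ 2 + w1 t * δ' (-t)‖
        ≤ ‖(w1 t - w t) * w t ^ 2‖ + ‖w1 t * δ' (-t)‖ := norm_add_le _ _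
      _ = ‖w1 t - w t‖ * ‖w t‖ ^ 2 + ‖w1 t‖ * ‖δ' (-t)‖ := by
          rw [norm_mul, norm_mul, norm_pow]
      _ ≤ η * M ^ 2 + (M + 1) * (C * η) := by
          gcongr
          · exact hcl t
          · exact hwM t
          · exact hw1M t
          · exact hδle (-t)
  intro h0
  rw [h0] at hact
  have hθc : (θ : ℂ) ^ 2 ≠ 0 := pow_ne_zero 2 (by exact_mod_cast hθ.ne')
  have h1 := (mul_eq_zero.mp hact.symm).resolve_left hθc
  have h2 : ‖w 0‖ ^ 3 ≤ (η * M ^ 2 + (M + 1) * (C * η)) * |1 - 0| := by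
    refine le_trans ?_ herr
    have : w 0 ^ 3 = -∫ t in (0 : ℝ)..1, ((w1 t - w t) * w t ^ 2 + w1 t * δ' (-t)) := by
      linear_combination h1
    rw [← norm_pow, this, norm_neg]
  have h3 : (η * M ^ 2 + (M + 1) * (C * η)) * |1 - 0| = η * (K - 1) := by
    rw [hK]; norm_num; ring
  rw [h3] at h2
  nlinarith


lemma H2_iterate_two_mul {h : ℝ} {φ : ℂ → ℂ × ℂ} {θ : ℝ}
    (h4 : ∀ z : ℂ, |z.im| < h → H2^[2] (φ z) = φ (z + θ)) (k : ℕ) :
    ∀ z : ℂ, |z.im| < h → H2^[2 * k] (φ z) = φ (z + (k * θ : ℝ)) := by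
  induction k with
  | zero => intro z _; simp
  | succ k ih =>
    intro z hz
    have e : 2 * (k + 1) = 2 + 2 * k := by ring
    rw [e, Function.iterate_add_apply, ih z hz, h4 _ (by simpa using hz)]
    congr 1
    push_cast
    ring

/-- **Rings for all Diophantine numbers of exponent two, with nonzero action.** -/
theorem ring_action (θ : ℝ) {c : ℝ} (hc : 0 < c)
    (hθ : ∀ q : ℤ, q ≠ 0 → ∀ p : ℤ, c / (q : ℝ) ^ 2 ≤ |q * θ - p|) :
    ∃ h : ℝ, 0 < h ∧ ∃ (φ : ℂ → ℂ × ℂ) (n : ℕ), 2 ≤ n ∧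
      DifferentiableOn ℂ φ {z : ℂ | |z.im| < h} ∧
      (∀ z, φ (z + 1) = φ z) ∧ (∃ z z' : ℂ, |z.im| < h ∧ |z'.im| < h ∧ φ z ≠ φ z') ∧
      (∀ z : ℂ, |z.im| < h → H2^[n] (φ z) = φ (z + θ)) ∧
      act (fun t : ℝ => φ t) ≠ 0 := by
  obtain ⟨θ1, hθ1⟩ : ∃ θ1 : ℝ, θ1 = Int.fract θ := ⟨_, rfl⟩
  have hθ1' : ∀ q : ℤ, q ≠ 0 → ∀ p : ℤ, c / (q : ℝ) ^ 2 ≤ |q * θ1 - p| := by
    intro q hq p
    have := hθ q hq (q * ⌊θ⌋ + p)
    have e : (q : ℝ) * θ1 - p = q * θ - ((q * ⌊θ⌋ + p : ℤ) : ℝ) := by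
      rw [hθ1, Int.fract]; push_cast; ring
    rw [e]; exact this
  have hpos : 0 < θ1 := by
    have h1 := hθ1' 1 one_ne_zero 0
    have h2 : 0 ≤ θ1 := by rw [hθ1]; exact Int.fract_nonneg _
    rcases h2.eq_or_lt with h3 | h3
    · rw [← h3] at h1
      simp at h1
      linarith
    · exact h3
  obtain ⟨G, hG⟩ : ∃ G : ℝ, G = θ1 / (4 * c) := ⟨_, rfl⟩
  have hG0 : 0 ≤ G := by rw [hG]; positivity
  obtain ⟨θ0, hθ0, hsmall⟩ := small_ring_action G hG0
  obtain ⟨k, hk⟩ := exists_nat_gt (θ1 / θ0)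
  have hk0 : (0 : ℝ) < k := lt_trans (by positivity) hk
  have hk0' : 0 < k := by exact_mod_cast hk0
  have hlt : θ1 / k < θ0 := by
    rw [div_lt_iff₀ hθ0] at hk
    rw [div_lt_iff₀ hk0]; linarith
  have hdiv : ∀ m : ℤ, m ≠ 0 → 1 ≤ (G / (θ1 / k)) * m ^ 2 * ‖ch m (θ1 / k) - 1‖ := by
    intro m hm
    have h1 := norm_ch_sub_one_lb m (θ1 / k)
    obtain ⟨l, hl⟩ : ∃ l : ℤ, l = round ((m : ℝ) * (θ1 / k)) := ⟨_, rfl⟩
    rw [← hl] at h1
    have h2 := hθ1' m hm (k * l)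
    have h3 : |(m : ℝ) * (θ1 / k) - l| = |m * θ1 - ((k * l : ℤ) : ℝ)| / k := by
      rw [← abs_of_pos hk0, ← abs_div, abs_of_pos hk0]
      congr 1
      push_cast
      field_simp
    have hm2 : (0 : ℝ) < (m : ℝ) ^ 2 := by positivity
    have h4 : c / (m : ℝ) ^ 2 / k ≤ |(m : ℝ) * (θ1 / k) - l| := by
      rw [h3]; gcongr
    have h5 : 4 * (c / (m : ℝ) ^ 2 / k) ≤ ‖ch m (θ1 / k) - 1‖ := by linarith
    calc (1 : ℝ) = (G / (θ1 / k)) * m ^ 2 * (4 * (c / (m : ℝ) ^ 2 / k)) := by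
          rw [hG]; field_simp
      _ ≤ _ := by
          have : 0 ≤ (G / (θ1 / k)) * m ^ 2 := by positivity
          gcongr
  obtain ⟨h, hh, φ, p1, p2, p3, p4, p5⟩ := hsmall (θ1 / k) (by positivity) hlt hdiv
  refine ⟨h, hh, φ, 2 * k, by omega, p1, p2, p3, ?_, p5⟩
  intro z hz
  rw [H2_iterate_two_mul p4 k z hz]
  have e1 : ((k : ℝ) * (θ1 / k) : ℝ) = θ1 := by field_simp
  rw [e1]
  have hper : Function.Periodic φ 1 := p2
  have h1 := hper.int_mul ⌊θ⌋ (z + θ1)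
  rw [← h1]
  congr 1
  rw [hθ1]
  have : ((Int.fract θ : ℝ) : ℂ) = (θ : ℂ) - ⌊θ⌋ := by
    rw [Int.fract]; push_cast; ring
  rw [this]
  ring

/-- **Isolation.** A ring of `H2` with nonzero action is isolated from the rings of the dissipative
maps. -/
theorem isolated {h : ℝ} {φ : ℂ → ℂ × ℂ}
    (hd : DifferentiableOn ℂ φ {z : ℂ | |z.im| < h})
    (hp : ∀ z : ℂ, |z.im| < h → φ (z + 1) = φ z)
    (hact : act (fun t : ℝ => φ t) ≠ 0) {δ : ℝ} (hδ : 0 < δ) (hδh : δ ≤ h) :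
    ∃ ε : ℝ, 0 < ε ∧ ∀ a : ℂ, ‖a‖ < 1 → ∀ (θ : ℝ) (ψ : ℂ → ℂ × ℂ) (m : ℕ), m ≠ 0 →
      DifferentiableOn ℂ ψ {z : ℂ | |z.im| < δ} → (∀ z : ℂ, |z.im| < δ → ψ (z + 1) = ψ z) →
      (∀ z : ℂ, |z.im| < δ → (F a)^[m] (ψ z) = ψ (z + θ)) →
      ∃ z : ℂ, |z.im| < δ ∧ ε ≤ ‖ψ z - φ z‖ := by
  have hh : 0 < h := by linarith
  have hloop := loop_of_strip hh hd hp
  have hx := hloop.fst
  have hy := hloop.snd
  have hyc : Continuous (deriv (fun s : ℝ => (φ s).2)) := hy.continuous_deriv (by norm_num)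
  obtain ⟨M, hM⟩ := isCompact_Icc.exists_bound_of_continuousOn
    (hx.continuous.continuousOn (s := Icc (0 : ℝ) 1))
  obtain ⟨N, hN⟩ := isCompact_Icc.exists_bound_of_continuousOn
    (hyc.continuousOn (s := Icc (0 : ℝ) 1))
  have hM0 : 0 ≤ M := (norm_nonneg _).trans (hM 0 ⟨le_rfl, zero_le_one⟩)
  have hN0 : 0 ≤ N := (norm_nonneg _).trans (hN 0 ⟨le_rfl, zero_le_one⟩)
  have hA : 0 < ‖act (fun t : ℝ => φ t)‖ := norm_pos_iff.mpr hact
  obtain ⟨K, hK⟩ : ∃ K : ℝ, K = N + (M + 1) * (2 / δ) + 1 := ⟨_, rfl⟩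
  have hK0 : 0 < K := by rw [hK]; positivity
  obtain ⟨ε, hε⟩ : ∃ ε : ℝ, ε = min 1 (‖act (fun t : ℝ => φ t)‖ / K) := ⟨_, rfl⟩
  have hε0 : 0 < ε := by rw [hε]; positivity
  have hε1 : ε ≤ 1 := by rw [hε]; exact min_le_left _ _
  have hε2 : ε * K ≤ ‖act (fun t : ℝ => φ t)‖ := by
    have : ε ≤ ‖act (fun t : ℝ => φ t)‖ / K := by rw [hε]; exact min_le_right _ _
    rwa [le_div_iff₀ hK0] at this
  refine ⟨ε, hε0, fun a ha θ ψ m hm hψd hψp hψi => ?_⟩
  by_contra hcon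
  push Not at hcon
  have hloop' := loop_of_strip hδ hψd hψp
  have hzero := act_eq_zero ha hloop' hm θ (fun t => by
    have := hψi (t : ℂ) (by simpa using hδ)
    rw [this]
    push_cast
    rfl)
  -- difference
  have hsub : {z : ℂ | |z.im| < δ} ⊆ {z : ℂ | |z.im| < h} := fun z hz => lt_of_lt_of_le hz hδh
  have hopen : IsOpen {z : ℂ | |z.im| < δ} :=
    isOpen_lt (continuous_abs.comp Complex.continuous_im) continuous_const
  have hgd : DifferentiableOn ℂ (fun z => (ψ z).2 - (φ z).2) {z : ℂ | |z.im| < δ} :=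
    hψd.snd.sub (hd.mono hsub).snd
  have hder : ∀ t : ℝ, ‖deriv (fun s : ℝ => (ψ s).2) t - deriv (fun s : ℝ => (φ s).2) t‖
      ≤ ε * (2 / δ) := by
    intro t
    have hball : Metric.closedBall (t : ℂ) (δ / 2) ⊆ {z : ℂ | |z.im| < δ} := by
      intro z hz
      rw [Metric.mem_closedBall, dist_eq_norm] at hz
      have h1 : |(z - t).im| ≤ ‖z - t‖ := Complex.abs_im_le_norm _
      have h2 : (z - t).im = z.im := by simp
      rw [h2] at h1
      show |z.im| < δ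
      linarith
    have hdc : DiffContOnCl ℂ (fun z => (ψ z).2 - (φ z).2) (Metric.ball (t : ℂ) (δ / 2)) := by
      refine DifferentiableOn.diffContOnCl ?_
      exact hgd.mono (Metric.closure_ball_subset_closedBall.trans hball)
    have h1 := Complex.norm_deriv_le_of_forall_mem_sphere_norm_le (c := (t : ℂ)) (R := δ / 2)
      (C := ε) (by linarith) hdc (fun z hz => by
        have h2 := hcon z (hball (Metric.sphere_subset_closedBall hz))
        exact ((norm_snd_le (ψ z - φ z)).trans h2.le))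
    have hat : DifferentiableAt ℂ (fun z => (ψ z).2) (t : ℂ) :=
      (hψd.snd).differentiableAt (hopen.mem_nhds (by simpa using hδ))
    have hat2 : DifferentiableAt ℂ (fun z => (φ z).2) (t : ℂ) :=
      ((hd.mono hsub).snd).differentiableAt (hopen.mem_nhds (by simpa using hδ))
    have e1 : deriv (fun s : ℝ => (ψ s).2) t = deriv (fun z : ℂ => (ψ z).2) (t : ℂ) :=
      (hat.hasDerivAt.comp_ofReal).deriv
    have e2 : deriv (fun s : ℝ => (φ s).2) t = deriv (fun z : ℂ => (φ z).2) (t : ℂ) :=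
      (hat2.hasDerivAt.comp_ofReal).deriv
    rw [e1, e2, ← deriv_fun_sub hat hat2]
    refine h1.trans (le_of_eq ?_)
    field_simp
  have hval : ∀ t : ℝ, ‖(ψ t).1 - (φ t).1‖ ≤ ε := by
    intro t
    have h2 := hcon (t : ℂ) (by simpa using hδ)
    exact (norm_fst_le (ψ t - φ t)).trans h2.le
  have hyc' : Continuous (deriv (fun s : ℝ => (ψ s).2)) :=
    hloop'.snd.continuous_deriv (by norm_num)
  have hdiff : act (fun t : ℝ => ψ t) - act (fun t : ℝ => φ t) =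
      ∫ t in (0 : ℝ)..1, ((ψ t).1 * deriv (fun s : ℝ => (ψ s).2) t
        - (φ t).1 * deriv (fun s : ℝ => (φ s).2) t) := by
    unfold act
    rw [intervalIntegral.integral_sub]
    · exact (hloop'.fst.continuous.mul hyc').intervalIntegrable _ _
    · exact (hx.continuous.mul hyc).intervalIntegrable _ _
  have herr : ‖∫ t in (0 : ℝ)..1, ((ψ t).1 * deriv (fun s : ℝ => (ψ s).2) t
        - (φ t).1 * deriv (fun s : ℝ => (φ s).2) t)‖ ≤
      ((M + 1) * (ε * (2 / δ)) + ε * N) * |1 - 0| := by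
    apply intervalIntegral.norm_integral_le_of_norm_le_const
    intro t ht
    rw [uIoc_of_le zero_le_one] at ht
    have ht' : t ∈ Icc (0 : ℝ) 1 := ⟨ht.1.le, ht.2⟩
    have e : (ψ t).1 * deriv (fun s : ℝ => (ψ s).2) t - (φ t).1 * deriv (fun s : ℝ => (φ s).2) t
        = (ψ t).1 * (deriv (fun s : ℝ => (ψ s).2) t - deriv (fun s : ℝ => (φ s).2) t)
          + ((ψ t).1 - (φ t).1) * deriv (fun s : ℝ => (φ s).2) t := by ring
    rw [e]
    have hψ1 : ‖(ψ t).1‖ ≤ M + 1 := by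
      have e3 : (ψ t).1 = (φ t).1 + ((ψ t).1 - (φ t).1) := by ring
      rw [e3]
      exact (norm_add_le _ _).trans (add_le_add (hM t ht') ((hval t).trans hε1))
    calc _ ≤ ‖(ψ t).1 * (deriv (fun s : ℝ => (ψ s).2) t - deriv (fun s : ℝ => (φ s).2) t)‖
          + ‖((ψ t).1 - (φ t).1) * deriv (fun s : ℝ => (φ s).2) t‖ := norm_add_le _ _
      _ = ‖(ψ t).1‖ * ‖deriv (fun s : ℝ => (ψ s).2) t - deriv (fun s : ℝ => (φ s).2) t‖
          + ‖(ψ t).1 - (φ t).1‖ * ‖deriv (fun s : ℝ => (φ s).2) t‖ := by rw [norm_mul, norm_mul]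
      _ ≤ (M + 1) * (ε * (2 / δ)) + ε * N := by
          gcongr
          · exact hder t
          · exact hval t
          · exact hN t ht'
  rw [← hdiff, hzero, zero_sub, norm_neg] at herr
  have h3 : ((M + 1) * (ε * (2 / δ)) + ε * N) * |1 - 0| = ε * (K - 1) := by
    rw [hK]; norm_num; ring
  rw [h3] at herr
  nlinarith

end Pool.Agent.H704R2.Action
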