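import Pool.Agent.H704R2.HermanMeas

/-!
The set of rotation numbers of Herman rings has density one at zero.
-/

set_option autoImplicit false

open MeasureTheory Set Filter Topology

namespace Pool.Agent.H704R2.HermanMeas

lemma ring_neg {θ : ℝ} (h : Ring θ) : Ring (-θ) := by
  obtain ⟨h, hh, φ, n, hn, hd, hp, ⟨z, z', hz, hz', hne⟩, heq⟩ := h
  have hneg : ∀ z : ℂ, |z.im| < h → |(-z).im| < h := by
    intro z hz
    rw [Complex.neg_im, abs_neg]; exact hz
  refine ⟨h, hh, fun z => φ (-z), n, hn, ?_, ?_, ⟨-z, -z', hneg z hz, hneg z' hz', ?_⟩, ?_⟩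
  · exact hd.comp (differentiable_neg.differentiableOn) (fun z hz => hneg z hz)
  · intro z hz
    have h1 : |(-(z + 1)).im| < h := by simpa using hz
    have := hp _ h1
    have e : -(z + 1) + 1 = -z := by ring
    rw [e] at this
    exact this.symm
  · simpa using hne
  · intro z hz
    have := heq _ (hneg z hz)
    simp only
    rw [this]
    congr 1
    push_cast
    ring

lemma ring_add_int {θ : ℝ} (m : ℤ) (h : Ring θ) : Ring (θ + m) := by
  obtain ⟨h, hh, φ, n, hn, hd, hp, hne, heq⟩ := h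
  refine ⟨h, hh, φ, n, hn, hd, hp, hne, ?_⟩
  intro z hz
  rw [heq z hz]
  have h1 : z + (θ : ℂ) ∈ strip h := by
    simpa [strip] using hz
  have := per_int (h := h) hp m _ h1
  rw [← this]
  congr 1
  push_cast
  ring

lemma irr_neg {θ : ℝ} (h : Irrational θ ∧ Ring θ) : Irrational (-θ) ∧ Ring (-θ) :=
  ⟨h.1.neg, ring_neg h.2⟩

lemma irr_add_int {θ : ℝ} (m : ℤ) (h : Irrational θ ∧ Ring θ) :
    Irrational (θ + m) ∧ Ring (θ + m) :=
  ⟨h.1.add_intCast m, ring_add_int m h.2⟩

theorem small_rings : ∃ θ0 : ℝ, 0 < θ0 ∧ ∀ θ : ℝ, 0 < θ → θ < θ0 →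
    Pool.Agent.Helper649.Good θ → Irrational θ ∧ Ring θ := by
  obtain ⟨θ0, hθ0, h⟩ := Pool.Agent.Helper649.rings
  refine ⟨θ0, hθ0, fun θ h1 h2 h3 => ?_⟩
  obtain ⟨hirr, ht, hh, φ, p1, p2, p3, p4⟩ := h θ h1 h2 h3
  exact ⟨hirr, ht, hh, φ, 2, le_rfl, p1, fun z _ => p2 z, p3, p4⟩

/-- The measure of the complement near zero is quadratically small. -/
theorem measure_lower : ∃ C ρ : ℝ, 0 ≤ C ∧ 0 < ρ ∧ ∀ r : ℝ, 0 < r → r < ρ →
    ENNReal.ofReal (2 * r) ≤ volume ({θ : ℝ | Irrational θ ∧ Ring θ} ∩ Ioo (-r) r) +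
      ENNReal.ofReal (C * r ^ 2) := by
  obtain ⟨C, hC, hbad⟩ := Pool.Agent.Helper649.bad_measure
  obtain ⟨θ0, hθ0, hsmall⟩ := small_rings
  refine ⟨2 * C, θ0, by positivity, hθ0, ?_⟩
  intro r hr hrρ
  obtain ⟨S, hS⟩ : ∃ S : Set ℝ, S = {θ : ℝ | Irrational θ ∧ Ring θ} := ⟨_, rfl⟩
  have hSm : MeasurableSet S := by rw [hS]; exact measurableSet_irrational_ring
  rw [← hS]
  have h1 : volume (Ioo 0 r) ≤ volume (S ∩ Ioo 0 r) + ENNReal.ofReal (C * r ^ 2) := by
    have hsub : Ioo 0 r ⊆ (S ∩ Ioo 0 r) ∪ (Ioo 0 r ∩ {θ | ¬ Pool.Agent.Helper649.Good θ}) := by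
      intro θ hθ
      by_cases hg : Pool.Agent.Helper649.Good θ
      · left
        refine ⟨?_, hθ⟩
        rw [hS]
        exact hsmall θ hθ.1 (hθ.2.trans hrρ) hg
      · exact Or.inr ⟨hθ, hg⟩
    refine (measure_mono hsub).trans ((measure_union_le _ _).trans ?_)
    gcongr
    exact hbad r hr
  have hsym : volume (S ∩ Ioo (-r) 0) = volume (S ∩ Ioo 0 r) := by
    have e : S ∩ Ioo (-r) 0 = (fun x : ℝ => -x) ⁻¹' (S ∩ Ioo 0 r) := by
      ext θ
      simp only [mem_inter_iff, mem_Ioo, mem_preimage, hS, mem_ofPred_eq]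
      constructor
      · rintro ⟨h1, h2, h3⟩
        exact ⟨irr_neg h1, by linarith, by linarith⟩
      · rintro ⟨h1, h2, h3⟩
        have := irr_neg h1
        rw [neg_neg] at this
        exact ⟨this, by linarith, by linarith⟩
    rw [e]
    exact (Measure.measurePreserving_neg (volume : Measure ℝ)).measure_preimage
      ((hSm.inter measurableSet_Ioo).nullMeasurableSet)
  have hdisj : Disjoint (S ∩ Ioo (-r) 0) (S ∩ Ioo 0 r) := by
    rw [Set.disjoint_left]
    rintro x ⟨-, hx⟩ ⟨-, hx'⟩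
    exact lt_asymm hx.2 hx'.1
  have hunion : volume (S ∩ Ioo (-r) 0) + volume (S ∩ Ioo 0 r) ≤ volume (S ∩ Ioo (-r) r) := by
    rw [← measure_union hdisj (hSm.inter measurableSet_Ioo)]
    apply measure_mono
    rintro x (⟨hx1, hx2, hx3⟩ | ⟨hx1, hx2, hx3⟩)
    · exact ⟨hx1, hx2, by linarith⟩
    · exact ⟨hx1, by linarith, hx3⟩
  rw [hsym] at hunion
  rw [Real.volume_Ioo, sub_zero] at h1
  calc ENNReal.ofReal (2 * r) = ENNReal.ofReal r + ENNReal.ofReal r := by
        rw [← ENNReal.ofReal_add hr.le hr.le]; congr 1; ring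
    _ ≤ (volume (S ∩ Ioo 0 r) + ENNReal.ofReal (C * r ^ 2)) +
        (volume (S ∩ Ioo 0 r) + ENNReal.ofReal (C * r ^ 2)) := add_le_add h1 h1
    _ = (volume (S ∩ Ioo 0 r) + volume (S ∩ Ioo 0 r)) +
        (ENNReal.ofReal (C * r ^ 2) + ENNReal.ofReal (C * r ^ 2)) := by ring
    _ ≤ volume (S ∩ Ioo (-r) r) + ENNReal.ofReal (2 * C * r ^ 2) := by
        rw [← ENNReal.ofReal_add (by positivity) (by positivity)]
        refine add_le_add hunion ?_
        apply ENNReal.ofReal_le_ofReal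
        linarith

/-- The set of rotation numbers in `ℝ / ℤ`. -/
def Theta : Set (AddCircle (1 : ℝ)) :=
  {x | ∃ θ : ℝ, (θ : AddCircle (1 : ℝ)) = x ∧ (Irrational θ ∧ Ring θ)}

/-- The arc `(-r, r)`. -/
def arc (r : ℝ) : Set (AddCircle (1 : ℝ)) := (fun t : ℝ => (t : AddCircle (1 : ℝ))) '' Ioo (-r) r

lemma mem_Theta (θ : ℝ) : (θ : AddCircle (1 : ℝ)) ∈ Theta ↔ (Irrational θ ∧ Ring θ) := by
  constructor
  · rintro ⟨θ', h1, h2⟩
    have h3 := (AddCircle.coe_eq_coe_iff_of_mem_Ico (p := (1 : ℝ)) (a := 0) (x := θ) (y := θ))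
    have h4 : ((θ - θ' : ℝ) : AddCircle (1 : ℝ)) = 0 := by
      rw [AddCircle.coe_sub, h1, sub_self]
    rw [AddCircle.coe_eq_zero_iff] at h4
    obtain ⟨m, hm⟩ := h4
    have h5 : θ = θ' + m := by
      have : (m : ℝ) = θ - θ' := by simpa using hm
      linarith
    rw [h5]
    exact irr_add_int m h2
  · intro h
    exact ⟨θ, rfl, h⟩

theorem measurableSet_Theta : MeasurableSet Theta := by
  have h1 : Theta = (AddCircle.measurableEquivIoc (1 : ℝ) 0) ⁻¹'
      ((fun y : Ioc (0 : ℝ) (0 + 1) => (y : ℝ)) ⁻¹' {θ : ℝ | Irrational θ ∧ Ring θ}) := by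
    ext x
    obtain ⟨y, rfl⟩ := (AddCircle.measurableEquivIoc (1 : ℝ) 0).symm.surjective x
    simp only [mem_preimage, MeasurableEquiv.apply_symm_apply, mem_ofPred_eq]
    exact mem_Theta (y : ℝ)
  rw [h1]
  exact (AddCircle.measurableEquivIoc (1 : ℝ) 0).measurable
    (measurable_subtype_coe measurableSet_irrational_ring)

lemma measurableSet_arc (r : ℝ) : MeasurableSet (arc r) := by
  have : IsOpen (arc r) := by
    unfold arc
    exact QuotientAddGroup.isOpenMap_coe _ isOpen_Ioo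
  exact this.measurableSet

theorem density : Tendsto (fun r : ℝ => volume (Theta ∩ arc r) / ENNReal.ofReal (2 * r))
    (𝓝[>] 0) (𝓝 1) := by
  obtain ⟨C, ρ, hC, hρ, hlow⟩ := measure_lower
  -- measure of a subset of the circle
  have hmeas : ∀ U : Set (AddCircle (1 : ℝ)), MeasurableSet U →
      volume U = volume ((fun t : ℝ => (t : AddCircle (1 : ℝ))) ⁻¹' U ∩ Ioc (-(1 / 2)) (-(1 / 2) + 1)) :=
    fun U hU => AddCircle.add_projection_respects_measure (1 : ℝ) (-(1 / 2)) hU
  have hup : ∀ r : ℝ, 0 < r → volume (Theta ∩ arc r) ≤ ENNReal.ofReal (2 * r) := by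
    intro r hr
    refine (measure_mono inter_subset_right).trans ?_
    by_cases hr2 : 1 / 2 ≤ r
    · refine (measure_mono (subset_univ _)).trans ?_
      rw [AddCircle.measure_univ]
      exact ENNReal.ofReal_le_ofReal (by linarith)
    · push Not at hr2
      rw [hmeas _ (measurableSet_arc r)]
      have : (fun t : ℝ => (t : AddCircle (1 : ℝ))) ⁻¹' (arc r) ∩ Ioc (-(1 / 2)) (-(1 / 2) + 1)
          ⊆ Ioo (-r) r := by
        rintro t ⟨⟨s, hs, hst⟩, ht⟩
        have h4 : ((t - s : ℝ) : AddCircle (1 : ℝ)) = 0 := by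
          rw [AddCircle.coe_sub]
          simp only at hst
          rw [hst, sub_self]
        rw [AddCircle.coe_eq_zero_iff] at h4
        obtain ⟨m, hm⟩ := h4
        have hm' : (m : ℝ) = t - s := by simpa using hm
        have hm0 : m = 0 := by
          have h5 : (m : ℝ) < 1 := by rw [hm']; linarith [hs.1, ht.2]
          have h6 : (-1 : ℝ) < m := by rw [hm']; linarith [hs.2, ht.1]
          have h5' : m < 1 := by exact_mod_cast h5
          have h6' : -1 < m := by exact_mod_cast h6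
          omega
        rw [hm0] at hm'
        have : t = s := by push_cast at hm'; linarith
        rw [this]; exact hs
      refine (measure_mono this).trans ?_
      rw [Real.volume_Ioo]
      apply ENNReal.ofReal_le_ofReal
      linarith
  have hlow2 : ∀ r : ℝ, 0 < r → r < min ρ (1 / 2) →
      ENNReal.ofReal (2 * r) ≤ volume (Theta ∩ arc r) + ENNReal.ofReal (C * r ^ 2) := by
    intro r hr hr2
    refine (hlow r hr (lt_of_lt_of_le hr2 (min_le_left _ _))).trans ?_
    gcongr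
    rw [hmeas _ (measurableSet_Theta.inter (measurableSet_arc r))]
    apply measure_mono
    rintro t ⟨ht, ht2⟩
    refine ⟨⟨(mem_Theta t).2 ht, ⟨t, ht2, rfl⟩⟩, ?_, ?_⟩
    · have := lt_of_lt_of_le hr2 (min_le_right _ _)
      linarith [ht2.1]
    · have := lt_of_lt_of_le hr2 (min_le_right _ _)
      linarith [ht2.2]
  -- squeeze
  have hlim : Tendsto (fun r : ℝ => (1 : ENNReal) - ENNReal.ofReal (C * r / 2)) (𝓝[>] 0) (𝓝 1) := by
    have h1 : Tendsto (fun r : ℝ => ENNReal.ofReal (C * r / 2)) (𝓝[>] 0) (𝓝 0) := by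
      rw [← ENNReal.ofReal_zero]
      apply (ENNReal.continuous_ofReal.tendsto 0).comp
      have : Tendsto (fun r : ℝ => C * r / 2) (𝓝 0) (𝓝 (C * 0 / 2)) := by
        apply Continuous.tendsto; fun_prop
      rw [mul_zero, zero_div] at this
      exact this.mono_left nhdsWithin_le_nhds
    have h2 := ENNReal.Tendsto.sub (tendsto_const_nhds (x := (1 : ENNReal))) h1
      (Or.inl ENNReal.one_ne_top)
    rwa [tsub_zero] at h2
  refine tendsto_of_tendsto_of_tendsto_of_le_of_le' hlim tendsto_const_nhds ?_ ?_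
  · have h1 : ∀ᶠ r : ℝ in 𝓝[>] 0, r < min ρ (1 / 2) :=
      nhdsWithin_le_nhds (eventually_lt_nhds (by positivity))
    filter_upwards [h1, self_mem_nhdsWithin] with r hr2 hr
    have hr0 : 0 < r := hr
    have hpos : ENNReal.ofReal (2 * r) ≠ 0 := by
      rw [Ne, ENNReal.ofReal_eq_zero]; push Not; positivity
    have hb : ENNReal.ofReal (C * r / 2) = ENNReal.ofReal (C * r ^ 2) / ENNReal.ofReal (2 * r) := by
      rw [← ENNReal.ofReal_div_of_pos (by positivity)]
      congr 1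
      field_simp
    rw [tsub_le_iff_right, hb, ← ENNReal.add_div]
    calc (1 : ENNReal) = ENNReal.ofReal (2 * r) / ENNReal.ofReal (2 * r) :=
          (ENNReal.div_self hpos ENNReal.ofReal_ne_top).symm
      _ ≤ _ := by gcongr; exact hlow2 r hr0 hr2
  · filter_upwards [self_mem_nhdsWithin] with r hr
    have hr0 : 0 < r := hr
    exact ENNReal.div_le_of_le_mul (by rw [one_mul]; exact hup r hr0)

end Pool.Agent.H704R2.HermanMeas
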