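import Mathlib
import Pool.Agent.Helper649.Herman
import Pool.Agent.Helper114.MontelSol

/-!
Measurability of the set of rotation numbers of Herman rings of the quadratic map
`(x, y) ↦ (y, x + y ^ 2)`, and the estimate of the measure of its complement near zero.
-/

set_option autoImplicit false

open MeasureTheory Set Filter Topology

namespace Pool.Agent.H704R2.HermanMeas

/-- The map, an abbreviation for the one of the previous files. -/
abbrev H2 : ℂ × ℂ → ℂ × ℂ := Pool.Agent.Helper649.H2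

/-- The strip. -/
def strip (h : ℝ) : Set ℂ := {z : ℂ | |z.im| < h}

/-- Rings of rotation number `θ`. -/
def Ring (θ : ℝ) : Prop :=
  ∃ h : ℝ, 0 < h ∧ ∃ (φ : ℂ → ℂ × ℂ) (n : ℕ), 2 ≤ n ∧
    DifferentiableOn ℂ φ {z : ℂ | |z.im| < h} ∧
    (∀ z : ℂ, |z.im| < h → φ (z + 1) = φ z) ∧
    (∃ z z' : ℂ, |z.im| < h ∧ |z'.im| < h ∧ φ z ≠ φ z') ∧
    ∀ z : ℂ, |z.im| < h → H2^[n] (φ z) = φ (z + θ)

/-- The set of numbers with a ring of controlled size. -/
def E (h : ℝ) (n : ℕ) (M : ℝ) (z₁ z₂ : ℂ) (δ : ℝ) : Set ℝ :=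
  {θ : ℝ | ∃ φ : ℂ → ℂ × ℂ, DifferentiableOn ℂ φ (strip h) ∧ (∀ z ∈ strip h, ‖φ z‖ ≤ M) ∧
    (∀ z ∈ strip h, φ (z + 1) = φ z) ∧ δ ≤ ‖φ z₁ - φ z₂‖ ∧
    ∀ z ∈ strip h, H2^[n] (φ z) = φ (z + θ)}

lemma strip_open (h : ℝ) : IsOpen (strip h) :=
  isOpen_lt (continuous_abs.comp Complex.continuous_im) continuous_const

lemma H2_cont : Continuous H2 := by
  unfold H2 Pool.Agent.Helper649.H2
  fun_prop

/-- The sets `E` are closed. -/
theorem E_closed (h : ℝ) (n : ℕ) (M : ℝ) (z₁ z₂ : ℂ) (hz₁ : z₁ ∈ strip h) (hz₂ : z₂ ∈ strip h)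
    (δ : ℝ) : IsClosed (E h n M z₁ z₂ δ) := by
  apply IsSeqClosed.isClosed
  intro t θ ht hlim
  choose φ hφ1 hφ2 hφ3 hφ4 hφ5 using ht
  have hlim' : Tendsto t (Filter.hyperfilter ℕ : Filter ℕ) (𝓝 θ) :=
    hlim.mono_left Nat.hyperfilter_le_atTop
  obtain ⟨f, hf1, hf2⟩ := Pool.Agent.Helper114.Montel.montel (strip_open h)
    (fun i z => (φ i z).1) (fun i => (hφ1 i).fst) M
    (fun i z hz => (norm_fst_le _).trans (hφ2 i z hz)) (Filter.hyperfilter ℕ)
  obtain ⟨g, hg1, hg2⟩ := Pool.Agent.Helper114.Montel.montel (strip_open h)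
    (fun i z => (φ i z).2) (fun i => (hφ1 i).snd) M
    (fun i z hz => (norm_snd_le _).trans (hφ2 i z hz)) (Filter.hyperfilter ℕ)
  have hpt : ∀ z ∈ strip h, Tendsto (fun i => φ i z) (Filter.hyperfilter ℕ : Filter ℕ)
      (𝓝 (f z, g z)) := by
    intro z hz
    exact (hf2.tendsto_at hz).prodMk_nhds (hg2.tendsto_at hz)
  refine ⟨fun z => (f z, g z), hf1.prodMk hg1, ?_, ?_, ?_, ?_⟩
  · intro z hz
    exact le_of_tendsto (hpt z hz).norm (Eventually.of_forall fun i => hφ2 i z hz)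
  · intro z hz
    have hz1 : z + 1 ∈ strip h := by
      simpa [strip] using hz
    refine tendsto_nhds_unique (hpt (z + 1) hz1) ?_
    refine (hpt z hz).congr fun i => ?_
    exact (hφ3 i z hz).symm
  · have := ((hpt z₁ hz₁).sub (hpt z₂ hz₂)).norm
    exact ge_of_tendsto this (Eventually.of_forall fun i => hφ4 i)
  · intro z hz
    have hzt : z + (θ : ℂ) ∈ strip h := by
      simpa [strip] using hz
    have hseq : Tendsto (fun i => z + (t i : ℂ)) (Filter.hyperfilter ℕ : Filter ℕ)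
        (𝓝[strip h] (z + θ)) := by
      apply tendsto_nhdsWithin_of_tendsto_nhds_of_eventually_within
      · exact tendsto_const_nhds.add ((Complex.continuous_ofReal.tendsto θ).comp hlim')
      · refine Eventually.of_forall fun i => ?_
        simpa [strip] using hz
    have h1 : Tendsto (fun i => (φ i (z + (t i : ℂ))).1) (Filter.hyperfilter ℕ : Filter ℕ)
        (𝓝 (f (z + θ))) :=
      tendsto_comp_of_locally_uniform_limit_within (hf1.continuousOn _ hzt) hseq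
        (hf2 · · _ hzt)
    have h2 : Tendsto (fun i => (φ i (z + (t i : ℂ))).2) (Filter.hyperfilter ℕ : Filter ℕ)
        (𝓝 (g (z + θ))) :=
      tendsto_comp_of_locally_uniform_limit_within (hg1.continuousOn _ hzt) hseq
        (hg2 · · _ hzt)
    have h3 : Tendsto (fun i => H2^[n] (φ i z)) (Filter.hyperfilter ℕ : Filter ℕ)
        (𝓝 (H2^[n] (f z, g z))) :=
      ((H2_cont.iterate n).tendsto _).comp (hpt z hz)
    refine tendsto_nhds_unique h3 ?_
    refine (h1.prodMk_nhds h2).congr fun i => ?_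
    rw [hφ5 i z hz]


lemma per_int {h : ℝ} {φ : ℂ → ℂ × ℂ} (hp : ∀ z ∈ strip h, φ (z + 1) = φ z) (m : ℤ) :
    ∀ z ∈ strip h, φ (z + m) = φ z := by
  classical
  obtain ⟨ψ, hψ⟩ : ∃ ψ : ℂ → ℂ × ℂ, ψ = fun z => if z ∈ strip h then φ z else 0 := ⟨_, rfl⟩
  have hmem : ∀ (z : ℂ) (m : ℤ), z + m ∈ strip h ↔ z ∈ strip h := by
    intro z m
    simp [strip]
  have hper : Function.Periodic ψ 1 := by
    intro z
    rw [hψ]
    have h1 := hmem z 1
    push_cast at h1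
    by_cases hz : z ∈ strip h
    · simp only [if_pos hz, if_pos (h1.2 hz)]
      exact hp z hz
    · have : z + 1 ∉ strip h := fun hh => hz (h1.1 hh)
      simp only [if_neg hz, if_neg this]
  intro z hz
  have h2 : ψ (z + m * 1) = ψ z := (hper.int_mul m) z
  rw [mul_one] at h2
  rw [hψ] at h2
  simp only [if_pos hz, if_pos ((hmem z m).2 hz)] at h2
  exact h2

lemma bdd_strip {h h' : ℝ} (hh : h' < h) {φ : ℂ → ℂ × ℂ} (hd : DifferentiableOn ℂ φ (strip h))
    (hp : ∀ z ∈ strip h, φ (z + 1) = φ z) : ∃ M : ℕ, ∀ z ∈ strip h', ‖φ z‖ ≤ M := by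
  have hK : IsCompact (Icc (0 : ℝ) 1 ×ℂ Icc (-h') h') := isCompact_Icc.reProdIm isCompact_Icc
  have hsub : (Icc (0 : ℝ) 1 ×ℂ Icc (-h') h') ⊆ strip h := by
    intro z hz
    rw [Complex.mem_reProdIm] at hz
    exact lt_of_le_of_lt (abs_le.mpr ⟨hz.2.1, hz.2.2⟩) hh
  obtain ⟨C, hC⟩ := hK.exists_bound_of_continuousOn (hd.continuousOn.mono hsub)
  obtain ⟨M, hM⟩ := exists_nat_ge C
  refine ⟨M, fun z hz => ?_⟩
  have hz' : |z.im| < h' := hz
  have h1 := per_int hp (-⌊z.re⌋) z (show |z.im| < h from hz'.trans hh)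
  rw [← h1]
  refine (hC _ ?_).trans hM
  rw [Complex.mem_reProdIm]
  have e1 : (z + ((-⌊z.re⌋ : ℤ) : ℂ)).re = Int.fract z.re := by
    simp [Int.fract, sub_eq_add_neg]
  have e2 : (z + ((-⌊z.re⌋ : ℤ) : ℂ)).im = z.im := by
    simp
  rw [e1, e2]
  exact ⟨⟨Int.fract_nonneg _, (Int.fract_lt_one _).le⟩, abs_le.mp hz'.le⟩

theorem ring_iff (θ : ℝ) : Ring θ ↔ ∃ (q : ℚ) (n M i j k : ℕ), (0 < (q : ℝ) ∧ 2 ≤ n ∧
    TopologicalSpace.denseSeq ℂ i ∈ strip q ∧ TopologicalSpace.denseSeq ℂ j ∈ strip q) ∧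
    θ ∈ E q n M (TopologicalSpace.denseSeq ℂ i) (TopologicalSpace.denseSeq ℂ j)
      (1 / ((k : ℝ) + 1)) := by
  constructor
  · rintro ⟨h, hh, φ, n, hn, hd, hp, ⟨z, z', hz, hz', hne⟩, heq⟩
    obtain ⟨q, hq1, hq2⟩ := exists_rat_btwn (show max |z.im| |z'.im| < h from max_lt hz hz')
    have hzq : z ∈ strip q := lt_of_le_of_lt (le_max_left _ _) hq1
    have hzq' : z' ∈ strip q := lt_of_le_of_lt (le_max_right _ _) hq1
    have hq0 : 0 < (q : ℝ) := lt_of_le_of_lt (abs_nonneg _) hzq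
    have hsub : strip q ⊆ strip h := fun w hw => lt_trans (show |w.im| < q from hw) hq2
    have hc : ContinuousOn φ (strip q) := hd.continuousOn.mono hsub
    -- open set of pairs with different images
    have hU : IsOpen ((strip q ×ˢ strip q) ∩
        (fun p : ℂ × ℂ => (φ p.1, φ p.2)) ⁻¹' {w : (ℂ × ℂ) × (ℂ × ℂ) | w.1 ≠ w.2}) := by
      refine ContinuousOn.isOpen_inter_preimage ?_ ((strip_open _).prod (strip_open _)) ?_
      · refine ContinuousOn.prodMk ?_ ?_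
        · exact hc.comp continuousOn_fst fun p hp => hp.1
        · exact hc.comp continuousOn_snd fun p hp => hp.2
      · exact isOpen_ne_fun continuous_fst continuous_snd
    have hne' : ((strip q ×ˢ strip q) ∩
        (fun p : ℂ × ℂ => (φ p.1, φ p.2)) ⁻¹' {w : (ℂ × ℂ) × (ℂ × ℂ) | w.1 ≠ w.2}).Nonempty :=
      ⟨(z, z'), ⟨hzq, hzq'⟩, hne⟩
    have hdense : DenseRange (Prod.map (TopologicalSpace.denseSeq ℂ)
        (TopologicalSpace.denseSeq ℂ)) :=
      (TopologicalSpace.denseRange_denseSeq ℂ).prodMap (TopologicalSpace.denseRange_denseSeq ℂ)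
    obtain ⟨⟨i, j⟩, ⟨⟨hi, hj⟩, hij⟩⟩ := hdense.exists_mem_open hU hne'
    simp only [Prod.map_apply] at hi hj hij
    obtain ⟨M, hM⟩ := bdd_strip hq2 hd hp
    have hpos : 0 < ‖φ (TopologicalSpace.denseSeq ℂ i) - φ (TopologicalSpace.denseSeq ℂ j)‖ :=
      norm_pos_iff.mpr (sub_ne_zero.mpr hij)
    obtain ⟨k, hk⟩ := exists_nat_one_div_lt hpos
    refine ⟨q, n, M, i, j, k, ⟨hq0, hn, hi, hj⟩, φ, hd.mono hsub, hM, ?_, hk.le, ?_⟩
    · intro w hw
      exact hp w (hsub hw)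
    · intro w hw
      exact heq w (hsub hw)
  · rintro ⟨q, n, M, i, j, k, ⟨hq0, hn, hi, hj⟩, φ, hd, -, hp, hk, heq⟩
    refine ⟨q, hq0, φ, n, hn, hd, hp, ⟨_, _, hi, hj, ?_⟩, heq⟩
    intro h0
    rw [h0, sub_self, norm_zero] at hk
    have : (0 : ℝ) < 1 / ((k : ℝ) + 1) := by positivity
    linarith

theorem measurableSet_ring : MeasurableSet {θ : ℝ | Ring θ} := by
  have e : {θ : ℝ | Ring θ} = ⋃ (q : ℚ) (n : ℕ) (M : ℕ) (i : ℕ) (j : ℕ) (k : ℕ),
      {θ : ℝ | (0 < (q : ℝ) ∧ 2 ≤ n ∧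
      TopologicalSpace.denseSeq ℂ i ∈ strip q ∧ TopologicalSpace.denseSeq ℂ j ∈ strip q) ∧
      θ ∈ E q n M (TopologicalSpace.denseSeq ℂ i) (TopologicalSpace.denseSeq ℂ j)
      (1 / ((k : ℝ) + 1))} := by
    ext θ
    simp only [mem_iUnion, mem_ofPred_eq]
    exact ring_iff θ
  rw [e]
  refine MeasurableSet.iUnion fun q => MeasurableSet.iUnion fun n => MeasurableSet.iUnion fun M =>
    MeasurableSet.iUnion fun i => MeasurableSet.iUnion fun j => MeasurableSet.iUnion fun k => ?_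
  by_cases hc : (0 < (q : ℝ) ∧ 2 ≤ n ∧
      TopologicalSpace.denseSeq ℂ i ∈ strip q ∧ TopologicalSpace.denseSeq ℂ j ∈ strip q)
  · simp only [hc, true_and, and_self]
    exact (E_closed q n M _ _ hc.2.2.1 hc.2.2.2 _).measurableSet
  · simp only [hc, false_and]
    exact MeasurableSet.empty

theorem measurableSet_irrational_ring : MeasurableSet {θ : ℝ | Irrational θ ∧ Ring θ} := by
  have h1 : MeasurableSet {θ : ℝ | Irrational θ} := by
    have : {θ : ℝ | Irrational θ} = (Set.range ((↑) : ℚ → ℝ))ᶜ := rfl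
    rw [this]
    exact (Set.countable_range _).measurableSet.compl
  exact h1.inter measurableSet_ring

end Pool.Agent.H704R2.HermanMeas
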