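import Pool.Agent.Helper649.KamMain

/-!
A variant of the KAM theorem of `Pool.Agent.Helper649`: the solution is close to the unperturbed
one in an analytic norm on a fixed strip. The proofs are those of `Helper649`.
-/

set_option autoImplicit false

namespace Pool.Agent.H704R2.Kam

open Filter Topology Pool.Agent.Helper649

/-- The Newton iteration converges. -/
theorem kam_converge' (L G θ κ R σ ε0 K : ℝ) (d0 : ℂ) (w0 w0' e0 : ℝ → ℂ)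
    (hL : 2 ≤ L) (hLπ : 2 * Real.pi ≤ L) (hG0 : 0 ≤ G) (hGL : G ≤ L)
    (hR : 1 < R) (hσ : σ = (R - 1) / (10 * R)) (hσL : 1 / σ ≤ L)
    (hκ : 0 ≤ κ) (hθ0 : 0 < θ) (hθκ : θ ≤ κ) (hd0 : d0 ≠ 0)
    (hdL : 2 / ‖d0‖ ≤ L) (hdL' : 2 * ‖d0‖ ≤ L) (hsmall : L ^ 16 * κ ≤ 1)
    (hε0 : 0 ≤ ε0) (hε1 : L ^ 38 * 2 ^ 76 * ε0 ≤ 1) (hε2 : ε0 ≤ 1) (hK : K = L ^ 20 * 2 ^ 20 * ε0) (hKκ : 2 * K ≤ κ)
    (hder : ∀ t, HasDerivAt w0 (w0' t) t)
    (hw0 : B R (L / 2) w0) (hw0' : B R (L / 2) w0')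
    (hode : ∀ t, w0' t = w0 (-t) ^ 2) (hdet0 : ∀ t, det w0 w0' t = d0)
    (he0 : B R ε0 e0) (heq0 : ∀ t, w0 (t + θ) - w0 t = θ * ((-w0 (-t)) ^ 2 + e0 t))
    (hdiv : ∀ k : ℤ, k ≠ 0 → 1 ≤ (G / θ) * k ^ 2 * ‖ch k θ - 1‖) :
    ∃ w : ℝ → ℂ, B ((R + 1) / 2) κ (fun t => w t - w0 t) ∧
      (∀ t, w (t + θ) - w t = θ * w (-t) ^ 2) := by
  have hK0 : 0 ≤ K := by rw [hK]; positivity
  have hR0 : 0 < R := by linarith
  have hP : ∀ (n : ℕ) (x : {x : (ℝ → ℂ) × (ℝ → ℂ) × (ℝ → ℂ) // St θ w0 w0' (R * (1 - 5 * σ * (1 - (1 / 2) ^ n)))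
      (2 * K * (1 - (1 / 2) ^ n)) (ε0 * (1 / 2) ^ (38 * n)) x}),
      ∃ y : {x : (ℝ → ℂ) × (ℝ → ℂ) × (ℝ → ℂ) // St θ w0 w0' (R * (1 - 5 * σ * (1 - (1 / 2) ^ (n + 1))))
      (2 * K * (1 - (1 / 2) ^ (n + 1))) (ε0 * (1 / 2) ^ (38 * (n + 1))) x},
      B ((R + 1) / 2) (K * (1 / 2) ^ n) (fun t => y.1.1 t - x.1.1 t) := by
    intro n x
    obtain ⟨y, hy1, hy2⟩ := iter_step L G θ κ R σ ε0 K n d0 w0 w0' e0 hL hLπ hG0 hGL hR hσ hσL hκ hθ0 hθκ hd0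
      hdL hdL' hsmall hε0 hε1 hK hKκ hw0 hw0' hode hdet0 (he0.mono hR0.le le_rfl hε2) heq0 hdiv x.1 x.2
    exact ⟨⟨y, hy1⟩, hy2⟩
  choose F hF using hP
  have h0 : St θ w0 w0' (R * (1 - 5 * σ * (1 - (1 / 2) ^ 0))) (2 * K * (1 - (1 / 2) ^ 0))
      (ε0 * (1 / 2) ^ (38 * 0)) (w0, w0', e0) := by
    have hz : ∀ f : ℝ → ℂ, B R 0 (fun t => f t - f t) := by
      intro f
      have := B.const (r := R) (0 : ℂ)
      rw [norm_zero] at this
      have e : (fun t => f t - f t) = fun _ => (0 : ℂ) := by funext t; ring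
      rw [e]; exact this
    refine ⟨hder, ?_, ?_, ?_, heq0⟩
    · simpa using hz w0
    · simpa using hz w0'
    · simpa using he0
  let X : (n : ℕ) → {x : (ℝ → ℂ) × (ℝ → ℂ) × (ℝ → ℂ) // St θ w0 w0' (R * (1 - 5 * σ * (1 - (1 / 2) ^ n)))
      (2 * K * (1 - (1 / 2) ^ n)) (ε0 * (1 / 2) ^ (38 * n)) x} :=
    fun n => Nat.rec ⟨_, h0⟩ (fun n x => F n x) n
  have hX : ∀ n, X (n + 1) = F n (X n) := fun n => rfl
  have hX0 : (X 0).1 = (w0, w0', e0) := rfl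
  obtain ⟨w, hw⟩ : ∃ w : ℕ → ℝ → ℂ, w = fun n => (X n).1.1 := ⟨_, rfl⟩
  obtain ⟨e, he⟩ : ∃ e : ℕ → ℝ → ℂ, e = fun n => (X n).1.2.2 := ⟨_, rfl⟩
  have hw00 : w 0 = w0 := by
    rw [hw]
    show (X 0).1.1 = w0
    rw [hX0]
  have hδ : ∀ n, B ((R + 1) / 2) (K * (1 / 2) ^ n) (fun t => w (n + 1) t - w n t) := by
    intro n
    have := hF n (X n)
    rw [← hX n] at this
    rw [hw]; exact this
  have hE : ∀ n, B ((R + 1) / 2) (ε0 * (1 / 2) ^ (38 * n)) (e n) := by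
    intro n
    rw [he]
    refine (X n).2.er.mono (by linarith) ?_ le_rfl
    have hσR : σ * R = (R - 1) / 10 := by rw [hσ]; field_simp
    have hq0 : 0 < (1 / 2 : ℝ) ^ n := by positivity
    have hq1 : (1 / 2 : ℝ) ^ n ≤ 1 := pow_le_one₀ (by norm_num) (by norm_num)
    have : R * (1 - 5 * σ * (1 - (1 / 2) ^ n)) = R - 5 * (σ * R) * (1 - (1 / 2) ^ n) := by ring
    rw [this, hσR]; nlinarith
  have hEq : ∀ n t, w n (t + θ) - w n t = θ * ((-w n (-t)) ^ 2 + e n t) := by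
    intro n t
    rw [hw, he]
    exact (X n).2.eq t
  have hR1 : 1 ≤ (R + 1) / 2 := by linarith
  have hsum : Summable (fun n : ℕ => K * (1 / 2 : ℝ) ^ n) :=
    (summable_geometric_of_lt_one (by norm_num) (by norm_num)).mul_left K
  have hT := B.tsum hR1 hsum hδ
  have htot : ∑' n : ℕ, K * (1 / 2 : ℝ) ^ n = 2 * K := by
    rw [tsum_mul_left, tsum_geometric_of_lt_one (by norm_num) (by norm_num)]; norm_num; ring
  rw [htot] at hT
  have hlim : ∀ t, Tendsto (fun n => w n t) atTop (𝓝 (w0 t + ∑' n, (w (n + 1) t - w n t))) := by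
    intro t
    have hs : Summable (fun n => w (n + 1) t - w n t) :=
      Summable.of_norm_bounded hsum (fun n => (hδ n).norm_le hR1 t)
    have h1 := hs.hasSum.tendsto_sum_nat
    have h2 : (fun n => ∑ i ∈ Finset.range n, (w (i + 1) t - w i t)) = fun n => w n t - w0 t := by
      funext n
      rw [Finset.sum_range_sub (fun i => w i t), hw00]
    rw [h2] at h1
    have h3 := h1.const_add (w0 t)
    have h4 : (fun n => w0 t + (w n t - w0 t)) = fun n => w n t := by funext n; ring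
    rw [h4] at h3
    exact h3
  have helim : ∀ t, Tendsto (fun n => e n t) atTop (𝓝 0) := by
    intro t
    rw [tendsto_zero_iff_norm_tendsto_zero]
    refine squeeze_zero (fun n => norm_nonneg _) (fun n => (hE n).norm_le hR1 t) ?_
    have h1 : Tendsto (fun n : ℕ => ((1 / 2 : ℝ) ^ 38) ^ n) atTop (𝓝 0) :=
      tendsto_pow_atTop_nhds_zero_of_lt_one (by positivity) (by norm_num)
    have h2 := h1.const_mul ε0
    rw [mul_zero] at h2
    refine h2.congr (fun n => ?_)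
    rw [pow_mul]
  refine ⟨fun t => w0 t + ∑' n, (w (n + 1) t - w n t), ?_, ?_⟩
  · have e1 : (fun t => w0 t + ∑' n, (w (n + 1) t - w n t) - w0 t) =
        fun t => ∑' n, (w (n + 1) t - w n t) := by funext t; ring
    simp only [e1]
    exact hT.mono (by linarith) le_rfl hKκ
  · intro t
    have l1 := (hlim (t + θ)).sub (hlim t)
    have l2 := ((((hlim (-t)).neg).pow 2).add (helim t)).const_mul (θ : ℂ)
    have e1 : (fun n => w n (t + θ) - w n t) = fun n => (θ : ℂ) * ((-w n (-t)) ^ 2 + e n t) := by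
      funext n; exact hEq n t
    rw [e1] at l1
    have := tendsto_nhds_unique l1 l2
    simp only at this ⊢
    rw [this]; ring

/-- For all small Diophantine rotation numbers the functional equation has an analytic solution
near the unperturbed one, in the norm of a fixed strip. -/
theorem kam_main' {R0 M0 : ℝ} {d0 : ℂ} {w0 w0' : ℝ → ℂ} (hR0 : 1 < R0) (hw0 : B R0 M0 w0)
    (hder : ∀ t, HasDerivAt w0 (w0' t) t) (hode : ∀ t, w0' t = w0 (-t) ^ 2)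
    (hd0 : d0 ≠ 0) (hdet0 : ∀ t, det w0 w0' t = d0) :
    ∃ r1 : ℝ, 1 < r1 ∧ r1 ≤ R0 ∧ ∀ G η : ℝ, 0 ≤ G → 0 < η →
    ∃ θ0 : ℝ, 0 < θ0 ∧ ∀ θ : ℝ, 0 < θ → θ < θ0 →
      (∀ k : ℤ, k ≠ 0 → 1 ≤ (G / θ) * k ^ 2 * ‖ch k θ - 1‖) →
      ∃ w : ℝ → ℂ, B r1 η (fun t => w t - w0 t) ∧
        (∀ t, w (t + θ) - w t = θ * w (-t) ^ 2) := by
  have hR00 : 0 < R0 := by linarith
  obtain ⟨s, hs⟩ : ∃ s : ℝ, s = (1 + 1 / R0) / 2 := ⟨_, rfl⟩
  have hx1 : 1 / R0 < 1 := by rw [div_lt_one hR00]; exact hR0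
  have hx0 : 0 < 1 / R0 := by positivity
  have hs0 : 0 < s := by rw [hs]; linarith
  have hs1 : s < 1 := by rw [hs]; linarith
  obtain ⟨R, hRd⟩ : ∃ R : ℝ, R = R0 * s ^ 2 := ⟨_, rfl⟩
  have hR : 1 < R := by
    have h1 : 1 / R0 < s ^ 2 := by
      rw [hs]; nlinarith [sq_nonneg (1 - 1 / R0), mul_pos (sub_pos.mpr hx1) (sub_pos.mpr hx1)]
    rw [div_lt_iff₀ hR00] at h1
    rw [hRd]; linarith
  have hRR : R ≤ R0 := by
    rw [hRd]
    have : s ^ 2 ≤ 1 := pow_le_one₀ hs0.le hs1.le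
    nlinarith
  have hM0 : 0 ≤ M0 := hw0.nonneg hR00.le
  have hw0' : B R0 (M0 ^ 2) w0' := by
    have := (hw0.refl).pow hR0.le 2
    have e : (fun t => w0 (-t) ^ 2) = w0' := by funext t; rw [hode t]
    rw [e] at this; exact this
  have hd0pos : 0 < ‖d0‖ := norm_pos_iff.mpr hd0
  refine ⟨(R + 1) / 2, by linarith, by linarith, ?_⟩
  intro G η hG hη
  obtain ⟨σ, hσ⟩ : ∃ σ : ℝ, σ = (R - 1) / (10 * R) := ⟨_, rfl⟩
  have hσ0 : 0 < σ := by rw [hσ]; apply div_pos <;> linarith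
  obtain ⟨L, hL⟩ : ∃ L : ℝ, L = 2 + 2 * Real.pi + G + 1 / σ + 2 / ‖d0‖ + 2 * ‖d0‖ + 2 * M0 + 2 * M0 ^ 2 :=
    ⟨_, rfl⟩
  have p1 := Real.pi_pos
  have p2 : 0 < 1 / σ := by positivity
  have p3 : 0 < 2 / ‖d0‖ := by positivity
  have p4 : 0 ≤ M0 ^ 2 := by positivity
  have hL2 : 2 ≤ L := by rw [hL]; linarith
  have hLπ : 2 * Real.pi ≤ L := by rw [hL]; linarith
  have hLG : G ≤ L := by rw [hL]; linarith
  have hLσ : 1 / σ ≤ L := by rw [hL]; linarith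
  have hLd : 2 / ‖d0‖ ≤ L := by rw [hL]; linarith
  have hLd' : 2 * ‖d0‖ ≤ L := by rw [hL]; linarith
  have hLM : M0 ≤ L / 2 := by rw [hL]; linarith
  have hLM' : M0 ^ 2 ≤ L / 2 := by rw [hL]; linarith
  have hL0 : 0 < L := by linarith
  obtain ⟨C, hC⟩ : ∃ C : ℝ, C = 120 / (1 - s) ^ 2 * M0 + 1 := ⟨_, rfl⟩
  have h1s : 0 < 1 - s := by linarith
  have hC0 : 0 < C := by rw [hC]; positivity
  obtain ⟨D, hD⟩ : ∃ D : ℝ, D = L ^ 20 * 2 ^ 21 * C + 1 := ⟨_, rfl⟩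
  have hD0 : 0 < D := by rw [hD]; positivity
  refine ⟨min (min (1 / (L ^ 16 * D)) (1 / (L ^ 38 * 2 ^ 76 * C))) (min (1 / C) (η / D)), by positivity, ?_⟩
  intro θ hθ0 hθ1 hdiv
  rw [lt_min_iff, lt_min_iff, lt_min_iff] at hθ1
  obtain ⟨⟨t1, t2⟩, t3, t4⟩ := hθ1
  rw [lt_div_iff₀ (by positivity)] at t1 t2 t3 t4
  have hθc : (θ : ℂ) ≠ 0 := by exact_mod_cast hθ0.ne'
  have he := init_error hw0 hder hs0 hs1 hR00.le (by rw [← hRd]; exact hR.le) hθ0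
  rw [← hRd] at he
  have he2 : B R (C * θ) (fun t => (w0 (t + θ) - w0 t) / θ - w0' t) := by
    refine he.mono (by linarith) le_rfl ?_
    rw [hC]
    have : 120 * θ / (1 - s) ^ 2 * M0 = 120 / (1 - s) ^ 2 * M0 * θ := by ring
    rw [this, add_mul]; linarith
  obtain ⟨w, hw2, hw3⟩ := kam_converge' L G θ (D * θ) R σ (C * θ) (L ^ 20 * 2 ^ 20 * (C * θ)) d0 w0 w0'
    (fun t => (w0 (t + θ) - w0 t) / θ - w0' t) hL2 hLπ hG hLG hR hσ hLσ (by positivity) hθ0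
    (by
      rw [hD]
      have : 0 ≤ L ^ 20 * 2 ^ 21 * C := by positivity
      nlinarith) hd0 hLd hLd' (by linarith) (by positivity) (by linarith) (by linarith) rfl
    (by rw [hD]; nlinarith) hder (hw0.mono (by linarith) hRR hLM) (hw0'.mono (by linarith) hRR hLM')
    hode hdet0 he2
    (by
      intro t
      rw [hode t]
      field_simp
      ring) hdiv
  exact ⟨w, hw2.mono (by linarith) le_rfl (by linarith), hw3⟩


end Pool.Agent.H704R2.Kam
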