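import Pool.Agent.H704R2.RZ2_TR1b

set_option autoImplicit false
set_option maxHeartbeats 4000000

namespace Pool.Agent.H704R2.RZ2_TR1

open Finset Filter Topology MeasureTheory
open Pool.Agent.H306R2.RZ

noncomputable section

/-- all derivatives are `O(w)` -/
def GrW (w f : ℝ → ℝ) : Prop := ∀ j : ℕ, ∃ B : ℝ, 0 ≤ B ∧ ∀ τ, |iteratedDeriv j f τ| ≤ B * w τ

theorem GrW.unif {w f : ℝ → ℝ} (hw : ∀ τ, 0 ≤ w τ) (h : GrW w f) (k : ℕ) :
    ∃ B : ℝ, 0 ≤ B ∧ ∀ j ≤ k, ∀ τ, |iteratedDeriv j f τ| ≤ B * w τ := by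
  choose B hB0 hB using h
  refine ⟨∑ j ∈ range (k + 1), B j, sum_nonneg (fun j _ => hB0 j), ?_⟩
  intro j hj y
  exact (hB j y).trans (mul_le_mul_of_nonneg_right
    (single_le_sum (f := B) (fun i _ => hB0 i) (mem_range.2 (by omega))) (hw y))

theorem GrW.mul {w w' f g : ℝ → ℝ} (hw : ∀ τ, 0 ≤ w τ) (hw' : ∀ τ, 0 ≤ w' τ)
    (hf : ContDiff ℝ ((⊤ : ℕ∞) : WithTop ℕ∞) f) (hg : ContDiff ℝ ((⊤ : ℕ∞) : WithTop ℕ∞) g)
    (h : GrW w f) (h' : GrW w' g) : GrW (fun τ => w τ * w' τ) (fun τ => f τ * g τ) := by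
  intro j
  obtain ⟨B, hB0, hB⟩ := h.unif hw j
  obtain ⟨B', hB0', hB'⟩ := h'.unif hw' j
  refine ⟨2 ^ j * B * B', by positivity, fun τ => ?_⟩
  have := idmul hf hg (t := τ) (fun i hi => hB i hi τ) (fun i hi => hB' i hi τ) j le_rfl
  refine this.trans (le_of_eq ?_)
  ring

theorem GrW.add {w f g : ℝ → ℝ}
    (hf : ContDiff ℝ ((⊤ : ℕ∞) : WithTop ℕ∞) f) (hg : ContDiff ℝ ((⊤ : ℕ∞) : WithTop ℕ∞) g)
    (h : GrW w f) (h' : GrW w g) : GrW w (fun τ => f τ + g τ) := by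
  intro j
  obtain ⟨B, hB0, hB⟩ := h j
  obtain ⟨B', hB0', hB'⟩ := h' j
  refine ⟨B + B', by positivity, fun τ => ?_⟩
  have e : iteratedDeriv j (fun τ => f τ + g τ) τ = iteratedDeriv j f τ + iteratedDeriv j g τ :=
    iteratedDeriv_fun_add (hf.contDiffAt.of_le (by exact_mod_cast le_top))
      (hg.contDiffAt.of_le (by exact_mod_cast le_top))
  rw [e, add_mul]
  exact (abs_add_le _ _).trans (add_le_add (hB τ) (hB' τ))

theorem GrW.mono {w w' f : ℝ → ℝ} {c : ℝ} (h : GrW w f) (hc : 0 ≤ c) (hww : ∀ τ, w τ ≤ c * w' τ) :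
    GrW w' f := by
  intro j
  obtain ⟨B, hB0, hB⟩ := h j
  refine ⟨B * c, by positivity, fun τ => (hB τ).trans ?_⟩
  rw [mul_assoc]
  exact mul_le_mul_of_nonneg_left (hww τ) hB0

theorem GrW.gr {x : ℝ} {f : ℝ → ℝ} (h : GrW (fun τ => (1 + |τ|) * Real.exp (x * (τ - 1 / 2))) f) :
    Gr x f := by
  intro j
  obtain ⟨B, _, hB⟩ := h j
  refine ⟨B, fun τ => (hB τ).trans (le_of_eq ?_)⟩
  ring

theorem id_exp (a c : ℝ) (j : ℕ) : iteratedDeriv j (fun τ : ℝ => Real.exp (a * τ + c)) =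
    fun τ => a ^ j * Real.exp (a * τ + c) := by
  induction j with
  | zero => funext τ; simp
  | succ n ih =>
    rw [iteratedDeriv_succ, ih]
    funext τ
    have h1 : HasDerivAt (fun τ : ℝ => a * τ + c) a τ := by
      simpa using ((hasDerivAt_id τ).const_mul a).add_const c
    have h2 : HasDerivAt (fun τ : ℝ => a ^ n * Real.exp (a * τ + c))
        (a ^ n * (Real.exp (a * τ + c) * a)) τ := (h1.exp).const_mul _
    rw [h2.deriv]
    ring

theorem cd_exp (a c : ℝ) : ContDiff ℝ ((⊤ : ℕ∞) : WithTop ℕ∞) (fun τ : ℝ => Real.exp (a * τ + c)) := by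
  fun_prop

theorem cd_lin (a c : ℝ) : ContDiff ℝ ((⊤ : ℕ∞) : WithTop ℕ∞) (fun τ : ℝ => a * τ + c) := by
  fun_prop

theorem grw_exp (a c : ℝ) : GrW (fun τ => Real.exp (a * τ + c))
    (fun τ : ℝ => Real.exp (a * τ + c)) := by
  intro j
  refine ⟨|a| ^ j, by positivity, fun τ => ?_⟩
  rw [id_exp, abs_mul, abs_pow, abs_of_pos (Real.exp_pos _)]

theorem id_lin (a c : ℝ) (j : ℕ) (τ : ℝ) : |iteratedDeriv j (fun τ : ℝ => a * τ + c) τ| ≤
    (|a| + |c|) * (1 + |τ|) := by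
  have e1 : deriv (fun τ : ℝ => a * τ + c) = fun _ => a := by
    funext τ
    have h1 : HasDerivAt (fun τ : ℝ => a * τ + c) a τ := by
      simpa using ((hasDerivAt_id τ).const_mul a).add_const c
    exact h1.deriv
  match j with
  | 0 =>
    rw [iteratedDeriv_zero]
    refine (abs_add_le _ _).trans ?_
    rw [abs_mul]
    nlinarith [abs_nonneg a, abs_nonneg c, abs_nonneg τ, mul_nonneg (abs_nonneg c) (abs_nonneg τ)]
  | 1 =>
    rw [iteratedDeriv_one, e1]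
    nlinarith [abs_nonneg a, abs_nonneg c, abs_nonneg τ, mul_nonneg (abs_nonneg c) (abs_nonneg τ),
      mul_nonneg (abs_nonneg a) (abs_nonneg τ)]
  | (n + 2) =>
    rw [iteratedDeriv_succ', e1, iteratedDeriv_succ']
    have : deriv (fun _ : ℝ => a) = fun _ => 0 := by funext; simp
    rw [this]
    have h2 : iteratedDeriv n (fun _ : ℝ => (0 : ℝ)) τ = 0 := by
      simp
    rw [h2, abs_zero]
    positivity

theorem grw_lin (a c : ℝ) : GrW (fun τ => 1 + |τ|) (fun τ : ℝ => a * τ + c) := fun j =>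
  ⟨|a| + |c|, by positivity, fun τ => id_lin a c j τ⟩

/-- the partition function -/
theorem grw_rho {δ : ℝ} (hδ : 0 < δ) {ρ : ℝ → ℝ} (hρ : RH δ ρ) :
    GrW (fun τ => if -δ ≤ τ then 1 else 0) ρ := by
  intro j
  have hc : Continuous (iteratedDeriv j ρ) :=
    hρ.smooth.continuous_iteratedDeriv j (by exact_mod_cast le_top)
  obtain ⟨B, hB⟩ := isCompact_Icc.exists_bound_of_continuousOn (s := Set.Icc (-δ) δ)
    hc.continuousOn
  refine ⟨|B| + 1, by positivity, fun τ => ?_⟩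
  rcases lt_or_ge τ (-δ) with h | h
  · have h1 : ρ =ᶠ[𝓝 τ] fun _ => 0 := by
      filter_upwards [Iio_mem_nhds h] with z hz
      exact hρ.zero z (le_of_lt hz)
    rw [h1.iteratedDeriv_eq j]
    simp [not_le.2 h]
  · simp only [h, if_true, mul_one]
    rcases le_or_gt τ δ with h' | h'
    · have := hB τ ⟨h, h'⟩
      rw [Real.norm_eq_abs] at this
      linarith [le_abs_self B]
    · have h1 : ρ =ᶠ[𝓝 τ] fun _ => 1 := by
        filter_upwards [Ioi_mem_nhds h'] with z hz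
        have := hρ.sym z
        rw [hρ.zero (-z) (by linarith [Set.mem_Ioi.1 hz])] at this
        linarith
      rw [h1.iteratedDeriv_eq j]
      rw [iteratedDeriv_const]
      split_ifs <;> simp <;> linarith [abs_nonneg B]

theorem ex_eq (x : ℝ) : Ex x = fun τ => Real.exp (x * τ + -(x / 2)) := by
  funext τ; unfold Ex; rw [sub_eq_add_neg]

theorem ex1_eq (x : ℝ) : Ex1 x = fun τ => (1 * τ + -(1 / 2)) * Real.exp (x * τ + -(x / 2)) := by
  funext τ; unfold Ex1; rw [sub_eq_add_neg, sub_eq_add_neg]; ring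

theorem ph_eq (ρ : ℝ → ℝ) (x : ℝ) : Ph ρ x = fun τ => Real.exp (x * τ + -(x / 2)) * ρ τ +
    Real.exp (-x * τ + -(x / 2)) * ρ τ := by
  funext τ
  unfold Ph
  rw [Real.cosh_eq, Real.exp_add, Real.exp_add, neg_mul]
  ring

theorem ph1_eq (ρ : ℝ → ℝ) (x : ℝ) : Ph1 ρ x = fun τ =>
    (1 * τ + -(1 / 2)) * Real.exp (x * τ + -(x / 2)) * ρ τ +
    (-1 * τ + -(1 / 2)) * Real.exp (-x * τ + -(x / 2)) * ρ τ := by
  funext τ
  unfold Ph1
  rw [Real.cosh_eq, Real.sinh_eq, Real.exp_add, Real.exp_add, neg_mul]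
  ring

theorem cd_ex (x : ℝ) : ContDiff ℝ ((⊤ : ℕ∞) : WithTop ℕ∞) (Ex x) := by
  rw [ex_eq]; exact cd_exp _ _

theorem cd_ex1 (x : ℝ) : ContDiff ℝ ((⊤ : ℕ∞) : WithTop ℕ∞) (Ex1 x) := by
  rw [ex1_eq]; exact (cd_lin _ _).mul (cd_exp _ _)

theorem cd_ph {δ : ℝ} {ρ : ℝ → ℝ} (hρ : RH δ ρ) (x : ℝ) :
    ContDiff ℝ ((⊤ : ℕ∞) : WithTop ℕ∞) (Ph ρ x) := by
  rw [ph_eq]; exact ((cd_exp _ _).mul hρ.smooth).add ((cd_exp _ _).mul hρ.smooth)

theorem cd_ph1 {δ : ℝ} {ρ : ℝ → ℝ} (hρ : RH δ ρ) (x : ℝ) :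
    ContDiff ℝ ((⊤ : ℕ∞) : WithTop ℕ∞) (Ph1 ρ x) := by
  rw [ph1_eq]
  exact (((cd_lin _ _).mul (cd_exp _ _)).mul hρ.smooth).add
    (((cd_lin _ _).mul (cd_exp _ _)).mul hρ.smooth)

theorem gr_ex {x : ℝ} : Gr x (Ex x) := by
  apply GrW.gr
  rw [ex_eq]
  refine (grw_exp x (-(x / 2))).mono zero_le_one (fun τ => ?_)
  rw [one_mul]
  have e : Real.exp (x * τ + -(x / 2)) = 1 * Real.exp (x * (τ - 1 / 2)) := by
    rw [one_mul]; congr 1; ring
  rw [e]
  exact mul_le_mul_of_nonneg_right (by linarith [abs_nonneg τ]) (Real.exp_pos _).le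

theorem grw_ex1 {x : ℝ} : GrW (fun τ => (1 + |τ|) * Real.exp (x * (τ - 1 / 2)))
    (fun τ => (1 * τ + -(1 / 2)) * Real.exp (x * τ + -(x / 2))) := by
  refine (GrW.mul (fun τ => by positivity) (fun τ => (Real.exp_pos _).le) (cd_lin _ _) (cd_exp _ _)
    (grw_lin 1 (-(1 / 2))) (grw_exp x (-(x / 2)))).mono zero_le_one (fun τ => le_of_eq ?_)
  rw [one_mul]
  congr 2
  ring

theorem gr_ex1 {x : ℝ} : Gr x (Ex1 x) := by
  apply GrW.gr
  rw [ex1_eq]
  exact grw_ex1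

theorem ind_nonneg (δ τ : ℝ) : (0 : ℝ) ≤ if -δ ≤ τ then 1 else 0 := by
  split_ifs <;> norm_num

theorem wt_neg {x δ : ℝ} (hx : 0 ≤ x) (τ : ℝ) :
    Real.exp (-x * τ + -(x / 2)) * (if -δ ≤ τ then 1 else 0) ≤
      Real.exp (2 * x * δ) * Real.exp (x * (τ - 1 / 2)) := by
  split_ifs with h
  · rw [mul_one, ← Real.exp_add]
    apply Real.exp_le_exp.2
    nlinarith [mul_le_mul_of_nonneg_left h hx]
  · rw [mul_zero]; positivity

theorem gr_ph {δ : ℝ} (hδ : 0 < δ) {ρ : ℝ → ℝ} (hρ : RH δ ρ) {x : ℝ} (hx : 0 ≤ x) :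
    Gr x (Ph ρ x) := by
  apply GrW.gr
  rw [ph_eq]
  have g1 := GrW.mul (fun τ => (Real.exp_pos _).le) (ind_nonneg δ) (cd_exp _ _) hρ.smooth
    (grw_exp x (-(x / 2))) (grw_rho hδ hρ)
  have g2 := GrW.mul (fun τ => (Real.exp_pos _).le) (ind_nonneg δ) (cd_exp _ _) hρ.smooth
    (grw_exp (-x) (-(x / 2))) (grw_rho hδ hρ)
  refine GrW.add ((cd_exp _ _).mul hρ.smooth) ((cd_exp _ _).mul hρ.smooth) ?_ ?_
  · refine g1.mono zero_le_one (fun τ => ?_)
    have e : Real.exp (x * τ + -(x / 2)) = Real.exp (x * (τ - 1 / 2)) := by congr 1; ring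
    rw [e, one_mul, mul_comm]
    apply mul_le_mul_of_nonneg_right _ (Real.exp_pos _).le
    split_ifs <;> linarith [abs_nonneg τ]
  · refine g2.mono (c := Real.exp (2 * x * δ)) (Real.exp_pos _).le (fun τ => ?_)
    refine (wt_neg hx τ).trans ?_
    apply mul_le_mul_of_nonneg_left _ (Real.exp_pos _).le
    have : 0 < Real.exp (x * (τ - 1 / 2)) := Real.exp_pos _
    nlinarith [abs_nonneg τ]

theorem gr_ph1 {δ : ℝ} (hδ : 0 < δ) {ρ : ℝ → ℝ} (hρ : RH δ ρ) {x : ℝ} (hx : 0 ≤ x) :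
    Gr x (Ph1 ρ x) := by
  apply GrW.gr
  rw [ph1_eq]
  have g1 := GrW.mul (fun τ => by positivity) (ind_nonneg δ)
    ((cd_lin _ _).mul (cd_exp _ _)) hρ.smooth (grw_ex1 (x := x)) (grw_rho hδ hρ)
  have g3 := GrW.mul (fun τ => by positivity) (fun τ => (Real.exp_pos _).le)
    (cd_lin _ _) (cd_exp _ _) (grw_lin (-1) (-(1 / 2))) (grw_exp (-x) (-(x / 2)))
  have g2 := GrW.mul (fun τ => by positivity) (ind_nonneg δ)
    ((cd_lin _ _).mul (cd_exp _ _)) hρ.smooth g3 (grw_rho hδ hρ)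
  refine GrW.add (((cd_lin _ _).mul (cd_exp _ _)).mul hρ.smooth)
    (((cd_lin _ _).mul (cd_exp _ _)).mul hρ.smooth) ?_ ?_
  · refine g1.mono zero_le_one (fun τ => ?_)
    rw [one_mul]
    have h0 : 0 ≤ (1 + |τ|) * Real.exp (x * (τ - 1 / 2)) := by positivity
    split_ifs
    · linarith
    · linarith
  · refine g2.mono (c := Real.exp (2 * x * δ)) (Real.exp_pos _).le (fun τ => ?_)
    have := mul_le_mul_of_nonneg_left (wt_neg (δ := δ) hx τ) (show 0 ≤ 1 + |τ| by positivity)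
    calc (1 + |τ|) * Real.exp (-x * τ + -(x / 2)) * (if -δ ≤ τ then 1 else 0) =
          (1 + |τ|) * (Real.exp (-x * τ + -(x / 2)) * (if -δ ≤ τ then 1 else 0)) := by ring
      _ ≤ _ := this
      _ = _ := by ring

/-- pointwise bounds used for the truncation -/
theorem ph_le {δ : ℝ} {ρ : ℝ → ℝ} (hρ : RH δ ρ) {x L : ℝ} (hx : 0 ≤ x) (hxL : x ≤ L / 2)
    (hL : 4 ≤ L) (τ : ℝ) : |Ph ρ x τ| ≤ 3 * Real.exp (L * |τ|) ∧
      |Ph1 ρ x τ| ≤ 3 * Real.exp (L * |τ|) := by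
  have h1 : |ρ τ| ≤ 1 := abs_le.2 ⟨by linarith [hρ.nonneg τ], hρ.le_one τ⟩
  have h2 : |Real.cosh (x * τ)| ≤ Real.exp (x * |τ|) := by
    rw [← Real.cosh_abs, abs_mul, abs_of_nonneg hx, abs_of_pos (Real.cosh_pos _), Real.cosh_eq]
    have : Real.exp (-(x * |τ|)) ≤ Real.exp (x * |τ|) :=
      Real.exp_le_exp.2 (by linarith [mul_nonneg hx (abs_nonneg τ)])
    linarith
  have h3 : |Real.sinh (x * τ)| ≤ Real.exp (x * |τ|) := by
    rw [Real.abs_sinh, abs_mul, abs_of_nonneg hx, Real.sinh_eq]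
    have h9 := Real.exp_pos (-(x * |τ|))
    have h10 := Real.exp_pos (x * |τ|)
    linarith
  have h4 : |Real.exp (-(x / 2))| ≤ 1 := by
    rw [abs_of_pos (Real.exp_pos _)]
    exact Real.exp_le_one_iff.2 (by linarith)
  have h5 : Real.exp (x * |τ|) ≤ Real.exp (L * |τ|) :=
    Real.exp_le_exp.2 (mul_le_mul_of_nonneg_right (by linarith) (abs_nonneg τ))
  have h6 : (2 * |τ| + 1) * Real.exp (x * |τ|) ≤ Real.exp (L * |τ|) := by
    have h7 : 2 * |τ| + 1 ≤ Real.exp (2 * |τ|) := Real.add_one_le_exp _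
    calc (2 * |τ| + 1) * Real.exp (x * |τ|) ≤ Real.exp (2 * |τ|) * Real.exp (x * |τ|) :=
          mul_le_mul_of_nonneg_right h7 (Real.exp_pos _).le
      _ = Real.exp ((2 + x) * |τ|) := by rw [← Real.exp_add]; ring_nf
      _ ≤ _ := Real.exp_le_exp.2 (mul_le_mul_of_nonneg_right (by linarith) (abs_nonneg τ))
  have h8 := Real.exp_pos (L * |τ|)
  constructor
  · unfold Ph
    rw [abs_mul, abs_mul, abs_mul, abs_two]
    calc |Real.exp (-(x / 2))| * (2 * |Real.cosh (x * τ)|) * |ρ τ| ≤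
          1 * (2 * Real.exp (x * |τ|)) * 1 := by
          apply mul_le_mul _ h1 (abs_nonneg _) (by positivity)
          apply mul_le_mul h4 _ (by positivity) zero_le_one
          linarith
      _ ≤ _ := by linarith
  · unfold Ph1
    rw [abs_mul, abs_mul]
    have h10 : |2 * τ * Real.sinh (x * τ) - Real.cosh (x * τ)| ≤
        (2 * |τ| + 1) * Real.exp (x * |τ|) := by
      refine (abs_sub _ _).trans ?_
      rw [abs_mul, abs_mul, abs_two]
      have := mul_le_mul_of_nonneg_left h3 (show 0 ≤ 2 * |τ| by positivity)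
      linarith
    calc |Real.exp (-(x / 2))| * |2 * τ * Real.sinh (x * τ) - Real.cosh (x * τ)| * |ρ τ| ≤
          1 * ((2 * |τ| + 1) * Real.exp (x * |τ|)) * 1 := by
          apply mul_le_mul _ h1 (abs_nonneg _) (by positivity)
          apply mul_le_mul h4 h10 (by positivity) zero_le_one
      _ ≤ _ := by linarith

/-- mollifier weights -/
theorem q_bd {x : ℝ} (hx : 0 ≤ x) (k : ℕ) :
    (∀ j ≤ k, ∀ t, -1 ≤ t → t ≤ 1 → |iteratedDeriv j (fun t => Real.exp (-(x * t))) t| ≤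
      2 ^ k * 4 * (1 + x) ^ k * Real.exp (-(x * t))) ∧
    (∀ j ≤ k, ∀ t, -1 ≤ t → t ≤ 1 → |iteratedDeriv j (fun t => -t * Real.exp (-(x * t))) t| ≤
      2 ^ k * 4 * (1 + x) ^ k * Real.exp (-(x * t))) := by
  have e1 : (fun t : ℝ => Real.exp (-(x * t))) = fun t => Real.exp (-x * t + 0) := by
    funext t; congr 1; ring
  have e2 : (fun t : ℝ => -t * Real.exp (-(x * t))) = fun t => (-1 * t + 0) * Real.exp (-x * t + 0) := by
    funext t; congr 1
    · ring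
    · congr 1; ring
  have b1 : ∀ j ≤ k, ∀ t, |iteratedDeriv j (fun t => Real.exp (-x * t + 0)) t| ≤
      (1 + x) ^ k * Real.exp (-(x * t)) := by
    intro j hj t
    rw [id_exp, abs_mul, abs_pow, abs_neg, abs_of_nonneg hx, abs_of_pos (Real.exp_pos _)]
    have : Real.exp (-x * t + 0) = Real.exp (-(x * t)) := by congr 1; ring
    rw [this]
    apply mul_le_mul_of_nonneg_right _ (Real.exp_pos _).le
    calc x ^ j ≤ (1 + x) ^ j := pow_le_pow_left₀ hx (by linarith) j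
      _ ≤ (1 + x) ^ k := pow_le_pow_right₀ (by linarith) hj
  constructor
  · intro j hj t _ _
    rw [e1]
    refine (b1 j hj t).trans ?_
    have h2 : (1 : ℝ) ≤ 2 ^ k * 4 := by
      have : (1 : ℝ) ≤ 2 ^ k := one_le_pow₀ (by norm_num)
      linarith
    have h3 : 0 ≤ (1 + x) ^ k * Real.exp (-(x * t)) := by positivity
    nlinarith
  · intro j hj t h1 h2
    rw [e2]
    have h3 : |t| ≤ 1 := abs_le.2 ⟨h1, h2⟩
    have := idmul (cd_lin (-1) 0) (cd_exp (-x) 0) (t := t) (k := k) (Bf := 2)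
      (Bg := (1 + x) ^ k * Real.exp (-(x * t)))
      (fun i _ => by
        refine (id_lin (-1) 0 i t).trans ?_
        rw [abs_neg, abs_one, abs_zero]
        linarith) (fun i hi => b1 i hi t) j hj
    refine this.trans ?_
    have h4 : 0 ≤ 2 ^ k * ((1 + x) ^ k * Real.exp (-(x * t))) := by positivity
    nlinarith

/-- polynomials against exponentials -/
theorem poly_exp (N : ℕ) {c : ℝ} (hc : 0 < c) : ∃ C : ℝ, 0 < C ∧ ∀ x : ℝ, 0 ≤ x →
    (1 + x) ^ N * Real.exp (-(2 * c * x)) ≤ C * Real.exp (-(c * x)) := by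
  refine ⟨N.factorial / c ^ N * Real.exp c, by positivity, ?_⟩
  intro x hx
  have h1 := Real.pow_div_factorial_le_exp (c * (1 + x)) (by positivity) N
  rw [mul_pow, div_le_iff₀ (by positivity)] at h1
  have h2 : (1 + x) ^ N ≤ N.factorial / c ^ N * Real.exp c * Real.exp (c * x) := by
    have h3 : Real.exp (c * (1 + x)) = Real.exp c * Real.exp (c * x) := by
      rw [← Real.exp_add]; congr 1; ring
    rw [h3] at h1
    rw [mul_assoc, div_mul_eq_mul_div, le_div_iff₀ (by positivity)]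
    linarith
  have h4 : Real.exp (-(c * x)) = Real.exp (c * x) * Real.exp (-(2 * c * x)) := by
    rw [← Real.exp_add]; congr 1; ring
  rw [h4]
  have := mul_le_mul_of_nonneg_right h2 (Real.exp_pos (-(2 * c * x))).le
  linarith

end

end Pool.Agent.H704R2.RZ2_TR1
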