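import Pool.Agent.H704R2.RZ2_TR1c
import Pool.Agent.H704R2.RZ2_TR1d
import Pool.Agent.H739R4.RZ2_C7
import Pool.Agent.H418R2.RZ.RZ2_C8
import Pool.Agent.H692R2.RZ2_W0
import Pool.Agent.H330R2.RZ2_TRw
import Pool.Agent.H615R2.RZ2_TRa

set_option autoImplicit false
set_option maxHeartbeats 4000000

namespace Pool.Agent.H704R2.RZ2_TR1

open Finset Filter Topology MeasureTheory
open Pool.Agent.H306R2.RZ

noncomputable section

/-- `KW(Ex1 x)(y) = (K' - y K) e^{-xy}` -/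
theorem kw_ex1 (d : ℕ) (hd : d ≠ 0) (L : ℝ) (hL : 0 < L) (x : ℝ) (hx : 0 < x) (y : ℝ) :
    KW L (be L d) (Ex1 x) y = (KW L (be L d) (Ex1 x) 0 - y * Kd L d x) * Real.exp (-(x * y)) := by
  have h1 := (Pool.Agent.H739R4.RZ2.C7 d hd L hL x hx.le y).2
  have h2 := (Pool.Agent.H739R4.RZ2.C7 d hd L hL x hx.le 0).2
  have h3 : (fun z => KW L (be L d) (Ex z) y) =ᶠ[𝓝 x]
      fun z => KW L (be L d) (Ex z) 0 * Real.exp (-(z * y)) := by
    filter_upwards [Ioi_mem_nhds hx] with z hz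
    have hz0 : 0 ≤ z := le_of_lt hz
    rw [(Pool.Agent.H739R4.RZ2.C7 d hd L hL z hz0 y).1, (Pool.Agent.H739R4.RZ2.C7 d hd L hL z hz0 0).1]
    simp
  have h4 : HasDerivAt (fun z : ℝ => Real.exp (-(z * y))) (Real.exp (-(x * y)) * (-y)) x := by
    have h5 : HasDerivAt (fun z : ℝ => -(z * y)) (-y) x := by
      exact (hasDerivAt_mul_const y (x := x)).fun_neg
    exact h5.exp
  have h6 := (h2.mul h4).congr_of_eventuallyEq h3
  have h7 := h1.unique h6
  have h8 : KW L (be L d) (Ex x) 0 = Kd L d x := by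
    rw [(Pool.Agent.H739R4.RZ2.C7 d hd L hL x hx.le 0).1]; simp
  rw [h7, h8]
  ring

theorem ed_zero (q : ℕ) (L : ℝ) (η : ℝ → ℝ) (d : ℕ) :
    Ed q L (fun _ => 0) (fun _ => 0) η d = 0 := by
  unfold Ed
  simp

/-- `TR1`, with the statements of `UBA` and `SUP` as hypotheses -/
theorem TR1_of (hUBA : Pool.Agent.H708R2.RZSBU.UBAs) (hSUP : Pool.Agent.H648R2.RZSBE.SUPst)
    (F : ℝ → ℝ) (hF : TF F) (hF0 : ∀ x, 0 ≤ F x) (δ e θ : ℝ) (hδ : 0 < δ)
    (hδ1 : δ ≤ 1 / 64) (he : 0 < e) (he1 : e ≤ θ / 100) (hA : Adm (1 / 2 + 3 * δ) θ)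
    (ρ r κ : ℝ → ℝ) (hρ : RH δ ρ) (hr : ST (θ / 4) θ r) (hκ : KP δ e κ) :
    ∃ C c0 L0 : ℝ, 0 < C ∧ 0 < c0 ∧ ∀ L : ℝ, L0 ≤ L → ∀ x : ℝ, 1 ≤ x → x ≤ L / 2 →
      EF F (Real.exp L) (fun d => Gu L ρ r κ d x ^ 2) ≤ C * Real.exp (-(c0 * x)) ∧
      EF F (Real.exp L) (fun d => Gu1 L ρ r κ d x ^ 2) ≤ C * Real.exp (-(c0 * x)) := by
  have hθ := hA.hθ
  have hθ1 := hA.hθ1
  obtain ⟨_, _, hW⟩ := Pool.Agent.H692R2.RZ2W0.W0
  obtain ⟨p, hp⟩ := hW (θ / 32) (θ / 16) (by linarith)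
  obtain ⟨χ, hχ⟩ := hW (θ / 8) (θ / 4) (by linarith)
  obtain ⟨ζ, hζ⟩ := hW (-1) (-(1 / 2)) (by norm_num)
  set η : ℝ → ℝ := fun u => χ u * (1 - ζ u) with hηdef
  have hη : ∃ u, Wt u η := by
    refine ⟨θ / 4, hχ.smooth.mul (contDiff_const.sub hζ.smooth), fun y hy => ⟨?_, ?_⟩⟩
    · by_contra h
      exact right_ne_zero_of_mul hy (by rw [hζ.one y (by linarith)]; ring)
    · by_contra h
      exact left_ne_zero_of_mul hy (hχ.zero y (by linarith))
  have hη1 : ∀ u, 0 ≤ u → u ≤ θ / 8 → η u = 1 := by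
    intro u h1 h2
    simp only [hηdef]
    rw [hχ.one u h2, hζ.zero u (by linarith)]
    norm_num
  have hη2 : ∀ u, θ / 4 ≤ u → η u = 0 := by
    intro u h1
    simp only [hηdef]
    rw [hχ.zero u h1, zero_mul]
  obtain ⟨_, _, b, L1, _, hb, hC8⟩ := Pool.Agent.H418R2.RZ.C8.C8 F hF
  have hbe : ∃ L0 : ℝ, ∀ L : ℝ, L0 ≤ L → ∀ d : ℕ, F ((d : ℝ) / Real.exp L) ≠ 0 →
      |be L d| ≤ b / L := ⟨L1, fun L hL d hd => (hC8 L hL d hd).1⟩
  obtain ⟨C1, L2, k, hC1, hcore⟩ := core hUBA hSUP F hF hF0 δ e θ hδ he he1 hA r κ hr hκ b hb.le hbe p hp η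
    hη hη1
  obtain ⟨C2, L3, hC2, hL3, hTRw⟩ := Pool.Agent.H330R2.RZ2.TRw_of Pool.Agent.H831R2.RZ2KB.KB δ b hδ (by linarith) hb.le ρ hρ (k + 1)
  obtain ⟨C3, hC3, hpe⟩ := poly_exp (4 * k + 2) (c := θ / 100) (by positivity)
  set A := C1 * (C2 + 3) ^ 2 * (2 ^ k * 4) ^ 2 * C3 with hAdef
  have hA0 : 0 < A := by positivity
  refine ⟨4 * A, θ / 100, max 4 (max L2 L3), by positivity, by positivity, ?_⟩
  intro L hL x hx hxL
  have hL4 : 4 ≤ L := (le_max_left _ _).trans hL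
  have hLL := (le_max_right _ _).trans hL
  have hLa : L2 ≤ L := (le_max_left _ _).trans hLL
  have hLb : L3 ≤ L := (le_max_right _ _).trans hLL
  have hL0 : 0 < L := by linarith
  have hx0 : 0 ≤ x := by linarith
  have hX : 0 < Real.exp L := Real.exp_pos L
  have hpow : (1 : ℝ) ≤ (1 + x) ^ (k + 1) := one_le_pow₀ (by linarith)
  set M := (C2 + 3) * (1 + x) ^ (k + 1) with hM
  set M' := 2 ^ k * 4 * (1 + x) ^ k with hM'
  have hM0 : 0 ≤ M := by positivity
  have hM0' : 0 ≤ M' := by positivity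
  have hM3 : 3 ≤ M := by
    rw [hM]; nlinarith
  have hMC : C2 * (1 + x) ^ (k + 1) ≤ M := by
    rw [hM]; nlinarith
  -- the bound for the final constant
  have fin : C1 * M ^ 2 * M' ^ 2 * Real.exp (-(θ / 50 * x)) ≤ A * Real.exp (-(θ / 100 * x)) := by
    have h1 := hpe x hx0
    have h2 : -(2 * (θ / 100) * x) = -(θ / 50 * x) := by ring
    rw [h2] at h1
    have h3 : C1 * M ^ 2 * M' ^ 2 * Real.exp (-(θ / 50 * x)) =
        C1 * (C2 + 3) ^ 2 * (2 ^ k * 4) ^ 2 * ((1 + x) ^ (4 * k + 2) *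
          Real.exp (-(θ / 50 * x))) := by
      rw [hM, hM']
      ring
    rw [h3, hAdef]
    have := mul_le_mul_of_nonneg_left h1 (show 0 ≤ C1 * (C2 + 3) ^ 2 * (2 ^ k * 4) ^ 2 by positivity)
    linarith
  have lift : ∀ {a y u : ℝ}, 0 ≤ u → a ≤ C2 * (1 + x) ^ (k + 1) * (1 + |y|) * u →
      a ≤ M * (1 + |y|) * u := by
    intro a y u hu h
    refine h.trans ?_
    apply mul_le_mul_of_nonneg_right _ hu
    exact mul_le_mul_of_nonneg_right hMC (by positivity)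
  have Pb : ∀ τ, |Ph ρ x τ| ≤ M * Real.exp (L * |τ|) := fun τ =>
    (ph_le hρ hx0 hxL hL4 τ).1.trans (mul_le_mul_of_nonneg_right hM3 (Real.exp_pos _).le)
  have Pb1 : ∀ τ, |Ph1 ρ x τ| ≤ M * Real.exp (L * |τ|) := fun τ =>
    (ph_le hρ hx0 hxL hL4 τ).2.trans (mul_le_mul_of_nonneg_right hM3 (Real.exp_pos _).le)
  have Pz : ∀ τ, τ ≤ -δ → Ph ρ x τ = 0 := fun τ h => by
    unfold Ph; rw [hρ.zero τ h, mul_zero]
  have Pz1 : ∀ τ, τ ≤ -δ → Ph1 ρ x τ = 0 := fun τ h => by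
    unfold Ph1; rw [hρ.zero τ h, mul_zero]
  have cq0 : ContDiff ℝ ((⊤ : ℕ∞) : WithTop ℕ∞) (fun t : ℝ => Real.exp (-(x * t))) := by fun_prop
  have cq1 : ContDiff ℝ ((⊤ : ℕ∞) : WithTop ℕ∞) (fun t : ℝ => -t * Real.exp (-(x * t))) := by
    fun_prop
  obtain ⟨qb0, qb1⟩ := q_bd hx0 k
  -- the three differences
  have D0 := hcore L x (Ex x) (Ph ρ x) (fun t => Real.exp (-(x * t))) M M' hLa hx hxL hM0 hM0'
    (cd_ex x) (cd_ph hρ x) gr_ex (gr_ph hδ hρ hx0) Pz Pb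
    (fun β hβ j hj y => lift (Real.exp_pos _).le (hTRw L β x hLb hβ hx hxL j y hj).1)
    (fun β hβ j hj y => lift (Real.exp_pos _).le (hTRw L β x hLb hβ hx hxL j y hj).2.2.1)
    cq0 qb0
  have D1 := hcore L x (Ex1 x) (Ph1 ρ x) (fun t => Real.exp (-(x * t))) M M' hLa hx hxL hM0 hM0'
    (cd_ex1 x) (cd_ph1 hρ x) gr_ex1 (gr_ph1 hδ hρ hx0) Pz1 Pb1
    (fun β hβ j hj y => lift (Real.exp_pos _).le (hTRw L β x hLb hβ hx hxL j y hj).2.1)
    (fun β hβ j hj y => lift (Real.exp_pos _).le (hTRw L β x hLb hβ hx hxL j y hj).2.2.2)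
    cq0 qb0
  have D2 := hcore L x (Ex x) (Ph ρ x) (fun t => -t * Real.exp (-(x * t))) M M' hLa hx hxL hM0 hM0'
    (cd_ex x) (cd_ph hρ x) gr_ex (gr_ph hδ hρ hx0) Pz Pb
    (fun β hβ j hj y => lift (Real.exp_pos _).le (hTRw L β x hLb hβ hx hxL j y hj).1)
    (fun β hβ j hj y => lift (Real.exp_pos _).le (hTRw L β x hLb hβ hx hxL j y hj).2.2.1)
    cq1 qb1
  have D0' := D0.trans fin
  have D1' := D1.trans fin
  have D2' := D2.trans fin
  -- values of the cutoffs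
  have κ1 : ∀ y, 0 ≤ y → y ≤ θ / 4 → κ y = 1 := fun y h1 h2 =>
    hκ.one y (by linarith) (by linarith)
  have r1 : ∀ y, y ≤ θ / 4 → r y = 1 := fun y h => hr.one y h
  have hη0 : η 0 = 1 := hη1 0 le_rfl (by positivity)
  constructor
  · refine le_trans (ef_mono hF hF0 hX (g := fun d => (Ed 2 L (fun y => KW L (be L d) (Ex x) y * κ y)
        (fun t => Real.exp (-(x * t)) * r t * κ t) η d - Nf L (KW L (be L d) (Ph ρ x)) d *
          Md 2 L (fun t => Real.exp (-(x * t)) * r t * κ t) d) ^ 2) ?_) (D0'.trans ?_)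
    · intro d hd _
      have hd0 : d ≠ 0 := by rintro rfl; simp at hd
      have h1 := Pool.Agent.H615R2.RZTRa.TRa L hL0 (fun y => KW L (be L d) (Ex x) y * κ y)
        (fun t => Real.exp (-(x * t)) * r t * κ t) (fun _ => 0) (fun _ => 0) η
        (fun u => Kd L d x * Real.exp (-(x * u))) (θ / 4) (by
          intro y t hy ht hyt
          rw [(Pool.Agent.H739R4.RZ2.C7 d hd0 L hL0 x hx0 y).1, κ1 y hy (by linarith), κ1 t ht (by linarith),
            r1 t (by linarith)]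
          rw [mul_zero, add_zero, mul_one, mul_one, mul_one, mul_assoc, ← Real.exp_add]
          congr 2
          ring) hη2 d
      rw [ed_zero, add_zero, hη0] at h1
      apply le_of_eq
      rw [h1]
      unfold Gu
      simp
    · have : 0 ≤ A * Real.exp (-(θ / 100 * x)) := by positivity
      linarith
  · refine le_trans (ef_mono hF hF0 hX (g := fun d => 2 * ((Ed 2 L
        (fun y => KW L (be L d) (Ex1 x) y * κ y)
        (fun t => Real.exp (-(x * t)) * r t * κ t) η d - Nf L (KW L (be L d) (Ph1 ρ x)) d *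
          Md 2 L (fun t => Real.exp (-(x * t)) * r t * κ t) d) ^ 2 +
        (Ed 2 L (fun y => KW L (be L d) (Ex x) y * κ y)
        (fun t => -t * Real.exp (-(x * t)) * r t * κ t) η d - Nf L (KW L (be L d) (Ph ρ x)) d *
          Md 2 L (fun t => -t * Real.exp (-(x * t)) * r t * κ t) d) ^ 2)) ?_) ?_
    · intro d hd _
      have hd0 : d ≠ 0 := by rintro rfl; simp at hd
      have h1 := Pool.Agent.H615R2.RZTRa.TRa L hL0 (fun y => KW L (be L d) (Ex1 x) y * κ y)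
        (fun t => Real.exp (-(x * t)) * r t * κ t) (fun y => KW L (be L d) (Ex x) y * κ y)
        (fun t => -t * Real.exp (-(x * t)) * r t * κ t) η
        (fun u => (KW L (be L d) (Ex1 x) 0 - u * Kd L d x) * Real.exp (-(x * u))) (θ / 4) (by
          intro y t hy ht hyt
          rw [kw_ex1 d hd0 L hL0 x (by linarith) y,
            (Pool.Agent.H739R4.RZ2.C7 d hd0 L hL0 x hx0 y).1, κ1 y hy (by linarith), κ1 t ht (by linarith),
            r1 t (by linarith)]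
          have e : Real.exp (-(x * (y + t))) = Real.exp (-(x * y)) * Real.exp (-(x * t)) := by
            rw [← Real.exp_add]; congr 1; ring
          rw [e]
          ring) hη2 d
      rw [hη0] at h1
      have h2 : Gu1 L ρ r κ d x = (Ed 2 L
        (fun y => KW L (be L d) (Ex1 x) y * κ y)
        (fun t => Real.exp (-(x * t)) * r t * κ t) η d - Nf L (KW L (be L d) (Ph1 ρ x)) d *
          Md 2 L (fun t => Real.exp (-(x * t)) * r t * κ t) d) +
        (Ed 2 L (fun y => KW L (be L d) (Ex x) y * κ y)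
        (fun t => -t * Real.exp (-(x * t)) * r t * κ t) η d - Nf L (KW L (be L d) (Ph ρ x)) d *
          Md 2 L (fun t => -t * Real.exp (-(x * t)) * r t * κ t) d) := by
        have h3 : Ed 2 L (fun y => KW L (be L d) (Ex1 x) y * κ y)
          (fun t => Real.exp (-(x * t)) * r t * κ t) η d = KW L (be L d) (Ex1 x) 0 -
          Ed 2 L (fun y => KW L (be L d) (Ex x) y * κ y)
            (fun t => -t * Real.exp (-(x * t)) * r t * κ t) η d := by
          have : (KW L (be L d) (Ex1 x) 0 - 0 * Kd L d x) * Real.exp (-(x * 0)) * 1 =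
            KW L (be L d) (Ex1 x) 0 := by simp
          linarith
        rw [h3]
        unfold Gu1
        ring
      rw [h2]
      nlinarith [sq_nonneg ((Ed 2 L
        (fun y => KW L (be L d) (Ex1 x) y * κ y)
        (fun t => Real.exp (-(x * t)) * r t * κ t) η d - Nf L (KW L (be L d) (Ph1 ρ x)) d *
          Md 2 L (fun t => Real.exp (-(x * t)) * r t * κ t) d) -
        (Ed 2 L (fun y => KW L (be L d) (Ex x) y * κ y)
        (fun t => -t * Real.exp (-(x * t)) * r t * κ t) η d - Nf L (KW L (be L d) (Ph ρ x)) d *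
          Md 2 L (fun t => -t * Real.exp (-(x * t)) * r t * κ t) d))]
    · rw [ef_smul, ef_add hF hX]
      linarith

end

end Pool.Agent.H704R2.RZ2_TR1
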