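import Pool.Agent.H306R2.RZ.Defs2

set_option autoImplicit false

/-! Elementary lemmas for TR1 of project RZ. -/

namespace Pool.Agent.H704R2.RZ2_TR1

open Finset Filter Topology MeasureTheory
open Pool.Agent.H306R2.RZ

noncomputable section

/-! ### finite sums over `d` -/

theorem ef_summable {F : ℝ → ℝ} (hF : TF F) {X : ℝ} (hX : 0 < X) (f : ℕ → ℝ) :
    Summable (fun d : ℕ => if Odd d then F ((d : ℝ) / X) * f d else 0) := by
  obtain ⟨R, hR⟩ := hF.cpt.isCompact.isBounded.subset_closedBall 0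
  apply summable_of_ne_finset_zero (s := range (⌊|R| * X⌋₊ + 1))
  intro d hd
  have h1 : F ((d : ℝ) / X) = 0 := by
    by_contra h
    have h2 := hR (subset_tsupport F h)
    rw [mem_closedBall_zero_iff, Real.norm_eq_abs, abs_of_nonneg (by positivity)] at h2
    apply hd
    rw [mem_range]
    have h3 : (d : ℝ) ≤ |R| * X := by
      rw [div_le_iff₀ hX] at h2
      exact h2.trans (mul_le_mul_of_nonneg_right (le_abs_self R) hX.le)
    have := Nat.le_floor h3
    omega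
  simp [h1]

theorem ef_mono {F : ℝ → ℝ} (hF : TF F) (hF0 : ∀ x, 0 ≤ F x) {X : ℝ} (hX : 0 < X) {f g : ℕ → ℝ}
    (h : ∀ d : ℕ, Odd d → F ((d : ℝ) / X) ≠ 0 → f d ≤ g d) : EF F X f ≤ EF F X g := by
  unfold EF
  apply div_le_div_of_nonneg_right _ hX.le
  apply (ef_summable hF hX f).tsum_le_tsum _ (ef_summable hF hX g)
  intro d
  split_ifs with hd
  · by_cases h0 : F ((d : ℝ) / X) = 0
    · simp [h0]
    · exact mul_le_mul_of_nonneg_left (h d hd h0) (hF0 _)
  · exact le_rfl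

theorem ef_add {F : ℝ → ℝ} (hF : TF F) {X : ℝ} (hX : 0 < X) (f g : ℕ → ℝ) :
    EF F X (fun d => f d + g d) = EF F X f + EF F X g := by
  unfold EF
  rw [← add_div, ← (ef_summable hF hX f).tsum_add (ef_summable hF hX g)]
  congr 1
  apply tsum_congr
  intro d
  split_ifs <;> ring

theorem ef_smul (F : ℝ → ℝ) (X : ℝ) (c : ℝ) (f : ℕ → ℝ) :
    EF F X (fun d => c * f d) = c * EF F X f := by
  unfold EF
  rw [mul_div_assoc', ← tsum_mul_left]
  congr 1
  apply tsum_congr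
  intro d
  split_ifs <;> ring

theorem ef_sum {F : ℝ → ℝ} (hF : TF F) {X : ℝ} (hX : 0 < X) {ι : Type*} (s : Finset ι)
    (f : ι → ℕ → ℝ) :
    EF F X (fun d => ∑ i ∈ s, f i d) = ∑ i ∈ s, EF F X (f i) := by
  classical
  induction s using Finset.induction_on with
  | empty =>
    simp [EF]
  | insert a s ha ih =>
    simp only [Finset.sum_insert ha]
    rw [← ih, ← ef_add hF hX]

/-! ### finite sums over `n` -/

theorem fin_n {L s : ℝ} (hL : 0 < L) (n : ℕ) (h : Real.log n / L ≤ s) :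
    n < ⌊Real.exp (s * L)⌋₊ + 1 := by
  rcases Nat.eq_zero_or_pos n with h0 | h0
  · omega
  · have h1 : Real.log n ≤ s * L := by
      rwa [div_le_iff₀ hL] at h
    have h2 : (n : ℝ) ≤ Real.exp (s * L) := by
      rw [← Real.log_le_iff_le_exp (by exact_mod_cast h0)]
      exact h1
    have := Nat.le_floor h2
    omega

theorem nd_summable {L s : ℝ} (hL : 0 < L) {w : ℝ → ℝ} (hw : ∀ y, w y ≠ 0 → y ≤ s) (q : ℕ)
    (d : ℕ) : Summable (fun n : ℕ => if Nat.Coprime n q then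
      js (8 * (d : ℤ)) n / Real.sqrt n * w (Real.log n / L) else 0) := by
  apply summable_of_ne_finset_zero (s := range (⌊Real.exp (s * L)⌋₊ + 1))
  intro n hn
  have : w (Real.log n / L) = 0 := by
    by_contra h
    exact hn (mem_range.2 (fin_n hL n (hw _ h)))
  simp [this]

theorem md_summable {L s : ℝ} (hL : 0 < L) {w : ℝ → ℝ} (hw : ∀ y, w y ≠ 0 → y ≤ s) (q : ℕ)
    (d : ℕ) : Summable (fun n : ℕ => if Nat.Coprime n q then
      ((ArithmeticFunction.moebius n : ℤ) : ℝ) * js (8 * (d : ℤ)) n / Real.sqrt n *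
        w (Real.log n / L) else 0) := by
  apply summable_of_ne_finset_zero (s := range (⌊Real.exp (s * L)⌋₊ + 1))
  intro n hn
  have : w (Real.log n / L) = 0 := by
    by_contra h
    exact hn (mem_range.2 (fin_n hL n (hw _ h)))
  simp [this]

theorem ed_summable {L s : ℝ} (hL : 0 < L) {a b : ℝ → ℝ} (ha : ∀ y, a y ≠ 0 → y ≤ s)
    (hb : ∀ y, b y ≠ 0 → y ≤ s) (η : ℝ → ℝ) (q : ℕ) (d : ℕ) :
    Summable (fun p : ℕ × ℕ => if p.1.Coprime q ∧ p.2.Coprime q then
    ((ArithmeticFunction.moebius p.2 : ℤ) : ℝ) * js (8 * (d : ℤ)) (p.1 * p.2) /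
      Real.sqrt ((p.1 : ℝ) * p.2) * a (Real.log p.1 / L) * b (Real.log p.2 / L) *
      η ((Real.log p.1 + Real.log p.2) / L) else 0) := by
  apply summable_of_ne_finset_zero (s := range (⌊Real.exp (s * L)⌋₊ + 1) ×ˢ
    range (⌊Real.exp (s * L)⌋₊ + 1))
  intro p hp
  have : a (Real.log p.1 / L) = 0 ∨ b (Real.log p.2 / L) = 0 := by
    by_contra h
    push Not at h
    exact hp (mem_product.2 ⟨mem_range.2 (fin_n hL _ (ha _ h.1)),
      mem_range.2 (fin_n hL _ (hb _ h.2))⟩)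
  rcases this with h | h <;> simp [h]

theorem nd_add {L s : ℝ} (hL : 0 < L) {w v : ℝ → ℝ} (hw : ∀ y, w y ≠ 0 → y ≤ s)
    (hv : ∀ y, v y ≠ 0 → y ≤ s) (q : ℕ) (d : ℕ) :
    Nd q L (fun y => w y + v y) d = Nd q L w d + Nd q L v d := by
  unfold Nd
  rw [← (nd_summable hL hw q d).tsum_add (nd_summable hL hv q d)]
  apply tsum_congr
  intro n
  split_ifs <;> ring

theorem md_add {L s : ℝ} (hL : 0 < L) {w v : ℝ → ℝ} (hw : ∀ y, w y ≠ 0 → y ≤ s)
    (hv : ∀ y, v y ≠ 0 → y ≤ s) (q : ℕ) (d : ℕ) :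
    Md q L (fun y => w y + v y) d = Md q L w d + Md q L v d := by
  unfold Md
  rw [← (md_summable hL hw q d).tsum_add (md_summable hL hv q d)]
  apply tsum_congr
  intro n
  split_ifs <;> ring

theorem ed_add_left {L s : ℝ} (hL : 0 < L) {a a' b : ℝ → ℝ} (ha : ∀ y, a y ≠ 0 → y ≤ s)
    (ha' : ∀ y, a' y ≠ 0 → y ≤ s) (hb : ∀ y, b y ≠ 0 → y ≤ s) (η : ℝ → ℝ) (q : ℕ) (d : ℕ) :
    Ed q L (fun y => a y + a' y) b η d = Ed q L a b η d + Ed q L a' b η d := by
  unfold Ed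
  rw [← (ed_summable hL ha hb η q d).tsum_add (ed_summable hL ha' hb η q d)]
  apply tsum_congr
  intro p
  split_ifs <;> ring

theorem ed_add_right {L s : ℝ} (hL : 0 < L) {a b b' : ℝ → ℝ} (ha : ∀ y, a y ≠ 0 → y ≤ s)
    (hb : ∀ y, b y ≠ 0 → y ≤ s) (hb' : ∀ y, b' y ≠ 0 → y ≤ s) (η : ℝ → ℝ) (q : ℕ) (d : ℕ) :
    Ed q L a (fun y => b y + b' y) η d = Ed q L a b η d + Ed q L a b' η d := by
  unfold Ed
  rw [← (ed_summable hL ha hb η q d).tsum_add (ed_summable hL ha hb' η q d)]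
  apply tsum_congr
  intro p
  split_ifs <;> ring

/-- if `η = 1` on the support, the twisted sum is a product -/
theorem ed_split {L s : ℝ} (hL : 0 < L) {a b : ℝ → ℝ} (ha : ∀ y, a y ≠ 0 → y ≤ s)
    (hb : ∀ y, b y ≠ 0 → y ≤ s) (η : ℝ → ℝ)
    (hη : ∀ y t, 0 ≤ y → 0 ≤ t → a y ≠ 0 → b t ≠ 0 → η (y + t) = 1) (q : ℕ) (d : ℕ) :
    Ed q L a b η d = Nd q L a d * Md q L b d := by
  unfold Ed Nd Md
  have hs1 : Summable (fun n : ℕ => ‖(if Nat.Coprime n q then
      js (8 * (d : ℤ)) n / Real.sqrt n * a (Real.log n / L) else 0 : ℝ)‖) :=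
    (nd_summable hL ha q d).norm
  have hs2 : Summable (fun n : ℕ => ‖(if Nat.Coprime n q then
      ((ArithmeticFunction.moebius n : ℤ) : ℝ) * js (8 * (d : ℤ)) n / Real.sqrt n *
        b (Real.log n / L) else 0 : ℝ)‖) :=
    (md_summable hL hb q d).norm
  rw [tsum_mul_tsum_of_summable_norm hs1 hs2]
  apply tsum_congr
  rintro ⟨n, l⟩
  by_cases hn : n.Coprime q
  · by_cases hl : l.Coprime q
    · rw [if_pos ⟨hn, hl⟩, if_pos hn, if_pos hl]
      by_cases h1 : a (Real.log n / L) = 0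
      · simp [h1]
      by_cases h2 : b (Real.log l / L) = 0
      · simp [h2]
      have h3 : η ((Real.log n + Real.log l) / L) = 1 := by
        rw [add_div]
        exact hη _ _ (div_nonneg (Real.log_natCast_nonneg n) hL.le)
          (div_nonneg (Real.log_natCast_nonneg l) hL.le) h1 h2
      rw [h3, Real.sqrt_mul (Nat.cast_nonneg n)]
      rcases Nat.eq_zero_or_pos n with h0 | h0
      · subst h0; simp
      rcases Nat.eq_zero_or_pos l with h0' | h0'
      · subst h0'; simp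
      have h4 : js (8 * (d : ℤ)) (n * l) = js (8 * (d : ℤ)) n * js (8 * (d : ℤ)) l := by
        unfold js
        rw [jacobiSym.mul_right' _ h0.ne' h0'.ne']
        push_cast
        ring
      rw [h4]
      ring
    · simp [hl]
  · simp [hn]

/-! ### integrability of the kernel integral -/

theorem abs_log_le {u : ℝ} (hu : 0 < u) : |Real.log u| ≤ 8 * u ^ (-(1 / 8) : ℝ) + u := by
  have h1 : Real.log u ≤ u := (Real.log_le_sub_one_of_pos hu).trans (by linarith)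
  have h2 : -Real.log u ≤ 8 * u ^ (-(1 / 8) : ℝ) := by
    have := Real.log_le_rpow_div (x := u⁻¹) (inv_pos.2 hu).le (ε := 1 / 8) (by norm_num)
    rw [Real.log_inv, Real.inv_rpow hu.le, ← Real.rpow_neg hu.le] at this
    linarith
  have h3 : 0 ≤ u ^ (-(1 / 8) : ℝ) := Real.rpow_nonneg hu.le _
  rw [abs_le]
  constructor <;> linarith

theorem rpow_le_one_add {u a : ℝ} (hu : 0 < u) (ha : 0 ≤ a) (ha1 : a ≤ 1) :
    u ^ a ≤ 1 + u := by
  rcases le_total u 1 with h | h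
  · have := Real.rpow_le_one hu.le h ha
    linarith
  · have := Real.rpow_le_rpow_of_exponent_le h ha1
    rw [Real.rpow_one] at this
    linarith

theorem kw_dom {Φ : ℝ → ℝ} {B x L β y v : ℝ} (hB : ∀ τ, |Φ τ| ≤ B * (1 + |τ|) *
    Real.exp (x * (τ - 1 / 2))) (hx : 0 ≤ x) (hxL : x ≤ L / 2) (hL : 1 ≤ L) (hv : 0 < v) :
    |Real.exp (-(Real.pi * v)) * v ^ (-(3 / 4) : ℝ) * Φ (TV L β v - y)| ≤
      (|B| * Real.exp (x * (β - y)) * (9 * (3 / 2 + |β - y| + 16))) *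
        (Real.exp (-v) * v ^ ((1 / 8 : ℝ) - 1) + Real.exp (-v) * v ^ ((9 / 4 : ℝ) - 1)) := by
  have hL0 : 0 < L := by linarith
  have hu : 0 < 8 * v := by linarith
  set u := 8 * v with hudef
  set c := β - y with hc
  set K := 3 / 2 + |c| with hK
  have hKpos : 0 < K := by rw [hK]; positivity
  have hTV : TV L β v - y = 1 / 2 + c + Real.log u / (2 * L) := by
    unfold TV; rw [hc]; ring
  have hexp : Real.exp (x * (TV L β v - y - 1 / 2)) = Real.exp (x * c) * u ^ (x / (2 * L)) := by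
    rw [hTV, Real.rpow_def_of_pos hu, ← Real.exp_add]
    congr 1
    field_simp
    ring
  have h1 : u ^ (x / (2 * L)) ≤ 1 + u := by
    apply rpow_le_one_add hu (by positivity)
    rw [div_le_one (by positivity)]
    linarith
  have h2 : 1 + |TV L β v - y| ≤ K + (8 * u ^ (-(1 / 8) : ℝ) + u) := by
    rw [hTV]
    have h3 : |1 / 2 + c + Real.log u / (2 * L)| ≤ 1 / 2 + |c| + |Real.log u| / (2 * L) := by
      refine (abs_add_le _ _).trans ?_
      rw [abs_div, abs_of_pos (show 0 < 2 * L by positivity)]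
      have := abs_add_le (1 / 2) c
      rw [abs_of_pos (show (0 : ℝ) < 1 / 2 by norm_num)] at this
      linarith
    have h4 : |Real.log u| / (2 * L) ≤ |Real.log u| := by
      apply div_le_self (abs_nonneg _)
      linarith
    have := abs_log_le hu
    linarith
  have h5 : u ^ (-(1 / 8) : ℝ) ≤ v ^ (-(1 / 8) : ℝ) :=
    Real.rpow_le_rpow_of_nonpos hv (by rw [hudef]; linarith) (by norm_num)
  -- the polynomial bound
  have h6 : (K + (8 * v ^ (-(1 / 8) : ℝ) + 8 * v)) * (1 + 8 * v) ≤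
      (9 * (K + 16)) * (v ^ (-(1 / 8) : ℝ) + v ^ (2 : ℝ)) := by
    rcases le_total v 1 with h | h
    · have a1 : 1 ≤ v ^ (-(1 / 8) : ℝ) := Real.one_le_rpow_of_pos_of_le_one_of_nonpos hv h (by norm_num)
      have a2 : 0 ≤ v ^ (2 : ℝ) := Real.rpow_nonneg hv.le _
      set w := v ^ (-(1 / 8) : ℝ)
      have a3 : K + (8 * w + 8 * v) ≤ (K + 16) * w := by nlinarith
      have a4 : 1 + 8 * v ≤ 9 := by linarith
      calc (K + (8 * w + 8 * v)) * (1 + 8 * v) ≤ ((K + 16) * w) * 9 := by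
            apply mul_le_mul a3 a4 (by positivity) (by positivity)
        _ ≤ _ := by
          have : 0 ≤ 9 * (K + 16) * v ^ (2 : ℝ) := by positivity
          nlinarith
    · have a1 : v ^ (-(1 / 8) : ℝ) ≤ 1 := Real.rpow_le_one_of_one_le_of_nonpos h (by norm_num)
      have a2 : 0 ≤ v ^ (-(1 / 8) : ℝ) := Real.rpow_nonneg hv.le _
      have a5 : v ^ (2 : ℝ) = v * v := by
        rw [show (2 : ℝ) = ((2 : ℕ) : ℝ) by norm_num, Real.rpow_natCast]; ring
      set w := v ^ (-(1 / 8) : ℝ)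
      have a3 : K + (8 * w + 8 * v) ≤ (K + 16) * v := by nlinarith
      have a4 : 1 + 8 * v ≤ 9 * v := by linarith
      rw [a5]
      calc (K + (8 * w + 8 * v)) * (1 + 8 * v) ≤ ((K + 16) * v) * (9 * v) := by
            apply mul_le_mul a3 a4 (by positivity) (by positivity)
        _ ≤ _ := by
          have : 0 ≤ 9 * (K + 16) * w := by positivity
          nlinarith
  have h7 : |Φ (TV L β v - y)| ≤ |B| * Real.exp (x * c) *
      ((9 * (K + 16)) * (v ^ (-(1 / 8) : ℝ) + v ^ (2 : ℝ))) := by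
    calc |Φ (TV L β v - y)| ≤ B * (1 + |TV L β v - y|) *
          Real.exp (x * (TV L β v - y - 1 / 2)) := hB _
      _ ≤ |B| * (1 + |TV L β v - y|) * (Real.exp (x * c) * u ^ (x / (2 * L))) := by
          rw [hexp]
          apply mul_le_mul_of_nonneg_right _ (by positivity)
          exact mul_le_mul_of_nonneg_right (le_abs_self B) (by positivity)
      _ = |B| * Real.exp (x * c) * ((1 + |TV L β v - y|) * u ^ (x / (2 * L))) := by ring
      _ ≤ |B| * Real.exp (x * c) * ((K + (8 * v ^ (-(1 / 8) : ℝ) + 8 * v)) * (1 + 8 * v)) := by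
          apply mul_le_mul_of_nonneg_left _ (by positivity)
          apply mul_le_mul _ h1 (by positivity) (by positivity)
          linarith
      _ ≤ _ := mul_le_mul_of_nonneg_left h6 (by positivity)
  rw [abs_mul, abs_of_pos (show 0 < Real.exp (-(Real.pi * v)) * v ^ (-(3 / 4) : ℝ) by positivity)]
  have h8 : Real.exp (-(Real.pi * v)) ≤ Real.exp (-v) := by
    apply Real.exp_le_exp.2
    nlinarith [Real.pi_gt_three]
  have e1 : v ^ (-(3 / 4) : ℝ) * v ^ (-(1 / 8) : ℝ) = v ^ ((1 / 8 : ℝ) - 1) := by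
    rw [← Real.rpow_add hv]; norm_num
  have e2 : v ^ (-(3 / 4) : ℝ) * v ^ (2 : ℝ) = v ^ ((9 / 4 : ℝ) - 1) := by
    rw [← Real.rpow_add hv]; norm_num
  calc Real.exp (-(Real.pi * v)) * v ^ (-(3 / 4) : ℝ) * |Φ (TV L β v - y)|
      ≤ Real.exp (-v) * v ^ (-(3 / 4) : ℝ) * (|B| * Real.exp (x * c) *
      ((9 * (K + 16)) * (v ^ (-(1 / 8) : ℝ) + v ^ (2 : ℝ)))) := by
        apply mul_le_mul _ h7 (abs_nonneg _) (by positivity)
        exact mul_le_mul_of_nonneg_right h8 (by positivity)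
    _ = |B| * Real.exp (x * c) * (9 * (K + 16)) *
      (Real.exp (-v) * (v ^ (-(3 / 4) : ℝ) * v ^ (-(1 / 8) : ℝ)) +
        Real.exp (-v) * (v ^ (-(3 / 4) : ℝ) * v ^ (2 : ℝ))) := by ring
    _ = _ := by rw [e1, e2]

theorem kw_int {Φ : ℝ → ℝ} (hΦ : Continuous Φ) {B x L β y : ℝ} (hB : ∀ τ, |Φ τ| ≤ B * (1 + |τ|) *
    Real.exp (x * (τ - 1 / 2))) (hx : 0 ≤ x) (hxL : x ≤ L / 2) (hL : 1 ≤ L) :
    IntegrableOn (fun v : ℝ => Real.exp (-(Real.pi * v)) * v ^ (-(3 / 4) : ℝ) *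
      Φ (TV L β v - y)) (Set.Ioi 0) := by
  have hd : IntegrableOn (fun v : ℝ => (|B| * Real.exp (x * (β - y)) *
      (9 * (3 / 2 + |β - y| + 16))) *
        (Real.exp (-v) * v ^ ((1 / 8 : ℝ) - 1) + Real.exp (-v) * v ^ ((9 / 4 : ℝ) - 1)))
        (Set.Ioi 0) :=
    (((Real.GammaIntegral_convergent (s := 1 / 8) (by norm_num)).add
      (Real.GammaIntegral_convergent (s := 9 / 4) (by norm_num))).const_mul _)
  refine Integrable.mono' hd ?_ ?_
  · apply Measurable.aestronglyMeasurable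
    unfold TV
    have := hΦ.measurable
    fun_prop
  · refine (ae_restrict_iff' measurableSet_Ioi).2 (Eventually.of_forall fun v hv => ?_)
    rw [Real.norm_eq_abs]
    exact kw_dom hB hx hxL hL hv

theorem kw_sub {Φ Ψ : ℝ → ℝ} (hΦ : Continuous Φ) (hΨ : Continuous Ψ) {B B' x L β : ℝ}
    (hB : ∀ τ, |Φ τ| ≤ B * (1 + |τ|) * Real.exp (x * (τ - 1 / 2)))
    (hB' : ∀ τ, |Ψ τ| ≤ B' * (1 + |τ|) * Real.exp (x * (τ - 1 / 2)))
    (hx : 0 ≤ x) (hxL : x ≤ L / 2) (hL : 1 ≤ L) (y : ℝ) :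
    KW L β (fun τ => Φ τ - Ψ τ) y = KW L β Φ y - KW L β Ψ y := by
  unfold KW
  rw [← sub_div, ← integral_sub (kw_int hΦ hB hx hxL hL) (kw_int hΨ hB' hx hxL hL)]
  congr 1
  apply integral_congr_ae
  refine Eventually.of_forall fun v => ?_
  simp only
  ring

/-! ### derivatives of products -/

theorem idmul {f g : ℝ → ℝ} (hf : ContDiff ℝ ((⊤ : ℕ∞) : WithTop ℕ∞) f)
    (hg : ContDiff ℝ ((⊤ : ℕ∞) : WithTop ℕ∞) g) {k : ℕ} {t Bf Bg : ℝ}
    (h1 : ∀ j ≤ k, |iteratedDeriv j f t| ≤ Bf) (h2 : ∀ j ≤ k, |iteratedDeriv j g t| ≤ Bg) :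
    ∀ j ≤ k, |iteratedDeriv j (fun y => f y * g y) t| ≤ 2 ^ k * Bf * Bg := by
  intro j hj
  have hBf : 0 ≤ Bf := (abs_nonneg _).trans (h1 0 (Nat.zero_le _))
  have hBg : 0 ≤ Bg := (abs_nonneg _).trans (h2 0 (Nat.zero_le _))
  have h3 := norm_iteratedFDeriv_mul_le (𝕜 := ℝ) (hf) (hg) t (n := j)
    (by exact_mod_cast le_top)
  simp only [norm_iteratedFDeriv_eq_norm_iteratedDeriv, Real.norm_eq_abs] at h3
  refine h3.trans ?_
  calc ∑ i ∈ range (j + 1), (j.choose i : ℝ) * |iteratedDeriv i f t| * |iteratedDeriv (j - i) g t|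
      ≤ ∑ i ∈ range (j + 1), (j.choose i : ℝ) * (Bf * Bg) := by
        apply sum_le_sum
        intro i hi
        rw [mem_range] at hi
        rw [mul_assoc]
        apply mul_le_mul_of_nonneg_left _ (Nat.cast_nonneg _)
        exact mul_le_mul (h1 i (by omega)) (h2 (j - i) (by omega)) (abs_nonneg _) hBf
    _ = 2 ^ j * (Bf * Bg) := by
        rw [← sum_mul]
        congr 1
        exact_mod_cast Nat.sum_range_choose j
    _ ≤ 2 ^ k * (Bf * Bg) := by
        apply mul_le_mul_of_nonneg_right _ (by positivity)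
        exact pow_le_pow_right₀ (by norm_num) hj
    _ = _ := by ring

/-- derivatives vanish off the support -/
theorem id_zero {g : ℝ → ℝ} {a b : ℝ} (h : ∀ y, g y ≠ 0 → a ≤ y ∧ y ≤ b) {y : ℝ}
    (hy : ¬ (a ≤ y ∧ y ≤ b)) (j : ℕ) : iteratedDeriv j g y = 0 := by
  have h1 : g =ᶠ[𝓝 y] fun _ => 0 := by
    have h2 : (Set.Icc a b)ᶜ ∈ 𝓝 y := isClosed_Icc.isOpen_compl.mem_nhds (fun hh => hy hh)
    filter_upwards [h2] with z hz
    by_contra h3
    exact hz (h z h3)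
  rw [h1.iteratedDeriv_eq j]
  simp

/-- product with a function supported in `[a,b]` -/
theorem bd_mul {f g : ℝ → ℝ} (hf : ContDiff ℝ ((⊤ : ℕ∞) : WithTop ℕ∞) f)
    (hg : ContDiff ℝ ((⊤ : ℕ∞) : WithTop ℕ∞) g) {a b : ℝ} (h : ∀ y, g y ≠ 0 → a ≤ y ∧ y ≤ b)
    {k : ℕ} {Bf Bg : ℝ} (hBf : 0 ≤ Bf)
    (h1 : ∀ j ≤ k, ∀ t, a ≤ t → t ≤ b → |iteratedDeriv j f t| ≤ Bf) (h2 : Bd k g Bg) :
    Bd k (fun y => f y * g y) (2 ^ k * Bf * Bg) := by
  intro j hj t
  by_cases ht : a ≤ t ∧ t ≤ b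
  · exact idmul hf hg (fun i hi => h1 i hi t ht.1 ht.2) (fun i hi => h2 i hi t) j hj
  · have h3 : ∀ y, f y * g y ≠ 0 → a ≤ y ∧ y ≤ b := fun y hy => h y (right_ne_zero_of_mul hy)
    rw [id_zero h3 ht, abs_zero]
    have hBg : 0 ≤ Bg := (abs_nonneg _).trans (h2 0 (Nat.zero_le _) 0)
    positivity

/-- a smooth function with compact support has bounded derivatives -/
theorem bd_exists {g : ℝ → ℝ} (hg : ContDiff ℝ ((⊤ : ℕ∞) : WithTop ℕ∞) g) {a b : ℝ}
    (h : ∀ y, g y ≠ 0 → a ≤ y ∧ y ≤ b) (k : ℕ) : ∃ B : ℝ, 0 ≤ B ∧ Bd k g B := by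
  have h1 : ∀ j : ℕ, ∃ B : ℝ, 0 ≤ B ∧ ∀ y, |iteratedDeriv j g y| ≤ B := by
    intro j
    have hc : Continuous (iteratedDeriv j g) := hg.continuous_iteratedDeriv j (by exact_mod_cast le_top)
    obtain ⟨B, hB⟩ := isCompact_Icc.exists_bound_of_continuousOn (s := Set.Icc a b)
      hc.continuousOn
    refine ⟨|B|, abs_nonneg _, fun y => ?_⟩
    by_cases hy : a ≤ y ∧ y ≤ b
    · exact (hB y hy).trans (le_abs_self B)
    · rw [id_zero h hy, abs_zero]
      exact abs_nonneg _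
  choose B hB0 hB using h1
  refine ⟨∑ j ∈ range (k + 1), B j, sum_nonneg (fun j _ => hB0 j), ?_⟩
  intro j hj y
  exact (hB j y).trans (single_le_sum (f := B) (fun i _ => hB0 i) (mem_range.2 (by omega)))

end

end Pool.Agent.H704R2.RZ2_TR1
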