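import Pool.Agent.H831R2.RZ2_KB
import Pool.Agent.H708R2.RZ2_SBU
import Pool.Agent.H648R2.RZ2_SBE
import Pool.Agent.H704R2.RZ2_TR1a

set_option autoImplicit false

namespace Pool.Agent.H704R2.RZ2_TR1

open Finset Filter Topology MeasureTheory
open Pool.Agent.H306R2.RZ

noncomputable section

/-- growth condition of `KB` -/
def Gr (x : ℝ) (Φ : ℝ → ℝ) : Prop :=
  ∀ j : ℕ, ∃ B : ℝ, ∀ τ, |iteratedDeriv j Φ τ| ≤ B * (1 + |τ|) * Real.exp (x * (τ - 1 / 2))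

theorem Gr.deriv {x : ℝ} {Φ : ℝ → ℝ} (h : Gr x Φ) : Gr x (deriv Φ) := by
  intro j
  obtain ⟨B, hB⟩ := h (j + 1)
  refine ⟨B, fun τ => ?_⟩
  rw [← iteratedDeriv_succ']
  exact hB τ

theorem cd_deriv {Φ : ℝ → ℝ} (h : ContDiff ℝ ((⊤ : ℕ∞) : WithTop ℕ∞) Φ) :
    ContDiff ℝ ((⊤ : ℕ∞) : WithTop ℕ∞) (deriv Φ) :=
  ((contDiff_succ_iff_deriv (n := ((⊤ : ℕ∞) : WithTop ℕ∞))).1 (by simpa using h)).2.2

/-- the family `β ↦ KW L β Φ · c` -/
theorem fam (b : ℝ) (hb : 0 ≤ b) : ∃ L0 : ℝ, 0 < L0 ∧ ∀ (L x : ℝ) (Φ c : ℝ → ℝ) (a0 b0 M1 Kc s : ℝ)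
    (k : ℕ), L0 ≤ L → 0 ≤ x → x ≤ L / 2 → ContDiff ℝ ((⊤ : ℕ∞) : WithTop ℕ∞) Φ → Gr x Φ →
    ContDiff ℝ ((⊤ : ℕ∞) : WithTop ℕ∞) c → (∀ y, c y ≠ 0 → a0 ≤ y ∧ y ≤ b0) → -1 ≤ a0 → b0 ≤ s →
    0 ≤ M1 →
    (∀ β, |β| ≤ b / L → ∀ j ≤ k + 1, ∀ y, a0 ≤ y → y ≤ b0 →
      |iteratedDeriv j (KW L β Φ) y| ≤ M1) → Bd k c Kc →
    (∀ β y, |β| ≤ b / L → HasDerivAt (fun z => KW L z Φ y * c y) (KW L β (deriv Φ) y * c y) β) ∧
    (∀ y, ContinuousOn (fun β => KW L β (deriv Φ) y * c y) (Set.Icc (-(b / L)) (b / L))) ∧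
    (∀ β, |β| ≤ b / L → Wt s (fun y => KW L β Φ y * c y) ∧
      Wt s (fun y => KW L β (deriv Φ) y * c y) ∧
      Bd k (fun y => KW L β Φ y * c y) (2 ^ k * M1 * Kc) ∧
      Bd k (fun y => KW L β (deriv Φ) y * c y) (2 ^ k * M1 * Kc)) := by
  obtain ⟨C, L0, hC, hL0, h⟩ := Pool.Agent.H831R2.RZ2KB.KB 0 b hb
  refine ⟨L0, hL0, ?_⟩
  intro L x Φ c a0 b0 M1 Kc s k hL hx hxL hΦ hG hc hcs ha0 hb0 hM hbd hcb
  have k1 : ∀ β, |β| ≤ b / L → _ := fun β hβ => h L β x Φ hL hβ hx hxL hΦ hG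
  have k2 : ∀ β, |β| ≤ b / L → _ := fun β hβ => h L β x (deriv Φ) hL hβ hx hxL (cd_deriv hΦ) hG.deriv
  refine ⟨?_, ?_, ?_⟩
  · intro β y hβ
    exact ((k1 β hβ).2.2.1 y).mul_const (c y)
  · intro y β hβ
    have hβ' : |β| ≤ b / L := abs_le.2 hβ
    exact (((k2 β hβ').2.2.1 y).continuousAt.mul_const (c y)).continuousWithinAt
  · intro β hβ
    have e1 : ∀ j y, iteratedDeriv j (KW L β (deriv Φ)) y = -iteratedDeriv (j + 1) (KW L β Φ) y := by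
      intro j y
      rw [(k2 β hβ).2.1 j y, (k1 β hβ).2.1 (j + 1) y, ← iteratedDeriv_succ', pow_succ]
      ring
    refine ⟨⟨(k1 β hβ).1.mul hc, fun y hy => ?_⟩, ⟨(k2 β hβ).1.mul hc, fun y hy => ?_⟩, ?_, ?_⟩
    · have := hcs y (right_ne_zero_of_mul hy)
      constructor <;> linarith
    · have := hcs y (right_ne_zero_of_mul hy)
      constructor <;> linarith
    · exact bd_mul (k1 β hβ).1 hc hcs hM (fun j hj t h1 h2 => hbd β hβ j (by omega) t h1 h2) hcb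
    · refine bd_mul (k2 β hβ).1 hc hcs hM (fun j hj t h1 h2 => ?_) hcb
      rw [e1, abs_neg]
      exact hbd β hβ (j + 1) (by omega) t h1 h2

theorem bd_mono {k k' : ℕ} (h : k ≤ k') {w : ℝ → ℝ} {B : ℝ} (hw : Bd k' w B) : Bd k w B :=
  fun j hj y => hw j (hj.trans h) y

theorem bd_mono' {k : ℕ} {w : ℝ → ℝ} {B B' : ℝ} (hw : Bd k w B) (h : B ≤ B') : Bd k w B' :=
  fun j hj y => (hw j hj y).trans h

/-- application of `SBU` and `SBE` -/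
theorem terms (hUBA : Pool.Agent.H708R2.RZSBU.UBAs) (hSUP : Pool.Agent.H648R2.RZSBE.SUPst)
    (F : ℝ → ℝ) (hF : TF F) (hF0 : ∀ x, 0 ≤ F x) (s θ : ℝ) (hA : Adm s θ) (b : ℝ)
    (hb : 0 ≤ b) (η : ℝ → ℝ) (hη : ∃ u, Wt u η) : ∃ (C L0 : ℝ) (k : ℕ), 0 < C ∧ 0 < L0 ∧
    ∀ (L x : ℝ) (Φ c Q : ℝ → ℝ) (a0 b0 M1 Kc B' : ℝ) (βd : ℕ → ℝ), L0 ≤ L → 0 ≤ x → x ≤ L / 2 →
    ContDiff ℝ ((⊤ : ℕ∞) : WithTop ℕ∞) Φ → Gr x Φ →
    ContDiff ℝ ((⊤ : ℕ∞) : WithTop ℕ∞) c → (∀ y, c y ≠ 0 → a0 ≤ y ∧ y ≤ b0) → -1 ≤ a0 → b0 ≤ s →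
    0 ≤ M1 →
    (∀ β, |β| ≤ b / L → ∀ j ≤ k + 1, ∀ y, a0 ≤ y → y ≤ b0 →
      |iteratedDeriv j (KW L β Φ) y| ≤ M1) → Bd k c Kc → Wt θ Q → Bd k Q B' →
    (∀ d : ℕ, F ((d : ℝ) / Real.exp L) ≠ 0 → |βd d| ≤ b / L) →
    EF F (Real.exp L) (fun d => (Nd 2 L (fun y => KW L (βd d) Φ y * c y) d * Md 2 L Q d) ^ 2) ≤
      C * (M1 * Kc * B') ^ 2 ∧
    EF F (Real.exp L) (fun d => Ed 2 L (fun y => KW L (βd d) Φ y * c y) Q η d ^ 2) ≤
      C * (M1 * Kc * B') ^ 2 := by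
  obtain ⟨L1, hL1, h1⟩ := fam b hb
  obtain ⟨C2, L2, k2, hC2, hL2, h2⟩ := Pool.Agent.H708R2.RZSBU.SBU hUBA F hF hF0 s θ hA b hb
  obtain ⟨C3, L3, k3, hC3, hL3, h3⟩ := Pool.Agent.H648R2.RZSBE.SBE_of hSUP F hF hF0 s θ hA η hη b hb
  refine ⟨(C2 + C3) * (2 ^ max k2 k3) ^ 2, max L1 (max L2 L3), max k2 k3, by positivity,
    lt_max_of_lt_left hL1, ?_⟩
  intro L x Φ c Q a0 b0 M1 Kc B' βd hL hx hxL hΦ hG hc hcs ha0 hb0 hM hbd hcb hQ hQB hβ
  have hLa : L1 ≤ L := (le_max_left _ _).trans hL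
  have hLb : L2 ≤ L := ((le_max_left _ _).trans (le_max_right _ _)).trans hL
  have hLc : L3 ≤ L := ((le_max_right _ _).trans (le_max_right _ _)).trans hL
  obtain ⟨f1, f2, f3⟩ := h1 L x Φ c a0 b0 M1 Kc s (max k2 k3) hLa hx hxL hΦ hG hc hcs ha0 hb0 hM
    hbd hcb
  have hsq : 0 ≤ (M1 * Kc * B') ^ 2 := sq_nonneg _
  constructor
  · have := h2 L (fun β y => KW L β Φ y * c y) (fun β y => KW L β (deriv Φ) y * c y) Q
      (2 ^ max k2 k3 * M1 * Kc) B' βd hLb f1 f2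
      (fun β hβ' => ⟨(f3 β hβ').1, (f3 β hβ').2.1, bd_mono (le_max_left _ _) (f3 β hβ').2.2.1,
        bd_mono (le_max_left _ _) (f3 β hβ').2.2.2⟩) hQ (bd_mono (le_max_left _ _) hQB) hβ
    refine this.trans ?_
    have e : C2 * (2 ^ max k2 k3 * M1 * Kc) ^ 2 * B' ^ 2 =
      C2 * (2 ^ max k2 k3) ^ 2 * (M1 * Kc * B') ^ 2 := by ring
    rw [e]
    apply mul_le_mul_of_nonneg_right _ hsq
    apply mul_le_mul_of_nonneg_right _ (by positivity)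
    linarith
  · have := h3 L (fun β y => KW L β Φ y * c y) (fun β y => KW L β (deriv Φ) y * c y) Q
      (2 ^ max k2 k3 * M1 * Kc) B' βd hLc f1 f2
      (fun β hβ' => ⟨(f3 β hβ').1, (f3 β hβ').2.1, bd_mono (le_max_right _ _) (f3 β hβ').2.2.1,
        bd_mono (le_max_right _ _) (f3 β hβ').2.2.2⟩) hQ (bd_mono (le_max_right _ _) hQB) hβ
    refine this.trans ?_
    have e : C3 * (2 ^ max k2 k3 * M1 * Kc) ^ 2 * B' ^ 2 =
      C3 * (2 ^ max k2 k3) ^ 2 * (M1 * Kc * B') ^ 2 := by ring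
    rw [e]
    apply mul_le_mul_of_nonneg_right _ hsq
    apply mul_le_mul_of_nonneg_right _ (by positivity)
    linarith

/-- trivial bound for the mollifier -/
theorem md_le {L s : ℝ} (hL : 0 < L) {Q : ℝ → ℝ} (hQ : ∀ y, Q y ≠ 0 → y ≤ s) {B : ℝ}
    (hB : ∀ y, |Q y| ≤ B) (q d : ℕ) : |Md q L Q d| ≤ (Real.exp (s * L) + 1) * B := by
  have hB0 : 0 ≤ B := (abs_nonneg _).trans (hB 0)
  unfold Md
  rw [tsum_eq_sum (s := range (⌊Real.exp (s * L)⌋₊ + 1))]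
  · refine (abs_sum_le_sum_abs _ _).trans ?_
    calc _ ≤ ∑ n ∈ range (⌊Real.exp (s * L)⌋₊ + 1), B := by
          apply sum_le_sum
          intro n _
          split_ifs
          · rcases Nat.eq_zero_or_pos n with h0 | h0
            · subst h0; simpa using hB0
            · rw [abs_mul, abs_div, abs_mul]
              have h1 : |((ArithmeticFunction.moebius n : ℤ) : ℝ)| ≤ 1 := by
                exact_mod_cast ArithmeticFunction.abs_moebius_le_one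
              have h2 : |js (8 * (d : ℤ)) n| ≤ 1 := by
                unfold js
                rcases jacobiSym.trichotomy (8 * (d : ℤ)) n with h | h | h <;> simp [h]
              have h3 : 1 ≤ |Real.sqrt (n : ℝ)| := by
                rw [abs_of_nonneg (Real.sqrt_nonneg _)]
                rw [Real.one_le_sqrt]
                exact_mod_cast h0
              have h4 : |((ArithmeticFunction.moebius n : ℤ) : ℝ)| * |js (8 * (d : ℤ)) n| ≤ 1 :=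
                mul_le_one₀ h1 (abs_nonneg _) h2
              calc |((ArithmeticFunction.moebius n : ℤ) : ℝ)| * |js (8 * (d : ℤ)) n| /
                    |Real.sqrt (n : ℝ)| * |Q (Real.log n / L)| ≤ 1 * B := by
                    apply mul_le_mul _ (hB _) (abs_nonneg _) zero_le_one
                    rw [div_le_one (by linarith)]
                    linarith
                _ = B := one_mul B
          · simpa using hB0
      _ = ((⌊Real.exp (s * L)⌋₊ : ℝ) + 1) * B := by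
          rw [sum_const, card_range, nsmul_eq_mul]; push_cast; ring
      _ ≤ _ := by
          apply mul_le_mul_of_nonneg_right _ hB0
          have := Nat.floor_le (Real.exp_pos (s * L)).le
          linarith
  · intro n hn
    have : Q (Real.log n / L) = 0 := by
      by_contra h
      exact hn (mem_range.2 (fin_n hL n (hQ _ h)))
    simp [this]

end

end Pool.Agent.H704R2.RZ2_TR1
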