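import Pool.Agent.H704R2.RZ2_TR1b
import Pool.Agent.H60R2.RZ2_TRU
import Pool.Agent.H509R2.RZ2_EF1

set_option autoImplicit false
set_option maxHeartbeats 4000000

namespace Pool.Agent.H704R2.RZ2_TR1

open Finset Filter Topology MeasureTheory
open Pool.Agent.H306R2.RZ

noncomputable section

theorem Gr.sub {x : ℝ} {Φ Ψ : ℝ → ℝ} (h : Gr x Φ) (h' : Gr x Ψ)
    (hΦ : ContDiff ℝ ((⊤ : ℕ∞) : WithTop ℕ∞) Φ) (hΨ : ContDiff ℝ ((⊤ : ℕ∞) : WithTop ℕ∞) Ψ) :
    Gr x (fun τ => Φ τ - Ψ τ) := by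
  intro j
  obtain ⟨B, hB⟩ := h j
  obtain ⟨B', hB'⟩ := h' j
  refine ⟨B + B', fun τ => ?_⟩
  have e : iteratedDeriv j (fun τ => Φ τ - Ψ τ) τ = iteratedDeriv j Φ τ - iteratedDeriv j Ψ τ :=
    iteratedDeriv_fun_sub (hΦ.contDiffAt.of_le (by exact_mod_cast le_top))
      (hΨ.contDiffAt.of_le (by exact_mod_cast le_top))
  rw [e]
  have h1 := abs_sub (iteratedDeriv j Φ τ) (iteratedDeriv j Ψ τ)
  have h2 := hB τ
  have h3 := hB' τ
  nlinarith

theorem sq6 (a b c d f g : ℝ) : (a + b + c - d - f - g) ^ 2 ≤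
    6 * (a ^ 2 + b ^ 2 + c ^ 2 + d ^ 2 + f ^ 2 + g ^ 2) := by
  nlinarith [sq_nonneg (a - b), sq_nonneg (a - c), sq_nonneg (a + d), sq_nonneg (a + f),
    sq_nonneg (a + g), sq_nonneg (b - c), sq_nonneg (b + d), sq_nonneg (b + f), sq_nonneg (b + g),
    sq_nonneg (c + d), sq_nonneg (c + f), sq_nonneg (c + g), sq_nonneg (d - f), sq_nonneg (d - g),
    sq_nonneg (f - g)]

theorem exp_sq_le {A B u w : ℝ} (hAB : |A| ≤ B) (huw : 2 * u ≤ w) :
    (A * Real.exp u) ^ 2 ≤ B ^ 2 * Real.exp w := by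
  have h1 : (A * Real.exp u) ^ 2 = A ^ 2 * Real.exp (2 * u) := by
    rw [mul_pow, ← Real.exp_nat_mul]; norm_num
  rw [h1]
  apply mul_le_mul (sq_le_sq' (by linarith [neg_abs_le A]) ((le_abs_self A).trans hAB))
    (Real.exp_le_exp.2 huw) (Real.exp_pos _).le (sq_nonneg _)

theorem u123 {x θ e L : ℝ} (hx0 : 0 ≤ x) (hθ : 0 < θ) (hθ1 : θ < 1 / 2) (he1 : e ≤ θ / 100)
    (hxL : x ≤ L / 2) (hL : 0 < L) : 2 * (-(x / 4) + x * e) ≤ -(θ / 50 * x) ∧
    2 * (x * e + -(x * (θ / 32))) ≤ -(θ / 50 * x) ∧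
    2 * (-(3 * L) + θ * L + x * e) ≤ -(θ / 50 * x) := by
  have hxe : x * e ≤ x * (θ / 100) := mul_le_mul_of_nonneg_left he1 hx0
  have hxθ : x * θ ≤ x * (1 / 2) := mul_le_mul_of_nonneg_left hθ1.le hx0
  have hxθ0 : 0 ≤ x * θ := by positivity
  have hθL : θ * L ≤ 1 / 2 * L := mul_le_mul_of_nonneg_right hθ1.le hL.le
  refine ⟨by linarith, by linarith, by linarith⟩

theorem ebd {M x y lo hi z : ℝ} (hM : 0 ≤ M) (hx : 0 ≤ x) (h1 : lo ≤ y) (h2 : y ≤ hi)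
    (hlo : -1 ≤ lo) (hhi : hi ≤ 1) (hz : -(x * lo) ≤ z) :
    M * (1 + |y|) * Real.exp (-(x * y)) ≤ 2 * M * Real.exp z := by
  have h3 : |y| ≤ 1 := by rw [abs_le]; constructor <;> linarith
  have h5 : x * lo ≤ x * y := mul_le_mul_of_nonneg_left h1 hx
  have h4 : Real.exp (-(x * y)) ≤ Real.exp z := Real.exp_le_exp.2 (by linarith)
  calc M * (1 + |y|) * Real.exp (-(x * y)) ≤ M * 2 * Real.exp z := by
        apply mul_le_mul _ h4 (Real.exp_pos _).le (by positivity)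
        exact mul_le_mul_of_nonneg_left (by linarith) hM
    _ = _ := by ring

/-- supports of the cutoffs -/
theorem sups {δ e θ : ℝ} {r κ p : ℝ → ℝ} (hr : ST (θ / 4) θ r) (hκ : KP δ e κ)
    (hp : ST (θ / 32) (θ / 16) p) :
    (∀ y, κ y * p y ≠ 0 → -e ≤ y ∧ y ≤ θ / 16) ∧
    (∀ y, κ y * (1 - p y) ≠ 0 → θ / 32 ≤ y ∧ y ≤ 1 / 2 + 3 * δ) ∧
    (∀ y, r y * κ y ≠ 0 → -e ≤ y ∧ y ≤ θ) ∧
    (∀ y, r y * κ y * p y ≠ 0 → -e ≤ y ∧ y ≤ θ / 16) ∧
    (∀ y, r y * κ y * (1 - p y) ≠ 0 → θ / 32 ≤ y ∧ y ≤ θ) := by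
  have s0 : ∀ y, κ y * p y ≠ 0 → -e ≤ y ∧ y ≤ θ / 16 := by
    intro y hy
    refine ⟨(hκ.supp y (left_ne_zero_of_mul hy)).1, ?_⟩
    by_contra h
    exact right_ne_zero_of_mul hy (hp.zero y (by linarith))
  have s1 : ∀ y, κ y * (1 - p y) ≠ 0 → θ / 32 ≤ y ∧ y ≤ 1 / 2 + 3 * δ := by
    intro y hy
    refine ⟨?_, (hκ.supp y (left_ne_zero_of_mul hy)).2⟩
    by_contra h
    exact right_ne_zero_of_mul hy (by rw [hp.one y (by linarith)]; ring)
  have s2 : ∀ y, r y * κ y ≠ 0 → -e ≤ y ∧ y ≤ θ := by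
    intro y hy
    refine ⟨(hκ.supp y (right_ne_zero_of_mul hy)).1, ?_⟩
    by_contra h
    exact left_ne_zero_of_mul hy (hr.zero y (by linarith))
  have s3 : ∀ y, r y * κ y * p y ≠ 0 → -e ≤ y ∧ y ≤ θ / 16 := by
    intro y hy
    refine ⟨(s2 y (left_ne_zero_of_mul hy)).1, ?_⟩
    by_contra h
    exact right_ne_zero_of_mul hy (hp.zero y (by linarith))
  have s4 : ∀ y, r y * κ y * (1 - p y) ≠ 0 → θ / 32 ≤ y ∧ y ≤ θ := by
    intro y hy
    refine ⟨?_, (s2 y (left_ne_zero_of_mul hy)).2⟩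
    by_contra h
    exact right_ne_zero_of_mul hy (by rw [hp.one y (by linarith)]; ring)
  exact ⟨s0, s1, s2, s3, s4⟩

theorem pw_id {L δ e θ : ℝ} (hL0 : 0 < L) {r κ p η : ℝ → ℝ} (hκ : KP δ e κ)
    (hp : ST (θ / 32) (θ / 16) p) (hr : ST (θ / 4) θ r) (hθ : 0 < θ) (hθs : θ ≤ 1 / 2 + 3 * δ)
    (hη1 : ∀ u, 0 ≤ u → u ≤ θ / 8 → η u = 1) {V U Δ : ℝ → ℝ} (hsub : ∀ y, Δ y = V y - U y)
    (q : ℝ → ℝ) (N : ℝ) (d : ℕ) :
    Ed 2 L (fun y => V y * κ y) (fun t => q t * r t * κ t) η d -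
      N * Md 2 L (fun t => q t * r t * κ t) d =
      Nd 2 L (fun y => Δ y * (κ y * p y)) d *
        Md 2 L (fun t => q t * (r t * κ t * p t)) d +
      Ed 2 L (fun y => V y * (κ y * p y))
        (fun t => q t * (r t * κ t * (1 - p t))) η d +
      Ed 2 L (fun y => V y * (κ y * (1 - p y))) (fun t => q t * r t * κ t) η d -
      Nd 2 L (fun y => U y * (κ y * p y)) d *
        Md 2 L (fun t => q t * (r t * κ t * (1 - p t))) d -
      Nd 2 L (fun y => U y * (κ y * (1 - p y))) d *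
        Md 2 L (fun t => q t * r t * κ t) d -
      (N - Nd 2 L (fun y => U y * κ y) d) *
        Md 2 L (fun t => q t * r t * κ t) d := by
  obtain ⟨s0, s1, s2, s3, s4⟩ := sups hr hκ hp
  have sup0 : ∀ (f : ℝ → ℝ) y, f y * (κ y * p y) ≠ 0 → y ≤ 1 / 2 + 3 * δ := fun f y hy => by
    have := (s0 y (right_ne_zero_of_mul hy)).2
    linarith
  have sup1 : ∀ (f : ℝ → ℝ) y, f y * (κ y * (1 - p y)) ≠ 0 → y ≤ 1 / 2 + 3 * δ := fun f y hy =>
    (s1 y (right_ne_zero_of_mul hy)).2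
  have supQ : ∀ y, q y * r y * κ y ≠ 0 → y ≤ 1 / 2 + 3 * δ := fun y hy =>
    (hκ.supp y (right_ne_zero_of_mul hy)).2
  have supQ0 : ∀ y, q y * (r y * κ y * p y) ≠ 0 → y ≤ 1 / 2 + 3 * δ := fun y hy => by
    have := (s3 y (right_ne_zero_of_mul hy)).2
    linarith
  have supQ1 : ∀ y, q y * (r y * κ y * (1 - p y)) ≠ 0 → y ≤ 1 / 2 + 3 * δ := fun y hy => by
    have := (s4 y (right_ne_zero_of_mul hy)).2
    linarith
  have x1 : Ed 2 L (fun y => V y * κ y) (fun t => q t * r t * κ t) η d =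
      Ed 2 L (fun y => V y * (κ y * p y)) (fun t => q t * r t * κ t) η d +
      Ed 2 L (fun y => V y * (κ y * (1 - p y))) (fun t => q t * r t * κ t) η d := by
    rw [← ed_add_left hL0 (sup0 V) (sup1 V) supQ]
    congr 1
    funext y; ring
  have x2 : Ed 2 L (fun y => V y * (κ y * p y)) (fun t => q t * r t * κ t) η d =
      Ed 2 L (fun y => V y * (κ y * p y)) (fun t => q t * (r t * κ t * p t)) η d +
      Ed 2 L (fun y => V y * (κ y * p y)) (fun t => q t * (r t * κ t * (1 - p t))) η d := by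
    rw [← ed_add_right hL0 (sup0 V) supQ0 supQ1]
    congr 1
    funext y; ring
  have x3 : Ed 2 L (fun y => V y * (κ y * p y)) (fun t => q t * (r t * κ t * p t)) η d =
      Nd 2 L (fun y => V y * (κ y * p y)) d * Md 2 L (fun t => q t * (r t * κ t * p t)) d := by
    apply ed_split hL0 (sup0 V) supQ0
    intro y t hy ht' h1 h2
    apply hη1 _ (by linarith)
    have a1 := (s0 y (right_ne_zero_of_mul h1)).2
    have a2 := (s3 t (right_ne_zero_of_mul h2)).2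
    linarith
  have x4 : Nd 2 L (fun y => U y * κ y) d = Nd 2 L (fun y => U y * (κ y * p y)) d +
      Nd 2 L (fun y => U y * (κ y * (1 - p y))) d := by
    rw [← nd_add hL0 (sup0 U) (sup1 U)]
    congr 1
    funext y; ring
  have x5 : Md 2 L (fun t => q t * r t * κ t) d = Md 2 L (fun t => q t * (r t * κ t * p t)) d +
      Md 2 L (fun t => q t * (r t * κ t * (1 - p t))) d := by
    rw [← md_add hL0 supQ0 supQ1]
    congr 1
    funext y; ring
  have x6 : Nd 2 L (fun y => V y * (κ y * p y)) d =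
      Nd 2 L (fun y => Δ y * (κ y * p y)) d +
      Nd 2 L (fun y => U y * (κ y * p y)) d := by
    rw [← nd_add hL0 (sup0 _) (sup0 U)]
    congr 1
    funext y
    rw [hsub]
    ring
  rw [x1, x2, x3, x4, x6]
  rw [x5]
  ring

theorem core (hUBA : Pool.Agent.H708R2.RZSBU.UBAs) (hSUP : Pool.Agent.H648R2.RZSBE.SUPst)
    (F : ℝ → ℝ) (hF : TF F) (hF0 : ∀ x, 0 ≤ F x) (δ e θ : ℝ) (hδ : 0 < δ)
    (he : 0 < e) (he1 : e ≤ θ / 100) (hA : Adm (1 / 2 + 3 * δ) θ)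
    (r κ : ℝ → ℝ) (hr : ST (θ / 4) θ r) (hκ : KP δ e κ) (b : ℝ) (hb : 0 ≤ b)
    (hbe : ∃ L0 : ℝ, ∀ L : ℝ, L0 ≤ L → ∀ d : ℕ, F ((d : ℝ) / Real.exp L) ≠ 0 → |be L d| ≤ b / L)
    (p : ℝ → ℝ) (hp : ST (θ / 32) (θ / 16) p) (η : ℝ → ℝ) (hη : ∃ u, Wt u η)
    (hη1 : ∀ u, 0 ≤ u → u ≤ θ / 8 → η u = 1) :
    ∃ (C L0 : ℝ) (k : ℕ), 0 < C ∧ ∀ (L x : ℝ) (Φ Ψ q : ℝ → ℝ) (M M' : ℝ), L0 ≤ L → 1 ≤ x →
      x ≤ L / 2 → 0 ≤ M → 0 ≤ M' → ContDiff ℝ ((⊤ : ℕ∞) : WithTop ℕ∞) Φ →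
      ContDiff ℝ ((⊤ : ℕ∞) : WithTop ℕ∞) Ψ → Gr x Φ → Gr x Ψ →
      (∀ τ, τ ≤ -δ → Ψ τ = 0) → (∀ τ, |Ψ τ| ≤ M * Real.exp (L * |τ|)) →
      (∀ β, |β| ≤ b / L → ∀ j ≤ k + 1, ∀ y, |iteratedDeriv j (KW L β Φ) y| ≤
        M * (1 + |y|) * Real.exp (-(x * y))) →
      (∀ β, |β| ≤ b / L → ∀ j ≤ k + 1, ∀ y, |iteratedDeriv j (KW L β (fun τ => Φ τ - Ψ τ)) y| ≤
        M * (1 + |y|) * Real.exp (-(x / 4))) →
      ContDiff ℝ ((⊤ : ℕ∞) : WithTop ℕ∞) q →
      (∀ j ≤ k, ∀ t, -1 ≤ t → t ≤ 1 → |iteratedDeriv j q t| ≤ M' * Real.exp (-(x * t))) →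
      EF F (Real.exp L) (fun d => (Ed 2 L (fun y => KW L (be L d) Φ y * κ y)
        (fun t => q t * r t * κ t) η d - Nf L (KW L (be L d) Ψ) d *
          Md 2 L (fun t => q t * r t * κ t) d) ^ 2) ≤
        C * M ^ 2 * M' ^ 2 * Real.exp (-(θ / 50 * x)) := by
  have hθ := hA.hθ
  have hθ1 := hA.hθ1
  have hs1 := hA.hs1
  obtain ⟨C1, L1, k, hC1, hL1, ht⟩ := terms hUBA hSUP F hF hF0 (1 / 2 + 3 * δ) θ hA b hb η hη
  obtain ⟨C2, L2, hC2, hL2, hKB⟩ := Pool.Agent.H831R2.RZ2KB.KB 0 b hb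
  obtain ⟨C3, L3, hC3, hT⟩ := Pool.Agent.H60R2.RZTRU.TRU δ e b 3 hδ he hb κ hκ
  obtain ⟨L4, hL4⟩ := hbe
  have h5 : ∃ L5 : ℝ, ∀ L : ℝ, L5 ≤ L → EF F (Real.exp L) (fun _ => 1) ≤ |1 / 2 * Ft F 0| + 1 := by
    have := Pool.Agent.H509R2.RZEF1.EF1 F hF 1 one_pos
    simp only [one_mul] at this
    have h6 := this.eventually (eventually_le_nhds (show 1 / 2 * Ft F 0 < |1 / 2 * Ft F 0| + 1 by
      linarith [le_abs_self (1 / 2 * Ft F 0)]))
    obtain ⟨L5, h7⟩ := eventually_atTop.1 h6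
    exact ⟨L5, fun L hL => h7 L hL⟩
  obtain ⟨L5, hL5⟩ := h5
  set C5 := |1 / 2 * Ft F 0| + 1 with hC5
  -- the cutoffs
  have cκ := hκ.smooth
  have cp := hp.smooth
  have cr := hr.smooth
  obtain ⟨s0, s1, s2, s3, s4⟩ := sups hr hκ hp
  have d0 : ContDiff ℝ ((⊤ : ℕ∞) : WithTop ℕ∞) (fun y => κ y * p y) := cκ.mul cp
  have d1 : ContDiff ℝ ((⊤ : ℕ∞) : WithTop ℕ∞) (fun y => κ y * (1 - p y)) :=
    cκ.mul (contDiff_const.sub cp)
  have d2 : ContDiff ℝ ((⊤ : ℕ∞) : WithTop ℕ∞) (fun y => r y * κ y) := cr.mul cκ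
  have d3 : ContDiff ℝ ((⊤ : ℕ∞) : WithTop ℕ∞) (fun y => r y * κ y * p y) := d2.mul cp
  have d4 : ContDiff ℝ ((⊤ : ℕ∞) : WithTop ℕ∞) (fun y => r y * κ y * (1 - p y)) :=
    d2.mul (contDiff_const.sub cp)
  obtain ⟨B0, hB0, hb0⟩ := bd_exists d0 s0 k
  obtain ⟨B1, hB1, hb1⟩ := bd_exists d1 s1 k
  obtain ⟨B2, hB2, hb2⟩ := bd_exists d2 s2 k
  obtain ⟨B3, hB3, hb3⟩ := bd_exists d3 s3 k
  obtain ⟨B4, hB4, hb4⟩ := bd_exists d4 s4 k
  set K := B0 + B1 + B2 + B3 + B4 + 1 with hK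
  have hK0 : 0 < K := by positivity
  have hbk0 : Bd k (fun y => κ y * p y) K := bd_mono' hb0 (by linarith)
  have hbk1 : Bd k (fun y => κ y * (1 - p y)) K := bd_mono' hb1 (by linarith)
  have hbk2 : Bd k (fun y => r y * κ y) K := bd_mono' hb2 (by linarith)
  have hbk3 : Bd k (fun y => r y * κ y * p y) K := bd_mono' hb3 (by linarith)
  have hbk4 : Bd k (fun y => r y * κ y * (1 - p y)) K := bd_mono' hb4 (by linarith)
  refine ⟨6 * (5 * (C1 * (4 * 2 ^ k * K ^ 2) ^ 2) + C5 * (C3 * 2 * 2 ^ k * K) ^ 2),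
    max 1 (max L1 (max L2 (max L3 (max L4 L5)))), k, by positivity, ?_⟩
  intro L x Φ Ψ q M M' hL hx hxL hM hM' cΦ cΨ gΦ gΨ zΨ bΨ bΦ bΔ cq bq
  have hLo : 1 ≤ L := (le_max_left _ _).trans hL
  have hLL := (le_max_right _ _).trans hL
  have hLa : L1 ≤ L := (le_max_left _ _).trans hLL
  have hLL2 := (le_max_right _ _).trans hLL
  have hLb : L2 ≤ L := (le_max_left _ _).trans hLL2
  have hLL3 := (le_max_right _ _).trans hLL2
  have hLc : L3 ≤ L := (le_max_left _ _).trans hLL3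
  have hLL4 := (le_max_right _ _).trans hLL3
  have hLd : L4 ≤ L := (le_max_left _ _).trans hLL4
  have hLe : L5 ≤ L := (le_max_right _ _).trans hLL4
  have hL0 : 0 < L := by linarith
  have hx0 : 0 ≤ x := by linarith
  have hX : 0 < Real.exp L := Real.exp_pos L
  -- growth constants
  obtain ⟨A1, hA1⟩ := gΦ 0
  obtain ⟨A2, hA2⟩ := gΨ 0
  simp only [iteratedDeriv_zero] at hA1 hA2
  have hsub : ∀ β y, KW L β (fun τ => Φ τ - Ψ τ) y = KW L β Φ y - KW L β Ψ y := fun β y =>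
    kw_sub cΦ.continuous cΨ.continuous hA1 hA2 hx0 hxL hLo y
  have gΔ : Gr x (fun τ => Φ τ - Ψ τ) := gΦ.sub gΨ cΦ cΨ
  have cΔ : ContDiff ℝ ((⊤ : ℕ∞) : WithTop ℕ∞) (fun τ => Φ τ - Ψ τ) := cΦ.sub cΨ
  -- exponential bounds
  obtain ⟨u1, u2, u3⟩ := u123 hx0 hθ hθ1 he1 hxL hL0
  have hxθ : x * θ ≤ x * (1 / 2) := mul_le_mul_of_nonneg_left hθ1.le hx0
  have hxθ0 : 0 ≤ x * θ := by positivity
  have hxe0 : 0 ≤ x * e := by positivity
  have E0 : ∀ y, -e ≤ y → y ≤ θ / 16 → M * (1 + |y|) * Real.exp (-(x * y)) ≤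
      2 * M * Real.exp (x * e) := fun y h1 h2 =>
    ebd hM hx0 h1 h2 (by linarith) (by linarith) (by linarith)
  have E1 : ∀ y, θ / 32 ≤ y → y ≤ 1 / 2 + 3 * δ → M * (1 + |y|) * Real.exp (-(x * y)) ≤
      2 * M * Real.exp (-(x * (θ / 32))) := fun y h1 h2 =>
    ebd hM hx0 h1 h2 (by linarith) (by linarith) le_rfl
  have E2 : ∀ y, -1 ≤ y → y ≤ 1 → M * (1 + |y|) * Real.exp (-(x / 4)) ≤
      2 * M * Real.exp (-(x / 4)) := by
    intro y h1 h2
    have h3 : |y| ≤ 1 := abs_le.2 ⟨h1, h2⟩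
    apply mul_le_mul_of_nonneg_right _ (Real.exp_pos _).le
    rw [mul_comm 2 M]
    exact mul_le_mul_of_nonneg_left (by linarith) hM
  have e1 : Real.exp (-(x / 4)) ≤ Real.exp (x * e) := Real.exp_le_exp.2 (by linarith)
  have e2 : Real.exp (-(x / 4)) ≤ Real.exp (-(x * (θ / 32))) := Real.exp_le_exp.2 (by linarith)
  -- bounds for `Ψ`
  have bU : ∀ β, |β| ≤ b / L → ∀ j ≤ k + 1, ∀ y, |iteratedDeriv j (KW L β Ψ) y| ≤
      M * (1 + |y|) * Real.exp (-(x * y)) + M * (1 + |y|) * Real.exp (-(x / 4)) := by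
    intro β hβ j hj y
    have f1 : KW L β Ψ = fun y => KW L β Φ y - KW L β (fun τ => Φ τ - Ψ τ) y := by
      funext z; rw [hsub]; ring
    have f2 := (hKB L β x Φ hLb hβ hx0 hxL cΦ gΦ).1
    have f3 := (hKB L β x (fun τ => Φ τ - Ψ τ) hLb hβ hx0 hxL cΔ gΔ).1
    have f4 : iteratedDeriv j (KW L β Ψ) y = iteratedDeriv j (KW L β Φ) y -
        iteratedDeriv j (KW L β (fun τ => Φ τ - Ψ τ)) y := by
      rw [f1]
      exact iteratedDeriv_fun_sub (f2.contDiffAt.of_le (by exact_mod_cast le_top))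
        (f3.contDiffAt.of_le (by exact_mod_cast le_top))
    rw [f4]
    exact (abs_sub _ _).trans (add_le_add (bΦ β hβ j hj y) (bΔ β hβ j hj y))
  -- mollifier weights
  have hQ : Wt θ (fun t => q t * r t * κ t) := by
    refine ⟨(cq.mul cr).mul cκ, fun y hy => ?_⟩
    have : r y * κ y ≠ 0 := by
      intro h; apply hy; rw [mul_assoc, h, mul_zero]
    have := s2 y this
    constructor <;> linarith
  have hQ0 : Wt θ (fun t => q t * (r t * κ t * p t)) := by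
    refine ⟨cq.mul d3, fun y hy => ?_⟩
    have := s3 y (right_ne_zero_of_mul hy)
    constructor <;> linarith
  have hQ1 : Wt θ (fun t => q t * (r t * κ t * (1 - p t))) := by
    refine ⟨cq.mul d4, fun y hy => ?_⟩
    have := s4 y (right_ne_zero_of_mul hy)
    constructor <;> linarith
  have mx0 : ∀ t, -e ≤ t → -(x * t) ≤ x * e := fun t h => by
    have := mul_le_mul_of_nonneg_left h hx0
    linarith
  have mx1 : ∀ t, θ / 32 ≤ t → -(x * t) ≤ -(x * (θ / 32)) := fun t h => by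
    have := mul_le_mul_of_nonneg_left h hx0
    linarith
  have mQ : Bd k (fun t => q t * r t * κ t) (2 ^ k * (M' * Real.exp (x * e)) * K) := by
    have h1 : (fun t => q t * r t * κ t) = fun t => q t * (r t * κ t) := by
      funext t; ring
    rw [h1]
    refine bd_mul cq d2 s2 (by positivity) (fun j hj t h2 h3 => ?_) hbk2
    refine (bq j hj t (by linarith) (by linarith)).trans ?_
    exact mul_le_mul_of_nonneg_left (Real.exp_le_exp.2 (mx0 t h2)) hM'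
  have mQ0 : Bd k (fun t => q t * (r t * κ t * p t)) (2 ^ k * (M' * Real.exp (x * e)) * K) := by
    refine bd_mul cq d3 s3 (by positivity) (fun j hj t h2 h3 => ?_) hbk3
    refine (bq j hj t (by linarith) (by linarith)).trans ?_
    exact mul_le_mul_of_nonneg_left (Real.exp_le_exp.2 (mx0 t h2)) hM'
  have mQ1 : Bd k (fun t => q t * (r t * κ t * (1 - p t)))
      (2 ^ k * (M' * Real.exp (-(x * (θ / 32)))) * K) := by
    refine bd_mul cq d4 s4 (by positivity) (fun j hj t h2 h3 => ?_) hbk4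
    refine (bq j hj t (by linarith) (by linarith)).trans ?_
    exact mul_le_mul_of_nonneg_left (Real.exp_le_exp.2 (mx1 t h2)) hM'
  -- the five terms
  have hβd := hL4 L hLd
  have t1 := (ht L x (fun τ => Φ τ - Ψ τ) (fun y => κ y * p y) (fun t => q t * (r t * κ t * p t))
    (-e) (θ / 16) (2 * M * Real.exp (-(x / 4))) K (2 ^ k * (M' * Real.exp (x * e)) * K)
    (be L) hLa hx0 hxL cΔ gΔ d0 s0 (by linarith) (by linarith) (by positivity)
    (fun β hβ j hj y h1 h2 => (bΔ β hβ j hj y).trans (E2 y (by linarith) (by linarith)))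
    hbk0 hQ0 mQ0 hβd).1
  have t2 := (ht L x Φ (fun y => κ y * p y) (fun t => q t * (r t * κ t * (1 - p t)))
    (-e) (θ / 16) (2 * M * Real.exp (x * e)) K (2 ^ k * (M' * Real.exp (-(x * (θ / 32)))) * K)
    (be L) hLa hx0 hxL cΦ gΦ d0 s0 (by linarith) (by linarith) (by positivity)
    (fun β hβ j hj y h1 h2 => (bΦ β hβ j hj y).trans (E0 y h1 h2))
    hbk0 hQ1 mQ1 hβd).2
  have t3 := (ht L x Φ (fun y => κ y * (1 - p y)) (fun t => q t * r t * κ t)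
    (θ / 32) (1 / 2 + 3 * δ) (2 * M * Real.exp (-(x * (θ / 32)))) K
    (2 ^ k * (M' * Real.exp (x * e)) * K)
    (be L) hLa hx0 hxL cΦ gΦ d1 s1 (by linarith) (by linarith) (by positivity)
    (fun β hβ j hj y h1 h2 => (bΦ β hβ j hj y).trans (E1 y h1 h2))
    hbk1 hQ mQ hβd).2
  have t4 := (ht L x Ψ (fun y => κ y * p y) (fun t => q t * (r t * κ t * (1 - p t)))
    (-e) (θ / 16) (4 * M * Real.exp (x * e)) K (2 ^ k * (M' * Real.exp (-(x * (θ / 32)))) * K)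
    (be L) hLa hx0 hxL cΨ gΨ d0 s0 (by linarith) (by linarith) (by positivity)
    (fun β hβ j hj y h1 h2 => (bU β hβ j hj y).trans (by
      have a1 := E0 y h1 h2
      have a2 := E2 y (by linarith) (by linarith)
      have a3 : 2 * M * Real.exp (-(x / 4)) ≤ 2 * M * Real.exp (x * e) :=
        mul_le_mul_of_nonneg_left e1 (by positivity)
      linarith))
    hbk0 hQ1 mQ1 hβd).1
  have t5 := (ht L x Ψ (fun y => κ y * (1 - p y)) (fun t => q t * r t * κ t)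
    (θ / 32) (1 / 2 + 3 * δ) (4 * M * Real.exp (-(x * (θ / 32)))) K
    (2 ^ k * (M' * Real.exp (x * e)) * K)
    (be L) hLa hx0 hxL cΨ gΨ d1 s1 (by linarith) (by linarith) (by positivity)
    (fun β hβ j hj y h1 h2 => (bU β hβ j hj y).trans (by
      have a1 := E1 y h1 h2
      have a2 := E2 y (by linarith) (by linarith)
      have a3 : 2 * M * Real.exp (-(x / 4)) ≤ 2 * M * Real.exp (-(x * (θ / 32))) :=
        mul_le_mul_of_nonneg_left e2 (by positivity)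
      linarith))
    hbk1 hQ mQ hβd).1
  -- common form of the bounds
  set W := C1 * (4 * 2 ^ k * K ^ 2) ^ 2 * (M ^ 2 * M' ^ 2 * Real.exp (-(θ / 50 * x))) with hW
  have fin : ∀ A u : ℝ, |A| ≤ 4 * 2 ^ k * K ^ 2 * M * M' → 2 * u ≤ -(θ / 50 * x) →
      C1 * (A * Real.exp u) ^ 2 ≤ W := by
    intro A u h1 h2
    have := exp_sq_le h1 h2
    calc C1 * (A * Real.exp u) ^ 2 ≤ C1 * ((4 * 2 ^ k * K ^ 2 * M * M') ^ 2 *
          Real.exp (-(θ / 50 * x))) := mul_le_mul_of_nonneg_left this hC1.le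
      _ = W := by rw [hW]; ring
  have kk : 0 ≤ 2 ^ k * K ^ 2 * M * M' := by positivity
  have kk2 : |2 * 2 ^ k * K ^ 2 * M * M'| ≤ 4 * 2 ^ k * K ^ 2 * M * M' := by
    rw [abs_of_nonneg (by positivity)]; linarith
  have kk4 : |4 * 2 ^ k * K ^ 2 * M * M'| ≤ 4 * 2 ^ k * K ^ 2 * M * M' := by
    rw [abs_of_nonneg (by positivity)]
  have g1 : 2 * M * Real.exp (-(x / 4)) * K * (2 ^ k * (M' * Real.exp (x * e)) * K) =
        (2 * 2 ^ k * K ^ 2 * M * M') * Real.exp (-(x / 4) + x * e) := by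
      rw [Real.exp_add]; ring
  have g2 : 2 * M * Real.exp (x * e) * K * (2 ^ k * (M' * Real.exp (-(x * (θ / 32)))) * K) =
        (2 * 2 ^ k * K ^ 2 * M * M') * Real.exp (x * e + -(x * (θ / 32))) := by
      rw [Real.exp_add]; ring
  have g3 : 2 * M * Real.exp (-(x * (θ / 32))) * K * (2 ^ k * (M' * Real.exp (x * e)) * K) =
        (2 * 2 ^ k * K ^ 2 * M * M') * Real.exp (x * e + -(x * (θ / 32))) := by
      rw [Real.exp_add]; ring
  have g4 : 4 * M * Real.exp (x * e) * K * (2 ^ k * (M' * Real.exp (-(x * (θ / 32)))) * K) =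
        (4 * 2 ^ k * K ^ 2 * M * M') * Real.exp (x * e + -(x * (θ / 32))) := by
      rw [Real.exp_add]; ring
  have g5 : 4 * M * Real.exp (-(x * (θ / 32))) * K * (2 ^ k * (M' * Real.exp (x * e)) * K) =
        (4 * 2 ^ k * K ^ 2 * M * M') * Real.exp (x * e + -(x * (θ / 32))) := by
      rw [Real.exp_add]; ring
  rw [g1] at t1
  rw [g2] at t2
  rw [g3] at t3
  rw [g4] at t4
  rw [g5] at t5
  have w1 := t1.trans (fin _ _ kk2 u1)
  have w2 := t2.trans (fin _ _ kk2 u2)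
  have w3 := t3.trans (fin _ _ kk2 u2)
  have w4 := t4.trans (fin _ _ kk4 u2)
  have w5 := t5.trans (fin _ _ kk4 u2)
  -- truncation
  have w6 : EF F (Real.exp L) (fun d => ((Nf L (KW L (be L d) Ψ) d -
      Nd 2 L (fun y => KW L (be L d) Ψ y * κ y) d) * Md 2 L (fun t => q t * r t * κ t) d) ^ 2) ≤
      C5 * (C3 * 2 * 2 ^ k * K) ^ 2 * (M ^ 2 * M' ^ 2 * Real.exp (-(θ / 50 * x))) := by
    have h1 : EF F (Real.exp L) (fun d => ((Nf L (KW L (be L d) Ψ) d -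
      Nd 2 L (fun y => KW L (be L d) Ψ y * κ y) d) * Md 2 L (fun t => q t * r t * κ t) d) ^ 2) ≤
      EF F (Real.exp L) (fun _ => ((C3 * 2 * 2 ^ k * K) ^ 2 *
        (M ^ 2 * M' ^ 2 * Real.exp (-(θ / 50 * x)))) * 1) := by
      refine ef_mono hF hF0 hX ?_
      intro d hd hFd
      have a1 := hT L (be L d) M Ψ d hLc (hβd d hFd) cΨ.continuous.measurable zΨ bΨ hd
      have a2 := md_le hL0 (fun y hy => (hQ.supp y hy).2) (fun y => by
        have := mQ 0 (Nat.zero_le _) y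
        simpa using this) 2 d
      have a3 : |(Nf L (KW L (be L d) Ψ) d - Nd 2 L (fun y => KW L (be L d) Ψ y * κ y) d) *
          Md 2 L (fun t => q t * r t * κ t) d| ≤ (C3 * 2 * 2 ^ k * K * M * M') *
            Real.exp (-(3 * L) + θ * L + x * e) := by
        rw [abs_mul]
        have a4 : Real.exp (θ * L) + 1 ≤ 2 * Real.exp (θ * L) := by
          have : 1 ≤ Real.exp (θ * L) := Real.one_le_exp (by positivity)
          linarith
        calc _ ≤ C3 * M * Real.exp (-(3 * L)) * ((Real.exp (θ * L) + 1) *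
              (2 ^ k * (M' * Real.exp (x * e)) * K)) :=
              mul_le_mul a1 a2 (abs_nonneg _) (by positivity)
          _ ≤ C3 * M * Real.exp (-(3 * L)) * ((2 * Real.exp (θ * L)) *
              (2 ^ k * (M' * Real.exp (x * e)) * K)) := by
              apply mul_le_mul_of_nonneg_left _ (by positivity)
              exact mul_le_mul_of_nonneg_right a4 (by positivity)
          _ = _ := by rw [Real.exp_add, Real.exp_add]; ring
      rw [mul_one]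
      rw [← sq_abs]
      have a5 : |(Nf L (KW L (be L d) Ψ) d - Nd 2 L (fun y => KW L (be L d) Ψ y * κ y) d) *
          Md 2 L (fun t => q t * r t * κ t) d| ^ 2 ≤ ((C3 * 2 * 2 ^ k * K * M * M') *
            Real.exp (-(3 * L) + θ * L + x * e)) ^ 2 :=
        pow_le_pow_left₀ (abs_nonneg _) a3 2
      refine a5.trans ?_
      have a6 := exp_sq_le (A := C3 * 2 * 2 ^ k * K * M * M') (B := C3 * 2 * 2 ^ k * K * M * M')
        (u := -(3 * L) + θ * L + x * e) (w := -(θ / 50 * x))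
        (by rw [abs_of_nonneg (by positivity)]) u3
      refine a6.trans (le_of_eq ?_)
      ring
    refine h1.trans ?_
    rw [ef_smul]
    have h2 := hL5 L hLe
    calc (C3 * 2 * 2 ^ k * K) ^ 2 * (M ^ 2 * M' ^ 2 * Real.exp (-(θ / 50 * x))) *
          EF F (Real.exp L) (fun _ => 1) ≤
          (C3 * 2 * 2 ^ k * K) ^ 2 * (M ^ 2 * M' ^ 2 * Real.exp (-(θ / 50 * x))) * C5 :=
          mul_le_mul_of_nonneg_left h2 (by positivity)
      _ = _ := by ring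
  -- pointwise identity
  have pw := fun d : ℕ => pw_id hL0 hκ hp hr (by linarith) (by linarith) hη1
    (V := KW L (be L d) Φ) (U := KW L (be L d) Ψ) (Δ := KW L (be L d) (fun τ => Φ τ - Ψ τ))
    (fun y => hsub (be L d) y) q (Nf L (KW L (be L d) Ψ) d) d
  -- conclusion
  have main : EF F (Real.exp L) (fun d => (Ed 2 L (fun y => KW L (be L d) Φ y * κ y)
        (fun t => q t * r t * κ t) η d - Nf L (KW L (be L d) Ψ) d *
          Md 2 L (fun t => q t * r t * κ t) d) ^ 2) ≤ 6 *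
      (EF F (Real.exp L) (fun d => (Nd 2 L (fun y => KW L (be L d) (fun τ => Φ τ - Ψ τ) y *
          (κ y * p y)) d * Md 2 L (fun t => q t * (r t * κ t * p t)) d) ^ 2) +
      EF F (Real.exp L) (fun d => (Ed 2 L (fun y => KW L (be L d) Φ y * (κ y * p y))
        (fun t => q t * (r t * κ t * (1 - p t))) η d) ^ 2) +
      EF F (Real.exp L) (fun d => (Ed 2 L (fun y => KW L (be L d) Φ y * (κ y * (1 - p y)))
        (fun t => q t * r t * κ t) η d) ^ 2) +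
      EF F (Real.exp L) (fun d => (Nd 2 L (fun y => KW L (be L d) Ψ y * (κ y * p y)) d *
        Md 2 L (fun t => q t * (r t * κ t * (1 - p t))) d) ^ 2) +
      EF F (Real.exp L) (fun d => (Nd 2 L (fun y => KW L (be L d) Ψ y * (κ y * (1 - p y))) d *
        Md 2 L (fun t => q t * r t * κ t) d) ^ 2) +
      EF F (Real.exp L) (fun d => ((Nf L (KW L (be L d) Ψ) d -
        Nd 2 L (fun y => KW L (be L d) Ψ y * κ y) d) *
        Md 2 L (fun t => q t * r t * κ t) d) ^ 2)) := by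
    rw [← ef_add hF hX, ← ef_add hF hX, ← ef_add hF hX, ← ef_add hF hX, ← ef_add hF hX, ← ef_smul]
    refine ef_mono hF hF0 hX ?_
    intro d _ _
    rw [pw d]
    exact sq6 _ _ _ _ _ _
  refine main.trans ?_
  have fin2 : 6 * (W + W + W + W + W + C5 * (C3 * 2 * 2 ^ k * K) ^ 2 *
      (M ^ 2 * M' ^ 2 * Real.exp (-(θ / 50 * x)))) =
      6 * (5 * (C1 * (4 * 2 ^ k * K ^ 2) ^ 2) + C5 * (C3 * 2 * 2 ^ k * K) ^ 2) * M ^ 2 * M' ^ 2 *
        Real.exp (-(θ / 50 * x)) := by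
    rw [hW]; ring
  rw [← fin2]
  apply mul_le_mul_of_nonneg_left _ (by norm_num)
  linarith

end

end Pool.Agent.H704R2.RZ2_TR1
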