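import Pool.Agent.H223.TM.Defs
import Pool.Agent.H85R2.EM_MS1

set_option autoImplicit false

/-!
Twelfth moment lower bound: mean square of the coefficients `cA` (task S1).
-/

namespace Pool.Agent.H704R2.TM

open Finset Filter Topology MeasureTheory Complex
open Pool.Agent.H306R2 Pool.Agent.H223.EM Pool.Agent.H223.TM
open Pool.Agent.H306R2.SM hiding FB
open Pool.Agent.H85R2.EM

noncomputable section

/-- S1. mean square of `cA`, from I1 (`wA_lim`) -/
theorem sum_cA_sq_of (hwA : KH 2 wA ∧ ∀ s : Fin 2 → ℝ, (∀ i, 0 < s i) →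
    Tendsto (fun L : ℝ => (∑' b : Fin 2 → ℕ, wA b * ∏ i, (b i : ℝ) ^ (-(s i / L))) / L ^ (26 : ℝ))
      atTop (𝓝 (aF 6 * ∏ i, (s i) ^ (-((![25, 1] : Fin 2 → ℝ) i)))))
    (ε : ℝ) (hε : 0 < ε) (hε1 : ε < 1 / 16) :
    Tendsto (fun T : ℝ => (∑ b ∈ SS' ε T, cA ε T b ^ 2) / Real.log T ^ 36) atTop
      (𝓝 (aF 6 * JAn ε)) := by
  have haF : 0 < aF 6 := aF_pos (by norm_num)
  have hlim : ∀ s : Fin 2 → ℝ, (∀ i, 0 < s i) →
      Tendsto (fun L : ℝ => (∑' b : Fin 2 → ℕ, wA b * ∏ i, (b i : ℝ) ^ (-(s i / L))) /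
        L ^ ((26 : ℕ) : ℝ)) atTop (𝓝 (aF 6 * ∏ i, (s i) ^ (-((![25, 1] : Fin 2 → ℝ) i)))) := by
    intro s hs
    have := hwA.2 s hs
    simpa using this
  have h := gen (ε := ε) (by linarith) wA hwA.1 (fun b hb => by unfold wA; rw [if_neg hb]) 26
    (aF 6) haF.le ![25, 1] (by intro i; fin_cases i <;> simp) hlim
    (fun u => FA ε (u 0) (u 1) ^ 2)
    (by unfold FA et sc; fun_prop)
    (by
      rintro u - ⟨i, hi⟩
      have hz := et_zero hε hi
      fin_cases i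
      · simp only [FA]; simp at hz; rw [hz]; ring
      · simp only [FA]; simp at hz; rw [hz]; ring)
  refine h.congr' ?_
  filter_upwards [eventually_gt_atTop 1] with T hT
  have hL : Real.log T ≠ 0 := (Real.log_pos hT).ne'
  have e : ∑ b ∈ SS' ε T, cA ε T b ^ 2 = Real.log T ^ 10 * ∑ p ∈ SS' ε T, wA ![p.1, p.2] *
      FA ε (Real.log p.1 / Real.log T) (Real.log p.2 / Real.log T) ^ 2 := by
    rw [mul_sum]
    refine sum_congr rfl fun p hp => ?_
    have hc := mem_SS hp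
    have hp1 : (0 : ℝ) < p.1 := by exact_mod_cast Nat.pos_of_ne_zero hc.2.1
    have hp2 : (0 : ℝ) < p.2 := by exact_mod_cast Nat.pos_of_ne_zero hc.2.2
    have hw : wA ![p.1, p.2] = ps6 p.1 ^ 2 / ((p.1 : ℝ) * p.2) := by
      unfold wA
      simp only [Matrix.cons_val_zero, Matrix.cons_val_one]
      rw [if_pos hc]
    rw [hw]
    unfold cA
    rw [div_pow, Real.sq_sqrt (by positivity)]
    ring
  rw [e]
  simp only [Matrix.cons_val_zero, Matrix.cons_val_one]
  field_simp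

end

end Pool.Agent.H704R2.TM
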